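import Mathlib

/-! # ANL NUM: the numbers

Paper proof of `num_bound`.  `N = 8 n0`.  `8 (N+1)(1/ε + 4) ≤ 8 · 9 n0 · 5/ε = 360 n0/ε` (`ε ≤ 1`, `n0 ≥ 1`).
`nb^N 2^N (6 L ε)^N = (12 nb L ε)^(8 n0)`, so the product is at most `((12 nb L)^8 ε^8 (360 n0)^2 ε^(-2))^(n0)
= ((12 nb L)^8 (360 n0)^2 ε · ε^5)^(n0) ≤ ε^(5 n0)`.
-/

noncomputable section

namespace Pool.Agent.ANL

theorem num_bound {n0 nb : ℕ} {L ε : ℝ} (hn : 1 ≤ n0) (hnb : 1 ≤ nb) (hL : 1 ≤ L) (hε : 0 < ε)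
    (hε1 : ε ≤ 1) (hs : (12 * nb * L) ^ 8 * (360 * n0) ^ 2 * ε ≤ 1) :
    (nb : ℝ) ^ (8 * n0) * (2 ^ (8 * n0) * (8 * ((8 * n0 : ℕ) + 1) * (1 / ε + 4)) ^ (2 * n0) *
      (6 * L * ε) ^ (8 * n0)) ≤ ε ^ (5 * n0) := by
  have hn' : (1 : ℝ) ≤ n0 := by exact_mod_cast hn
  have hnb' : (1 : ℝ) ≤ nb := by exact_mod_cast hnb
  have h1 : 8 * (((8 * n0 : ℕ) : ℝ) + 1) * (1 / ε + 4) ≤ 360 * n0 / ε := by
    push_cast
    have ha : (8 : ℝ) * (8 * n0 + 1) ≤ 72 * n0 := by linarith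
    have hb : 1 / ε + 4 ≤ 5 / ε := by
      have h4 : (4 : ℝ) ≤ 4 / ε := by rw [le_div_iff₀ hε]; linarith
      have h5 : (5 : ℝ) / ε = 1 / ε + 4 / ε := by ring
      linarith
    have hc : 0 ≤ 1 / ε + 4 := by positivity
    calc (8 : ℝ) * (8 * n0 + 1) * (1 / ε + 4) ≤ 72 * n0 * (5 / ε) := by
          apply mul_le_mul ha hb hc; positivity
      _ = 360 * n0 / ε := by ring
  have h1' : 0 ≤ 8 * (((8 * n0 : ℕ) : ℝ) + 1) * (1 / ε + 4) := by positivity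
  have h2 : (8 * (((8 * n0 : ℕ) : ℝ) + 1) * (1 / ε + 4)) ^ (2 * n0) ≤ (360 * n0 / ε) ^ (2 * n0) :=
    pow_le_pow_left₀ h1' h1 _
  have hL0 : 0 ≤ L := by linarith
  calc (nb : ℝ) ^ (8 * n0) * (2 ^ (8 * n0) * (8 * ((8 * n0 : ℕ) + 1) * (1 / ε + 4)) ^ (2 * n0) *
      (6 * L * ε) ^ (8 * n0))
      ≤ (nb : ℝ) ^ (8 * n0) * (2 ^ (8 * n0) * (360 * n0 / ε) ^ (2 * n0) *
          (6 * L * ε) ^ (8 * n0)) := by
        gcongr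
    _ = (((nb : ℝ) ^ 8 * (2 ^ 8 * (360 * n0 / ε) ^ 2 * (6 * L * ε) ^ 8))) ^ n0 := by
        simp only [mul_pow, pow_mul, div_pow]
    _ = (((12 * nb * L) ^ 8 * (360 * n0) ^ 2 * ε) * ε ^ 5) ^ n0 := by
        congr 1
        field_simp
        ring
    _ ≤ (1 * ε ^ 5) ^ n0 := by
        gcongr
    _ = ε ^ (5 * n0) := by rw [one_mul, ← pow_mul]

end Pool.Agent.ANL
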