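import Pool.Agent.ANL.Det

/-! # ANL PERT: from bounds of the TRUE resolvent on `W` to bounds of the reduced one

`G = rsc H b`, `b1 = b - onW W h` (`h` real, `|h_j| ≤ τ`), `G1 = rsc H b1`, `b0` with `‖b x - b0 x - onW W h x‖ ≤ ϑ (-(b0 x).im)`,
`G0 = rsc H b0`.  `N = card κ`.

Paper proofs.
* `form_of_rows`: `qf K v = ∑_{j,i} K j i Re(conj v_j v_i) ≥ ∑_j K j j |v_j|² - ∑_{i≠j} |K j i| (|v_i|² + |v_j|²)/2 ≥ (2c - c) |v|²`
  (`K = (JM H b).submatrix W W` symmetric, `|K j i| ≤ ‖G (W j) (W i)‖`).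
* `op_of_rows`: Schur test: `‖∑_i G_ji v_i‖² ≤ (∑_i ‖G_ji‖)(∑_i ‖G_ji‖ ‖v_i‖²) ≤ C ∑_i ‖G_ji‖ ‖v_i‖²`, sum over `j` (symmetry).
* `adm_step`: `(H + diag b1) v = 0` gives `(H + diag b) v = onW (h v_W)`, `v = G onW (h v_W)`, so `v_W = G_WW (h v_W)`,
  `|v_W| ≤ C τ |v_W| ≤ (1/4) |v_W|`, `v_W = 0`, `v = 0`.  `Im b1 = Im b` (`h` real).
* `op_step`: `G1 = G + G diag(onW h) G1` (`adm_sub`), so `G1_WW v = G_WW v + G_WW (h (G1_WW v))`, norm `≤ C|v| + (1/4) |G1_WW v|`.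
* `form_step`: `f := G1 onW v`, `(H + diag b) f = onW v + onW (h f_W) = onW v'`, `v' = v + h (G1_WW v)`, so
  `qf (J1_WW) v = ∑_x -(b1 x).im ‖f_x‖² = ∑_x -(b x).im ‖(G onW v')_x‖² = qf (J_WW) v' ≥ c |v'|² ≥ (c/4) |v|²`, since
  `|v'| ≥ |v| - τ 2 C |v| ≥ |v|/2`.  (`power`, `qf_onW`.)
* `diff_entry`: `‖b1 x - b0 x‖ ≤ ϑ η0_x`, `ϑ ≤ 1/2` gives `η0 ≤ 2 η1`.  `‖G1_xy - G0_xy‖ ≤ ϑ ∑_z η0_z ‖G1_xz‖ ‖G0_zy‖ ≤ ϑ (2 Im G1_xx)^(1/2) (Im G0_yy)^(1/2)`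
  (`adm_sub`, Cauchy-Schwarz, `ward`).  For `x = y`, `t = Im G0_yy`, `a = Im G1_yy`: `t ≤ a + (1/2)(2 a t)^(1/2)`, so `t ≤ 2a`
  (if `t > 2a` then `(1/2)(2at)^(1/2) < t/2` and `a < t/2`).  So `‖G1_xy - G0_xy‖ ≤ 2 ϑ (Im G1_xx Im G1_yy)^(1/2)`.
* `red_of_good`: `Im G1_ww ≤ ‖G1_ww‖ ≤ 2C` (`op_step` on a basis vector), entries differ by `≤ 4 ϑ C`; so the operator norm of
  `G0_WW` is `≤ 2C + 4 ϑ C N ≤ 4C`, `Im G0_ww ≤ 4C`, and `qf (J0_WW) v ≥ (c/4 - 4 ϑ C N)|v|² ≥ (c/8)|v|²` (`32 ϑ C N ≤ c ≤ 1`).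
-/

open Matrix Finset

noncomputable section

namespace Pool.Agent.ANL

open Pool.Agent.Kin Pool.Agent.APS

variable {ι : Type} [Fintype ι] [DecidableEq ι] {κ : Type} [Fintype κ] [DecidableEq κ]
  {H : Matrix ι ι ℂ} {b b0 b1 : ι → ℂ} {W : κ → ι} {c C τ ϑ : ℝ}

/-- `|Re(conj a b)| ≤ (|a|² + |b|²)/2` -/
theorem pert_re (a c : ℂ) : |a.re * c.re + a.im * c.im| ≤ (‖a‖ ^ 2 + ‖c‖ ^ 2) / 2 := by
  rw [← Complex.normSq_eq_norm_sq, ← Complex.normSq_eq_norm_sq, Complex.normSq_apply,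
    Complex.normSq_apply, abs_le]
  constructor
  · nlinarith [sq_nonneg (a.re + c.re), sq_nonneg (a.im + c.im)]
  · nlinarith [sq_nonneg (a.re - c.re), sq_nonneg (a.im - c.im)]

theorem pert_re_self (a : ℂ) : a.re * a.re + a.im * a.im = ‖a‖ ^ 2 := by
  rw [← Complex.normSq_eq_norm_sq, Complex.normSq_apply]

omit [Fintype ι] [DecidableEq κ] in
theorem pert_im_onW (W : κ → ι) (h : κ → ℝ) (x : ι) :
    (onW W (fun j => (h j : ℂ)) x).im = 0 := by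
  unfold onW
  rw [Complex.im_sum]
  refine Finset.sum_eq_zero fun j _ => ?_
  split_ifs
  · exact Complex.ofReal_im _
  · exact Complex.zero_im

omit [DecidableEq κ] in
theorem pert_mulVec_onW (M : Matrix ι ι ℂ) (W : κ → ι) (s : κ → ℂ) (x : ι) :
    (M *ᵥ onW W s) x = ∑ j, M x (W j) * s j := by
  have h1 : (M *ᵥ onW W s) x = ∑ y, ∑ j, M x y * (if W j = y then s j else 0) := by
    unfold Matrix.mulVec dotProduct onW
    refine Finset.sum_congr rfl fun y _ => ?_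
    rw [Finset.mul_sum]
  rw [h1, Finset.sum_comm]
  refine Finset.sum_congr rfl fun j _ => ?_
  rw [Finset.sum_eq_single (W j)]
  · rw [if_pos rfl]
  · intro y _ hy
    rw [if_neg (Ne.symm hy), mul_zero]
  · intro h
    exact absurd (Finset.mem_univ _) h

omit [Fintype ι] [DecidableEq κ] in
theorem pert_onW_mul (W : κ → ι) (s : κ → ℂ) (v : ι → ℂ) (x : ι) :
    onW W s x * v x = onW W (fun j => s j * v (W j)) x := by
  unfold onW
  rw [Finset.sum_mul]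
  refine Finset.sum_congr rfl fun j _ => ?_
  by_cases h : W j = x
  · rw [if_pos h, if_pos h]
    show s j * v x = s j * v (W j)
    rw [h]
  · rw [if_neg h, if_neg h, zero_mul]

omit [Fintype ι] [DecidableEq κ] in
theorem pert_onW_add (W : κ → ι) (s t : κ → ℂ) (x : ι) :
    onW W s x + onW W t x = onW W (fun j => s j + t j) x := by
  unfold onW
  rw [← Finset.sum_add_distrib]
  refine Finset.sum_congr rfl fun j _ => ?_
  by_cases h : W j = x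
  · rw [if_pos h, if_pos h, if_pos h]
  · rw [if_neg h, if_neg h, if_neg h, add_zero]

omit [DecidableEq κ] in
theorem pert_diag (H : Matrix ι ι ℂ) (b : ι → ℂ) (W : κ → ι) (s : κ → ℂ) (v : ι → ℂ) :
    (H + diagonal b) *ᵥ v =
      (H + diagonal (fun x => b x - onW W s x)) *ᵥ v + onW W (fun j => s j * v (W j)) := by
  funext x
  rw [Pi.add_apply, ← pert_onW_mul, Matrix.add_mulVec, Matrix.add_mulVec, Pi.add_apply,
    Pi.add_apply, Matrix.mulVec_diagonal, Matrix.mulVec_diagonal]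
  ring

theorem form_of_rows (hA : Adm H b) (h1 : ∀ j, 2 * c ≤ (rsc H b (W j) (W j)).im)
    (h2 : ∀ j, ∑ i ∈ univ.erase j, ‖rsc H b (W j) (W i)‖ ≤ c) (v : κ → ℂ) :
    c * ∑ j, ‖v j‖ ^ 2 ≤ qf ((JM H b).submatrix W W) v := by
  have e1 : ∀ j, 2 * c * ‖v j‖ ^ 2 - ∑ i ∈ univ.erase j,
      ‖rsc H b (W j) (W i)‖ * ((‖v j‖ ^ 2 + ‖v i‖ ^ 2) / 2) ≤
      ∑ i, (JM H b).submatrix W W j i * ((v j).re * (v i).re + (v j).im * (v i).im) := by
    intro j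
    rw [← Finset.add_sum_erase univ _ (Finset.mem_univ j), pert_re_self, sub_eq_add_neg,
      ← Finset.sum_neg_distrib]
    refine add_le_add ?_ (Finset.sum_le_sum fun i _ => ?_)
    · exact mul_le_mul_of_nonneg_right (h1 j) (sq_nonneg _)
    · have e2 : |(JM H b).submatrix W W j i * ((v j).re * (v i).re + (v j).im * (v i).im)| ≤
          ‖rsc H b (W j) (W i)‖ * ((‖v j‖ ^ 2 + ‖v i‖ ^ 2) / 2) := by
        rw [abs_mul]
        exact mul_le_mul (Complex.abs_im_le_norm _) (pert_re _ _) (abs_nonneg _) (norm_nonneg _)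
      exact (abs_le.1 e2).1
  have e3 : ∑ j, (2 * c * ‖v j‖ ^ 2 - ∑ i ∈ univ.erase j,
      ‖rsc H b (W j) (W i)‖ * ((‖v j‖ ^ 2 + ‖v i‖ ^ 2) / 2)) ≤
      qf ((JM H b).submatrix W W) v := Finset.sum_le_sum fun j _ => e1 j
  refine le_trans ?_ e3
  have e4 : ∑ j, ∑ i ∈ univ.erase j, ‖rsc H b (W j) (W i)‖ * ((‖v j‖ ^ 2 + ‖v i‖ ^ 2) / 2) =
      ∑ j, ∑ i ∈ univ.erase j, ‖rsc H b (W j) (W i)‖ * ‖v j‖ ^ 2 := by
    have e5 : ∑ j, ∑ i ∈ univ.erase j, ‖rsc H b (W j) (W i)‖ * ‖v i‖ ^ 2 =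
        ∑ j, ∑ i ∈ univ.erase j, ‖rsc H b (W j) (W i)‖ * ‖v j‖ ^ 2 := by
      rw [Finset.sum_comm' (t' := univ) (s' := fun i => univ.erase i)]
      · refine Finset.sum_congr rfl fun j _ => Finset.sum_congr rfl fun i _ => ?_
        rw [adm_symm hA]
      · intro x y
        simp [ne_comm]
    have e6 : ∑ j, ∑ i ∈ univ.erase j, ‖rsc H b (W j) (W i)‖ * ((‖v j‖ ^ 2 + ‖v i‖ ^ 2) / 2) =
        (∑ j, ∑ i ∈ univ.erase j, ‖rsc H b (W j) (W i)‖ * ‖v j‖ ^ 2) / 2 +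
        (∑ j, ∑ i ∈ univ.erase j, ‖rsc H b (W j) (W i)‖ * ‖v i‖ ^ 2) / 2 := by
      rw [Finset.sum_div, Finset.sum_div, ← Finset.sum_add_distrib]
      refine Finset.sum_congr rfl fun j _ => ?_
      rw [Finset.sum_div, Finset.sum_div, ← Finset.sum_add_distrib]
      refine Finset.sum_congr rfl fun i _ => ?_
      ring
    rw [e6, e5]
    ring
  rw [Finset.sum_sub_distrib, e4, Finset.mul_sum, ← Finset.sum_sub_distrib]
  refine Finset.sum_le_sum fun j _ => ?_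
  rw [← Finset.sum_mul]
  have := mul_le_mul_of_nonneg_right (h2 j) (sq_nonneg ‖v j‖)
  linarith

theorem op_of_rows (hA : Adm H b) (h1 : ∀ j, ∑ i, ‖rsc H b (W j) (W i)‖ ≤ C) (v : κ → ℂ) :
    ∑ j, ‖∑ i, rsc H b (W j) (W i) * v i‖ ^ 2 ≤ C ^ 2 * ∑ j, ‖v j‖ ^ 2 := by
  rcases isEmpty_or_nonempty κ with hκ | ⟨⟨j0⟩⟩
  · simp
  have hC : 0 ≤ C := le_trans (Finset.sum_nonneg fun i _ => norm_nonneg _) (h1 j0)
  have e1 : ∀ j, ‖∑ i, rsc H b (W j) (W i) * v i‖ ^ 2 ≤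
      C * ∑ i, ‖rsc H b (W j) (W i)‖ * ‖v i‖ ^ 2 := by
    intro j
    have e2 : ‖∑ i, rsc H b (W j) (W i) * v i‖ ≤ ∑ i, ‖rsc H b (W j) (W i)‖ * ‖v i‖ := by
      refine (norm_sum_le _ _).trans (Finset.sum_le_sum fun i _ => ?_)
      rw [norm_mul]
    refine (pow_le_pow_left₀ (norm_nonneg _) e2 2).trans ?_
    have e3 := Finset.sum_sq_le_sum_mul_sum_of_sq_le_mul univ
      (r := fun i => ‖rsc H b (W j) (W i)‖ * ‖v i‖) (f := fun i => ‖rsc H b (W j) (W i)‖)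
      (g := fun i => ‖rsc H b (W j) (W i)‖ * ‖v i‖ ^ 2) (fun i _ => norm_nonneg _)
      (fun i _ => by positivity) (fun i _ => le_of_eq (by ring))
    exact e3.trans (mul_le_mul_of_nonneg_right (h1 j)
      (Finset.sum_nonneg fun i _ => by positivity))
  refine (Finset.sum_le_sum fun j _ => e1 j).trans ?_
  rw [← Finset.mul_sum, Finset.sum_comm, sq, mul_assoc]
  refine mul_le_mul_of_nonneg_left ?_ hC
  rw [Finset.mul_sum]
  refine Finset.sum_le_sum fun i _ => ?_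
  rw [← Finset.sum_mul]
  refine mul_le_mul_of_nonneg_right ?_ (sq_nonneg _)
  refine le_trans (le_of_eq ?_) (h1 i)
  refine Finset.sum_congr rfl fun j _ => ?_
  rw [adm_symm hA]

omit [Fintype ι] [DecidableEq ι] [DecidableEq κ] in
/-- multiplication by small real numbers followed by an operator bounded by `C` -/
theorem pert_small {G : Matrix κ κ ℂ}
    (hop : ∀ v : κ → ℂ, ∑ j, ‖∑ i, G j i * v i‖ ^ 2 ≤ C ^ 2 * ∑ j, ‖v j‖ ^ 2)
    {h : κ → ℝ} (hC : 0 ≤ C) (hh : ∀ j, |h j| ≤ τ) (hτ : τ * C ≤ 1 / 4) (u : κ → ℂ) :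
    ∑ j, ‖∑ i, G j i * ((h i : ℂ) * u i)‖ ^ 2 ≤ 1 / 16 * ∑ j, ‖u j‖ ^ 2 := by
  rcases isEmpty_or_nonempty κ with hκ | ⟨⟨j0⟩⟩
  · simp
  have hτ0 : 0 ≤ τ := (abs_nonneg _).trans (hh j0)
  refine (hop _).trans ?_
  have e1 : ∑ j, ‖(h j : ℂ) * u j‖ ^ 2 ≤ τ ^ 2 * ∑ j, ‖u j‖ ^ 2 := by
    rw [Finset.mul_sum]
    refine Finset.sum_le_sum fun j _ => ?_
    rw [norm_mul, mul_pow, Complex.norm_real, Real.norm_eq_abs]
    exact mul_le_mul_of_nonneg_right (pow_le_pow_left₀ (abs_nonneg _) (hh j) 2) (sq_nonneg _)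
  have e2 : (τ * C) ^ 2 ≤ (1 / 4) ^ 2 := pow_le_pow_left₀ (mul_nonneg hτ0 hC) hτ 2
  have e3 : 0 ≤ ∑ j, ‖u j‖ ^ 2 := Finset.sum_nonneg fun j _ => sq_nonneg _
  calc C ^ 2 * ∑ j, ‖(h j : ℂ) * u j‖ ^ 2 ≤ C ^ 2 * (τ ^ 2 * ∑ j, ‖u j‖ ^ 2) :=
        mul_le_mul_of_nonneg_left e1 (sq_nonneg C)
    _ = (τ * C) ^ 2 * ∑ j, ‖u j‖ ^ 2 := by ring
    _ ≤ 1 / 16 * ∑ j, ‖u j‖ ^ 2 := by
        refine mul_le_mul_of_nonneg_right ?_ e3
        refine e2.trans ?_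
        norm_num

section step

variable (hA : Adm H b) (hW : Function.Injective W)
  (hop : ∀ v : κ → ℂ, ∑ j, ‖∑ i, rsc H b (W j) (W i) * v i‖ ^ 2 ≤ C ^ 2 * ∑ j, ‖v j‖ ^ 2)
  {h : κ → ℝ} (hC : 0 ≤ C) (hh : ∀ j, |h j| ≤ τ) (hτ : τ * C ≤ 1 / 4)

include hA hW hop hC hh hτ

theorem adm_step : Adm H (fun x => b x - onW W (fun j => (h j : ℂ)) x) := by
  refine ⟨hA.sym, fun x => ?_, ?_⟩
  · rw [Complex.sub_im, pert_im_onW, sub_zero]
    exact hA.im x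
  · rw [isUnit_iff_ne_zero]
    intro h0
    obtain ⟨v, hv, hv0⟩ := Matrix.exists_mulVec_eq_zero_iff.2 h0
    apply hv
    have e1 := pert_diag H b W (fun j => (h j : ℂ)) v
    rw [hv0, zero_add] at e1
    have e2 := res_src hA v
    rw [e1] at e2
    have e3 : ∀ x, v x = ∑ j, rsc H b x (W j) * ((h j : ℂ) * v (W j)) := by
      intro x
      conv_lhs => rw [← e2]
      rw [pert_mulVec_onW]
    have e4 := pert_small (G := (rsc H b).submatrix W W) hop hC hh hτ (fun j => v (W j))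
    have e5 : ∑ j, ‖v (W j)‖ ^ 2 ≤ 1 / 16 * ∑ j, ‖v (W j)‖ ^ 2 := by
      refine le_trans (le_of_eq ?_) e4
      refine Finset.sum_congr rfl fun j _ => ?_
      rw [e3 (W j)]
      rfl
    have e6 : 0 ≤ ∑ j, ‖v (W j)‖ ^ 2 := Finset.sum_nonneg fun j _ => sq_nonneg _
    have e7 : ∑ j, ‖v (W j)‖ ^ 2 = 0 := by linarith
    have e8 := (Finset.sum_eq_zero_iff_of_nonneg (fun j _ => sq_nonneg _)).1 e7
    funext x
    rw [e3 x, Pi.zero_apply]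
    refine Finset.sum_eq_zero fun j hj => ?_
    have e9 := e8 j hj
    have e10 : v (W j) = 0 := norm_eq_zero.1 (pow_eq_zero_iff (by norm_num) |>.1 e9)
    rw [e10, mul_zero, mul_zero]

/-- `G1_WW v = G_WW (v + h G1_WW v)` -/
theorem pert_fix (v : κ → ℂ) (x : ι) :
    ∑ i, rsc H (fun x => b x - onW W (fun j => (h j : ℂ)) x) x (W i) * v i =
      ∑ i, rsc H b x (W i) * (v i + (h i : ℂ) *
        ∑ k, rsc H (fun x => b x - onW W (fun j => (h j : ℂ)) x) (W i) (W k) * v k) := by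
  have h1 := adm_step hA hW hop hC hh hτ
  have e1 := src_res h1 (onW W v)
  have e2 := pert_diag H b W (fun j => (h j : ℂ))
    (rsc H (fun x => b x - onW W (fun j => (h j : ℂ)) x) *ᵥ onW W v)
  rw [e1] at e2
  have e3 : onW W v + onW W (fun j => (h j : ℂ) *
      (rsc H (fun x => b x - onW W (fun j => (h j : ℂ)) x) *ᵥ onW W v) (W j)) =
      onW W (fun j => v j + (h j : ℂ) *
      (rsc H (fun x => b x - onW W (fun j => (h j : ℂ)) x) *ᵥ onW W v) (W j)) := by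
    funext x
    rw [Pi.add_apply, pert_onW_add]
  rw [e3] at e2
  have e4 := res_src hA (rsc H (fun x => b x - onW W (fun j => (h j : ℂ)) x) *ᵥ onW W v)
  rw [e2] at e4
  have e5 := congrFun e4 x
  rw [pert_mulVec_onW, pert_mulVec_onW] at e5
  rw [← e5]
  refine Finset.sum_congr rfl fun i _ => ?_
  rw [pert_mulVec_onW]

theorem op_step (v : κ → ℂ) :
    ∑ j, ‖∑ i, rsc H (fun x => b x - onW W (fun j => (h j : ℂ)) x) (W j) (W i) * v i‖ ^ 2 ≤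
      (2 * C) ^ 2 * ∑ j, ‖v j‖ ^ 2 := by
  obtain ⟨u, hu⟩ : ∃ u : κ → ℂ, ∀ j, u j =
      ∑ i, rsc H (fun x => b x - onW W (fun j => (h j : ℂ)) x) (W j) (W i) * v i :=
    ⟨_, fun _ => rfl⟩
  have e1 : ∀ j, u j = ∑ i, rsc H b (W j) (W i) * v i +
      ∑ i, rsc H b (W j) (W i) * ((h i : ℂ) * u i) := by
    intro j
    rw [hu j, pert_fix hA hW hop hC hh hτ v (W j), ← Finset.sum_add_distrib]
    refine Finset.sum_congr rfl fun i _ => ?_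
    rw [hu i]
    ring
  have e2 := pert_small (G := (rsc H b).submatrix W W) hop hC hh hτ u
  have e3 := hop v
  have e4 : ∀ j, ‖u j‖ ^ 2 ≤ 2 * ‖∑ i, rsc H b (W j) (W i) * v i‖ ^ 2 +
      2 * ‖∑ i, rsc H b (W j) (W i) * ((h i : ℂ) * u i)‖ ^ 2 := by
    intro j
    have e5 : ‖u j‖ ≤ ‖∑ i, rsc H b (W j) (W i) * v i‖ +
        ‖∑ i, rsc H b (W j) (W i) * ((h i : ℂ) * u i)‖ := by
      conv_lhs => rw [e1 j]
      exact norm_add_le _ _
    have e6 := pow_le_pow_left₀ (norm_nonneg _) e5 2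
    nlinarith [sq_nonneg (‖∑ i, rsc H b (W j) (W i) * v i‖ -
      ‖∑ i, rsc H b (W j) (W i) * ((h i : ℂ) * u i)‖)]
  have e7 := Finset.sum_le_sum fun j (_ : j ∈ (univ : Finset κ)) => e4 j
  rw [Finset.sum_add_distrib, ← Finset.mul_sum, ← Finset.mul_sum] at e7
  simp only [Matrix.submatrix_apply] at e2
  have e8 : 0 ≤ ∑ j, ‖u j‖ ^ 2 := Finset.sum_nonneg fun j _ => sq_nonneg _
  have e9 : 0 ≤ ∑ j, ‖v j‖ ^ 2 := Finset.sum_nonneg fun j _ => sq_nonneg _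
  have e10 : ∑ j, ‖u j‖ ^ 2 ≤ (2 * C) ^ 2 * ∑ j, ‖v j‖ ^ 2 := by
    have e11 : 0 ≤ C ^ 2 * ∑ j, ‖v j‖ ^ 2 := mul_nonneg (sq_nonneg C) e9
    have e12 : (2 * C) ^ 2 * ∑ j, ‖v j‖ ^ 2 = 4 * (C ^ 2 * ∑ j, ‖v j‖ ^ 2) := by ring
    rw [e12]
    linarith
  refine le_trans (le_of_eq ?_) e10
  refine Finset.sum_congr rfl fun j _ => ?_
  rw [hu j]

theorem form_step (hc : 0 ≤ c)
    (hf : ∀ v : κ → ℂ, c * ∑ j, ‖v j‖ ^ 2 ≤ qf ((JM H b).submatrix W W) v) (v : κ → ℂ) :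
    c / 4 * ∑ j, ‖v j‖ ^ 2 ≤
      qf ((JM H (fun x => b x - onW W (fun j => (h j : ℂ)) x)).submatrix W W) v := by
  have h1 := adm_step hA hW hop hC hh hτ
  obtain ⟨u, hu⟩ : ∃ u : κ → ℂ, ∀ j, u j =
      ∑ i, rsc H (fun x => b x - onW W (fun j => (h j : ℂ)) x) (W j) (W i) * v i :=
    ⟨_, fun _ => rfl⟩
  have e1 : qf ((JM H (fun x => b x - onW W (fun j => (h j : ℂ)) x)).submatrix W W) v =
      qf ((JM H b).submatrix W W) (fun j => v j + (h j : ℂ) * u j) := by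
    rw [← qf_onW hW, ← qf_onW hW, ← power h1, ← power hA]
    refine Finset.sum_congr rfl fun x _ => ?_
    rw [Complex.sub_im, pert_im_onW, sub_zero, pert_mulVec_onW, pert_mulVec_onW,
      pert_fix hA hW hop hC hh hτ v x]
    have e2 : ∀ i, ∑ k, rsc H (fun x => b x - onW W (fun j => (h j : ℂ)) x) (W i) (W k) * v k =
        u i := fun i => (hu i).symm
    simp only [e2]
  rw [e1]
  refine le_trans ?_ (hf _)
  have e3 : ∑ j, ‖u j‖ ^ 2 ≤ (2 * C) ^ 2 * ∑ j, ‖v j‖ ^ 2 := by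
    refine le_trans (le_of_eq ?_) (op_step hA hW hop hC hh hτ v)
    refine Finset.sum_congr rfl fun j _ => ?_
    rw [hu j]
  have e4 : ∑ j, ‖(h j : ℂ) * u j‖ ^ 2 ≤ 1 / 4 * ∑ j, ‖v j‖ ^ 2 := by
    rcases isEmpty_or_nonempty κ with hκ | ⟨⟨j0⟩⟩
    · simp
    have hτ0 : 0 ≤ τ := (abs_nonneg _).trans (hh j0)
    have e5 : ∑ j, ‖(h j : ℂ) * u j‖ ^ 2 ≤ τ ^ 2 * ∑ j, ‖u j‖ ^ 2 := by
      rw [Finset.mul_sum]
      refine Finset.sum_le_sum fun j _ => ?_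
      rw [norm_mul, mul_pow, Complex.norm_real, Real.norm_eq_abs]
      exact mul_le_mul_of_nonneg_right (pow_le_pow_left₀ (abs_nonneg _) (hh j) 2) (sq_nonneg _)
    have e6 : (τ * C) ^ 2 ≤ (1 / 4) ^ 2 := pow_le_pow_left₀ (mul_nonneg hτ0 hC) hτ 2
    have e7 : 0 ≤ ∑ j, ‖v j‖ ^ 2 := Finset.sum_nonneg fun j _ => sq_nonneg _
    calc ∑ j, ‖(h j : ℂ) * u j‖ ^ 2 ≤ τ ^ 2 * ∑ j, ‖u j‖ ^ 2 := e5
      _ ≤ τ ^ 2 * ((2 * C) ^ 2 * ∑ j, ‖v j‖ ^ 2) := mul_le_mul_of_nonneg_left e3 (sq_nonneg τ)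
      _ = 4 * ((τ * C) ^ 2 * ∑ j, ‖v j‖ ^ 2) := by ring
      _ ≤ 4 * ((1 / 4) ^ 2 * ∑ j, ‖v j‖ ^ 2) :=
          mul_le_mul_of_nonneg_left (mul_le_mul_of_nonneg_right e6 e7) (by norm_num)
      _ = 1 / 4 * ∑ j, ‖v j‖ ^ 2 := by ring
  have e8 : ∀ j, ‖v j‖ ^ 2 ≤ 2 * ‖v j + (h j : ℂ) * u j‖ ^ 2 + 2 * ‖(h j : ℂ) * u j‖ ^ 2 := by
    intro j
    have e9 : ‖v j‖ ≤ ‖v j + (h j : ℂ) * u j‖ + ‖(h j : ℂ) * u j‖ := by
      have := norm_sub_le (v j + (h j : ℂ) * u j) ((h j : ℂ) * u j)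
      rwa [add_sub_cancel_right] at this
    have e10 := pow_le_pow_left₀ (norm_nonneg _) e9 2
    nlinarith [sq_nonneg (‖v j + (h j : ℂ) * u j‖ - ‖(h j : ℂ) * u j‖)]
  have e11 := Finset.sum_le_sum fun j (_ : j ∈ (univ : Finset κ)) => e8 j
  rw [Finset.sum_add_distrib, ← Finset.mul_sum, ← Finset.mul_sum] at e11
  have e12 : 1 / 4 * ∑ j, ‖v j‖ ^ 2 ≤ ∑ j, ‖v j + (h j : ℂ) * u j‖ ^ 2 := by linarith
  have e13 := mul_le_mul_of_nonneg_left e12 hc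
  linarith

end step

/-- Cauchy-Schwarz and the two Ward identities -/
theorem pert_cs (h1 : Adm H b1) (h0 : Adm H b0) (hϑ : 0 ≤ ϑ) (hϑ2 : ϑ ≤ 1 / 2)
    (hd : ∀ x, ‖b1 x - b0 x‖ ≤ ϑ * (-(b0 x).im)) (x y : ι) :
    ‖rsc H b1 x y - rsc H b0 x y‖ ≤ ϑ * √(2 * (rsc H b1 x x).im * (rsc H b0 y y).im) := by
  have e0 : ∀ z, 0 ≤ -(b0 z).im := fun z => by linarith [h0.im z]
  have e1 : ∀ z, -(b0 z).im ≤ 2 * (-(b1 z).im) := by
    intro z
    have e2 := (Complex.abs_im_le_norm _).trans (hd z)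
    rw [Complex.sub_im, abs_le] at e2
    have e3 := mul_le_mul_of_nonneg_right hϑ2 (e0 z)
    linarith [e2.2]
  rw [adm_sub h1 h0]
  have e4 : ‖∑ z, rsc H b1 x z * (b0 z - b1 z) * rsc H b0 z y‖ ≤
      ϑ * ∑ z, (-(b0 z).im) * (‖rsc H b1 x z‖ * ‖rsc H b0 y z‖) := by
    rw [Finset.mul_sum]
    refine (norm_sum_le _ _).trans (Finset.sum_le_sum fun z _ => ?_)
    rw [norm_mul, norm_mul, norm_sub_rev, adm_symm h0 z y]
    calc ‖rsc H b1 x z‖ * ‖b1 z - b0 z‖ * ‖rsc H b0 y z‖ ≤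
        ‖rsc H b1 x z‖ * (ϑ * (-(b0 z).im)) * ‖rsc H b0 y z‖ := by
          gcongr
          exact hd z
      _ = ϑ * ((-(b0 z).im) * (‖rsc H b1 x z‖ * ‖rsc H b0 y z‖)) := by ring
  refine e4.trans (mul_le_mul_of_nonneg_left ?_ hϑ)
  refine Real.le_sqrt_of_sq_le ?_
  have e5 := Finset.sum_sq_le_sum_mul_sum_of_sq_le_mul univ
    (r := fun z => (-(b0 z).im) * (‖rsc H b1 x z‖ * ‖rsc H b0 y z‖))
    (f := fun z => (-(b0 z).im) * ‖rsc H b1 x z‖ ^ 2)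
    (g := fun z => (-(b0 z).im) * ‖rsc H b0 y z‖ ^ 2)
    (fun z _ => mul_nonneg (e0 z) (sq_nonneg _)) (fun z _ => mul_nonneg (e0 z) (sq_nonneg _))
    (fun z _ => le_of_eq (by ring))
  refine e5.trans ?_
  rw [← ward h0 y]
  refine mul_le_mul_of_nonneg_right ?_ (ward_nonneg h0 y)
  rw [ward h1 x, Finset.mul_sum]
  refine Finset.sum_le_sum fun z _ => ?_
  have := mul_le_mul_of_nonneg_right (e1 z) (sq_nonneg ‖rsc H b1 x z‖)
  linarith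

/-- the diagonal imaginary parts are comparable -/
theorem pert_diag_le (h1 : Adm H b1) (h0 : Adm H b0) (hϑ : 0 ≤ ϑ) (hϑ2 : ϑ ≤ 1 / 2)
    (hd : ∀ x, ‖b1 x - b0 x‖ ≤ ϑ * (-(b0 x).im)) (y : ι) :
    (rsc H b0 y y).im ≤ 2 * (rsc H b1 y y).im := by
  by_contra hcon
  push Not at hcon
  have e1 := ward_nonneg h1 y
  have e2 := pert_cs h1 h0 hϑ hϑ2 hd y y
  have e3 := Complex.abs_im_le_norm (rsc H b1 y y - rsc H b0 y y)
  rw [Complex.sub_im, abs_sub_comm] at e3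
  have e4 := (le_abs_self _).trans (e3.trans e2)
  have e5 : √(2 * (rsc H b1 y y).im * (rsc H b0 y y).im) ≤ (rsc H b0 y y).im := by
    refine Real.sqrt_le_iff.2 ⟨by linarith, ?_⟩
    rw [sq]
    exact mul_le_mul_of_nonneg_right hcon.le (by linarith)
  have e6 : ϑ * √(2 * (rsc H b1 y y).im * (rsc H b0 y y).im) ≤
      1 / 2 * (rsc H b0 y y).im := mul_le_mul hϑ2 e5 (Real.sqrt_nonneg _) (by norm_num)
  linarith

theorem diff_entry (h1 : Adm H b1) (h0 : Adm H b0) (hϑ : 0 ≤ ϑ) (hϑ2 : ϑ ≤ 1 / 2)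
    (hd : ∀ x, ‖b1 x - b0 x‖ ≤ ϑ * (-(b0 x).im)) (x y : ι) :
    ‖rsc H b1 x y - rsc H b0 x y‖ ≤ 2 * ϑ * √((rsc H b1 x x).im * (rsc H b1 y y).im) := by
  refine (pert_cs h1 h0 hϑ hϑ2 hd x y).trans ?_
  have e1 : √(2 * (rsc H b1 x x).im * (rsc H b0 y y).im) ≤
      √(2 ^ 2 * ((rsc H b1 x x).im * (rsc H b1 y y).im)) := by
    refine Real.sqrt_le_sqrt ?_
    have e2 := mul_le_mul_of_nonneg_left (pert_diag_le h1 h0 hϑ hϑ2 hd y) (ward_nonneg h1 x)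
    linarith
  have e3 : √(2 ^ 2 * ((rsc H b1 x x).im * (rsc H b1 y y).im)) =
      2 * √((rsc H b1 x x).im * (rsc H b1 y y).im) := by
    rw [Real.sqrt_mul (by norm_num) ((rsc H b1 x x).im * (rsc H b1 y y).im),
      Real.sqrt_sq (by norm_num)]
  rw [e3] at e1
  have := mul_le_mul_of_nonneg_left e1 hϑ
  linarith

theorem red_of_good (hA : Adm H b) (hA0 : Adm H b0) (hW : Function.Injective W)
    (hop : ∀ v : κ → ℂ, ∑ j, ‖∑ i, rsc H b (W j) (W i) * v i‖ ^ 2 ≤ C ^ 2 * ∑ j, ‖v j‖ ^ 2)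
    (hf : ∀ v : κ → ℂ, c * ∑ j, ‖v j‖ ^ 2 ≤ qf ((JM H b).submatrix W W) v)
    (hc : 0 < c) (hc1 : c ≤ 1) (hC : 1 ≤ C) {h : κ → ℝ} (hh : ∀ j, |h j| ≤ τ)
    (hτ : τ * C ≤ 1 / 4) (hϑ : 0 ≤ ϑ) (hϑ2 : ϑ ≤ 1 / 2)
    (hϑN : 32 * ϑ * C * Fintype.card κ ≤ c)
    (hd : ∀ x, ‖b x - b0 x - onW W (fun j => (h j : ℂ)) x‖ ≤ ϑ * (-(b0 x).im)) :
    Red H b0 W (c / 8) (4 * C) := by
  have hC0 : 0 ≤ C := by linarith
  have h1 := adm_step hA hW hop hC0 hh hτ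
  have hop1 := op_step hA hW hop hC0 hh hτ
  have hf1 := form_step hA hW hop hC0 hh hτ hc.le hf
  obtain ⟨b1, hb1⟩ : ∃ b1 : ι → ℂ, b1 = fun x => b x - onW W (fun j => (h j : ℂ)) x := ⟨_, rfl⟩
  rw [← hb1] at h1
  have hd1 : ∀ x, ‖b1 x - b0 x‖ ≤ ϑ * (-(b0 x).im) := by
    intro x
    refine le_trans (le_of_eq ?_) (hd x)
    rw [hb1]
    congr 1
    ring
  have hop1' : ∀ v : κ → ℂ, ∑ j, ‖∑ i, rsc H b1 (W j) (W i) * v i‖ ^ 2 ≤
      (2 * C) ^ 2 * ∑ j, ‖v j‖ ^ 2 := by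
    intro v
    rw [hb1]
    exact hop1 v
  have hf1' : ∀ v : κ → ℂ, c / 4 * ∑ j, ‖v j‖ ^ 2 ≤ qf ((JM H b1).submatrix W W) v := by
    intro v
    rw [hb1]
    exact hf1 v
  have hdg : ∀ j, (rsc H b1 (W j) (W j)).im ≤ 2 * C := by
    intro j
    refine (Complex.im_le_norm _).trans ?_
    have e1 := hop1' (Pi.single j 1)
    have e2 : ∑ i, ‖(Pi.single j (1 : ℂ) : κ → ℂ) i‖ ^ 2 = 1 := by
      rw [Finset.sum_eq_single j]
      · rw [Pi.single_eq_same, norm_one, one_pow]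
      · intro i _ hi
        rw [Pi.single_eq_of_ne hi, norm_zero]
        norm_num
      · intro h
        exact absurd (Finset.mem_univ _) h
    have e3 : ∀ k, ∑ i, rsc H b1 (W k) (W i) * (Pi.single j (1 : ℂ) : κ → ℂ) i =
        rsc H b1 (W k) (W j) := by
      intro k
      rw [Finset.sum_eq_single j]
      · rw [Pi.single_eq_same, mul_one]
      · intro i _ hi
        rw [Pi.single_eq_of_ne hi, mul_zero]
      · intro h
        exact absurd (Finset.mem_univ _) h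
    rw [e2, mul_one] at e1
    simp only [e3] at e1
    have e4 : ‖rsc H b1 (W j) (W j)‖ ^ 2 ≤ (2 * C) ^ 2 :=
      (Finset.single_le_sum (f := fun k => ‖rsc H b1 (W k) (W j)‖ ^ 2)
        (fun k _ => sq_nonneg _) (Finset.mem_univ j)).trans e1
    exact le_of_sq_le_sq e4 (by linarith)
  have hent : ∀ j i, ‖rsc H b1 (W j) (W i) - rsc H b0 (W j) (W i)‖ ≤ 4 * ϑ * C := by
    intro j i
    refine (diff_entry h1 hA0 hϑ hϑ2 hd1 _ _).trans ?_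
    have e1 : √((rsc H b1 (W j) (W j)).im * (rsc H b1 (W i) (W i)).im) ≤ 2 * C := by
      refine Real.sqrt_le_iff.2 ⟨by linarith, ?_⟩
      rw [sq]
      exact mul_le_mul (hdg j) (hdg i) (ward_nonneg h1 _) (by linarith)
    have e2 := mul_le_mul_of_nonneg_left e1 (show 0 ≤ 2 * ϑ by linarith)
    linarith
  have hN : 4 * ϑ * C * Fintype.card κ ≤ c / 8 := by linarith
  have hN0 : 0 ≤ 4 * ϑ * C := by positivity
  have hNN : 0 ≤ 4 * ϑ * C * Fintype.card κ := by positivity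
  refine ⟨hA0, hW, fun v => ?_, fun j => ?_, fun v => ?_⟩
  · -- the form
    have e1 : |qf ((JM H b1).submatrix W W) v - qf ((JM H b0).submatrix W W) v| ≤
        4 * ϑ * C * Fintype.card κ * ∑ j, ‖v j‖ ^ 2 := by
      have e2 : qf ((JM H b1).submatrix W W) v - qf ((JM H b0).submatrix W W) v =
          ∑ j, ∑ i, ((rsc H b1 (W j) (W i) - rsc H b0 (W j) (W i)).im *
            ((v j).re * (v i).re + (v j).im * (v i).im)) := by
        unfold qf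
        rw [← Finset.sum_sub_distrib]
        refine Finset.sum_congr rfl fun j _ => ?_
        rw [← Finset.sum_sub_distrib]
        refine Finset.sum_congr rfl fun i _ => ?_
        rw [Complex.sub_im]
        simp only [Matrix.submatrix_apply, JM]
        ring
      rw [e2]
      refine (Finset.abs_sum_le_sum_abs _ _).trans ?_
      have e3 : ∀ j, |∑ i, ((rsc H b1 (W j) (W i) - rsc H b0 (W j) (W i)).im *
            ((v j).re * (v i).re + (v j).im * (v i).im))| ≤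
          ∑ i, 4 * ϑ * C * ((‖v j‖ ^ 2 + ‖v i‖ ^ 2) / 2) := by
        intro j
        refine (Finset.abs_sum_le_sum_abs _ _).trans (Finset.sum_le_sum fun i _ => ?_)
        rw [abs_mul]
        exact mul_le_mul ((Complex.abs_im_le_norm _).trans (hent j i)) (pert_re _ _)
          (abs_nonneg _) hN0
      refine (Finset.sum_le_sum fun j _ => e3 j).trans (le_of_eq ?_)
      have e4 : ∀ j, ∑ i, 4 * ϑ * C * ((‖v j‖ ^ 2 + ‖v i‖ ^ 2) / 2) =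
          2 * ϑ * C * (Fintype.card κ * ‖v j‖ ^ 2) + 2 * ϑ * C * ∑ i, ‖v i‖ ^ 2 := by
        intro j
        rw [← Finset.mul_sum, ← Finset.sum_div, Finset.sum_add_distrib, Finset.sum_const,
          Finset.card_univ, nsmul_eq_mul]
        ring
      simp only [e4]
      rw [Finset.sum_add_distrib, ← Finset.mul_sum, ← Finset.mul_sum, Finset.sum_const,
        Finset.card_univ, nsmul_eq_mul]
      ring
    have e5 := (abs_le.1 e1).2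
    have e6 := hf1' v
    have e7 : 0 ≤ ∑ j, ‖v j‖ ^ 2 := Finset.sum_nonneg fun j _ => sq_nonneg _
    have e8 := mul_le_mul_of_nonneg_right hN e7
    linarith
  · have e1 := pert_diag_le h1 hA0 hϑ hϑ2 hd1 (W j)
    have e2 := hdg j
    linarith
  · have e0 : 0 ≤ ∑ j, ‖v j‖ ^ 2 := Finset.sum_nonneg fun j _ => sq_nonneg _
    have e1 : ∀ j, ‖∑ i, (rsc H b1 (W j) (W i) - rsc H b0 (W j) (W i)) * v i‖ ^ 2 ≤
        (4 * ϑ * C) ^ 2 * (Fintype.card κ * ∑ i, ‖v i‖ ^ 2) := by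
      intro j
      have e2 : ‖∑ i, (rsc H b1 (W j) (W i) - rsc H b0 (W j) (W i)) * v i‖ ≤
          4 * ϑ * C * ∑ i, ‖v i‖ := by
        rw [Finset.mul_sum]
        refine (norm_sum_le _ _).trans (Finset.sum_le_sum fun i _ => ?_)
        rw [norm_mul]
        exact mul_le_mul_of_nonneg_right (hent j i) (norm_nonneg _)
      refine (pow_le_pow_left₀ (norm_nonneg _) e2 2).trans ?_
      rw [mul_pow]
      refine mul_le_mul_of_nonneg_left ?_ (sq_nonneg _)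
      have e3 := sq_sum_le_card_mul_sum_sq (s := (univ : Finset κ)) (f := fun i => ‖v i‖)
      rwa [Finset.card_univ] at e3
    have e4 : ∑ j, ‖∑ i, (rsc H b1 (W j) (W i) - rsc H b0 (W j) (W i)) * v i‖ ^ 2 ≤
        (4 * ϑ * C * Fintype.card κ) ^ 2 * ∑ i, ‖v i‖ ^ 2 := by
      refine (Finset.sum_le_sum fun j _ => e1 j).trans (le_of_eq ?_)
      rw [Finset.sum_const, Finset.card_univ, nsmul_eq_mul]
      ring
    have e5 : ∀ j, ‖∑ i, rsc H b0 (W j) (W i) * v i‖ ^ 2 ≤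
        2 * ‖∑ i, rsc H b1 (W j) (W i) * v i‖ ^ 2 +
        2 * ‖∑ i, (rsc H b1 (W j) (W i) - rsc H b0 (W j) (W i)) * v i‖ ^ 2 := by
      intro j
      have e6 : ∑ i, rsc H b0 (W j) (W i) * v i = ∑ i, rsc H b1 (W j) (W i) * v i -
          ∑ i, (rsc H b1 (W j) (W i) - rsc H b0 (W j) (W i)) * v i := by
        rw [← Finset.sum_sub_distrib]
        refine Finset.sum_congr rfl fun i _ => ?_
        ring
      have e7 := norm_sub_le (∑ i, rsc H b1 (W j) (W i) * v i)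
        (∑ i, (rsc H b1 (W j) (W i) - rsc H b0 (W j) (W i)) * v i)
      rw [← e6] at e7
      have e8 := pow_le_pow_left₀ (norm_nonneg _) e7 2
      nlinarith [sq_nonneg (‖∑ i, rsc H b1 (W j) (W i) * v i‖ -
        ‖∑ i, (rsc H b1 (W j) (W i) - rsc H b0 (W j) (W i)) * v i‖)]
    have e9 := Finset.sum_le_sum fun j (_ : j ∈ (univ : Finset κ)) => e5 j
    rw [Finset.sum_add_distrib, ← Finset.mul_sum, ← Finset.mul_sum] at e9
    have e10 := hop1' v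
    have e11 : (4 * ϑ * C * Fintype.card κ) ^ 2 ≤ 1 := by
      have : 4 * ϑ * C * Fintype.card κ ≤ 1 := by linarith
      exact pow_le_one₀ hNN this
    have e12 := mul_le_mul_of_nonneg_right e11 e0
    have e13 : ∑ j, ‖v j‖ ^ 2 ≤ C ^ 2 * ∑ j, ‖v j‖ ^ 2 := by
      have : 1 ≤ C ^ 2 := one_le_pow₀ hC
      nlinarith
    have e14 : (4 * C) ^ 2 * ∑ j, ‖v j‖ ^ 2 = 16 * (C ^ 2 * ∑ j, ‖v j‖ ^ 2) := by ring
    have e15 : (2 * C) ^ 2 * ∑ j, ‖v j‖ ^ 2 = 4 * (C ^ 2 * ∑ j, ‖v j‖ ^ 2) := by ring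
    rw [e14]
    rw [e15] at e10
    linarith

end Pool.Agent.ANL
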