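import Pool.Agent.ANL.Fub
import Pool.Agent.ANL.Pert
import Pool.Agent.ANL.Num

/-! # ANL PROB: THE LEAK LEMMA

Geometry: `F ⊆ D0`, surfaces `bdy H (D i)`, `i : Fin N`, `F ⊆ D i`, disjoint from each other and from `D0`.
Probability: product space `Ω = ∀ x, E x` with the product measure, `X x (w x)` = the potential that is read at `x` in this step.
`b w` = the true vector (with a GOOD, e.g. absorbing, content of `F`); for every transversal `s` (one site of every surface)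
`b0 s w` = the vector obtained without the potentials at `s` (with its own self-consistent counterterms); it does not depend on
`w x`, `x ∈ s`.  `Good` = set of configurations with the a priori bounds.

Paper proof of `leak_prob`.  Let `w ∈ Good`, `ψ` a wave with `M leak < ‖ψ a‖²`; `ψ a ≠ 0`.  For every `i` `exists_big` (with `C2 = C`) gives
`f i ∈ bdy H (D i)` with `‖ψ a‖ ≤ C h0 nb ‖ψ (f i)‖`.  `s = univ.image f`, `f` is injective (disjoint surfaces), `s.card = N`, `κ = ↥s`, `W = (·).1`.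
`onW W h x = if x ∈ s then h x else 0`.  `red_of_good` (with `form_of_rows`, `op_of_rows`) gives `Red H (b0 s w) W (c/8) (4C)`; `det_hit` with
`D = D0`, `l = ‖ψ a‖²/M`, `p = ‖ψ a‖/(C h0 nb)`: `24 (4C)²/(c/8) √l = 3072 C²/c · ‖ψ a‖/√M ≤ ε p` because `(3072 C³ h0 nb/(c ε))² ≤ M`
(`32 ϑ C N ≤ c ≤ 1 ≤ C`, `N ≥ 1` give `ϑ ≤ 1/2`, `N ϑ² ≤ 1`; `τ C ≤ 1/4`, `C ≥ 1` give `|X| ≤ 1`).
So `w` is in the set of `fub_hit` for `s`, `A w = Amt H (b0 s w) W (bdy H D0)`, `B w = Bmt ...` (measurable by `measurable_Amt`, not depending on the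
coordinates in `s`), `B0 = 1`.  Union over all `f` with `f i ∈ bdy H (D i)` (`Fintype.piFinset`, at most `nb^N` many), `measure_biUnion_finset_le`.
`lev_prob`: `¬ LevLe H (b w) F y M` gives a wave with `M leak (b w) F ψ < ‖ψ y‖²`, and `leak (b w) D0 ψ ≤ leak (b w) F ψ` (`leak_mono`).
-/

open Matrix Finset MeasureTheory

noncomputable section

namespace Pool.Agent.ANL

open Pool.Agent.Kin Pool.Agent.APS

variable {ι : Type} [Fintype ι] [DecidableEq ι]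

/-- the set of transversals of a family of surfaces -/
def IsTr (H : Matrix ι ι ℂ) {N : ℕ} (D : Fin N → Finset ι) (s : Finset ι) : Prop :=
  ∃ f : Fin N → ι, (∀ i, f i ∈ bdy H (D i)) ∧ s = univ.image f

/-- geometry of the leak lemma -/
structure LGeo (H : Matrix ι ι ℂ) (F D0 : Finset ι) {N : ℕ} (D : Fin N → Finset ι)
    (h0 : ℝ) (nb : ℕ) : Prop where
  sym : RealSym H
  hop : HopLe H h0
  h01 : 1 ≤ h0
  N1 : 1 ≤ N
  F0 : F ⊆ D0
  FD : ∀ i, F ⊆ D i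
  out : ∀ i, Disjoint (bdy H (D i)) D0
  dis : ∀ i j, i ≠ j → Disjoint (bdy H (D i)) (bdy H (D j))
  card : ∀ i, (bdy H (D i)).card ≤ nb

/-- the probabilistic data: potentials `X`, true vector `b`, reduced vectors `b0` -/
structure LDat (H : Matrix ι ι ℂ) {N : ℕ} (D : Fin N → Finset ι) {E : ι → Type}
    [∀ x, MeasurableSpace (E x)] (X : ∀ x, E x → ℝ) (b : (∀ x, E x) → ι → ℂ)
    (b0 : Finset ι → (∀ x, E x) → ι → ℂ) (Good : Set (∀ x, E x)) (τ ϑ c C : ℝ) : Prop where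
  mX : ∀ x, Measurable (X x)
  Xle : ∀ i, ∀ x ∈ bdy H (D i), ∀ e, |X x e| ≤ τ
  m0 : ∀ s x, Measurable fun w => b0 s w x
  ind : ∀ s w w', (∀ x, x ∉ s → w x = w' x) → b0 s w = b0 s w'
  adm : ∀ w ∈ Good, Adm H (b w)
  adm0 : ∀ w ∈ Good, ∀ s, IsTr H D s → Adm H (b0 s w)
  close : ∀ w ∈ Good, ∀ s, IsTr H D s → ∀ x,
    ‖b w x - b0 s w x - (if x ∈ s then ((X x (w x) : ℝ) : ℂ) else 0)‖ ≤ ϑ * (-(b0 s w x).im)
  low : ∀ w ∈ Good, ∀ i, ∀ x ∈ bdy H (D i), 2 * c ≤ (rsc H (b w) x x).im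
  row : ∀ w ∈ Good, ∀ s, IsTr H D s → ∀ x ∈ s, ∑ y ∈ s.erase x, ‖rsc H (b w) x y‖ ≤ c
  row' : ∀ w ∈ Good, ∀ s, IsTr H D s → ∀ x ∈ s, ∑ y ∈ s, ‖rsc H (b w) x y‖ ≤ C

theorem leak_prob {H : Matrix ι ι ℂ} {F D0 : Finset ι} {N : ℕ} {D : Fin N → Finset ι}
    {h0 : ℝ} {nb : ℕ} (hG : LGeo H F D0 D h0 nb) {E : ι → Type} [∀ x, MeasurableSpace (E x)]
    (ν : ∀ x, Measure (E x)) [∀ x, IsProbabilityMeasure (ν x)] {X : ∀ x, E x → ℝ}
    {b : (∀ x, E x) → ι → ℂ} {b0 : Finset ι → (∀ x, E x) → ι → ℂ} {Good : Set (∀ x, E x)}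
    {τ ϑ c C : ℝ} (hL : LDat H D X b b0 Good τ ϑ c C) (hc : 0 < c) (hc1 : c ≤ 1) (hC : 1 ≤ C)
    (hτ : τ * C ≤ 1 / 4) (hϑ : 0 ≤ ϑ) (hϑN : 32 * ϑ * C * N ≤ c)
    {a : ι} (ha : ∀ i, a ∉ D i)
    (hGa : ∀ w ∈ Good, ∀ i, ∀ y ∈ bdy H (D i), ‖rsc H (b w) a y‖ ≤ C)
    {ε q M : ℝ} (hε : 0 < ε) (hε1 : ε ≤ 1) (hq : 0 ≤ q)
    (hν : ∀ i, ∀ x ∈ bdy H (D i), ∀ t, ν x {e | |X x e - t| ≤ 3 * ε} ≤ ENNReal.ofReal q)
    (hM : (3072 * C ^ 3 * h0 * nb / (c * ε)) ^ 2 ≤ M) (hM0 : 0 < M) :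
    Measure.pi ν {w | w ∈ Good ∧ ∃ ψ : ι → ℂ, IsWave H (b w) F ψ ∧
        M * leak (b w) D0 ψ < ‖ψ a‖ ^ 2} ≤
      ENNReal.ofReal ((nb : ℝ) ^ N * (2 ^ N *
        (8 * ((N : ℕ) + 1) * (1 / ε + 4)) ^ (2 * (bdy H D0).card) * q ^ N)) := by
  classical
  have hC0 : 0 < C := by linarith
  have hh0 : 0 < h0 := lt_of_lt_of_le one_pos hG.h01
  have hN1 : (1 : ℝ) ≤ N := by exact_mod_cast hG.N1
  have hCN : (1 : ℝ) ≤ C * N := by nlinarith
  have hϑ32 : 32 * ϑ ≤ 1 := by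
    have h1 : 32 * ϑ * 1 ≤ 32 * ϑ * (C * N) := mul_le_mul_of_nonneg_left hCN (by positivity)
    have h2 : 32 * ϑ * (C * N) = 32 * ϑ * C * N := by ring
    linarith
  have hϑ2 : ϑ ≤ 1 / 2 := by linarith
  have hNϑ : (N : ℝ) * ϑ ^ 2 ≤ 1 := by
    have h1 : 32 * ϑ * N * 1 ≤ 32 * ϑ * N * C := mul_le_mul_of_nonneg_left hC (by positivity)
    have h2 : 32 * ϑ * N * C = 32 * ϑ * C * N := by ring
    have h3 : ϑ * N ≤ 1 := by linarith
    have h4 : (N : ℝ) * ϑ ^ 2 = (ϑ * N) * ϑ := by ring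
    rw [h4]
    nlinarith [mul_nonneg hϑ (zero_le_one.trans hN1)]
  set T : Finset (Fin N → ι) := Fintype.piFinset fun i => bdy H (D i) with hT
  set S : Finset ι → Set (∀ x, E x) := fun s =>
    {w | (∀ j : ↥s, |X j (w j)| ≤ 1) ∧
      Hit (Amt H (b0 s w) (fun j : ↥s => j.1) (bdy H D0))
        (Bmt H (b0 s w) (fun j : ↥s => j.1) (bdy H D0)) ε (fun j => X j (w j))} with hS
  set R : ℝ := 2 ^ N * (8 * ((N : ℕ) + 1) * (1 / ε + 4)) ^ (2 * (bdy H D0).card) * q ^ N with hR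
  have hR0 : 0 ≤ R := by positivity
  have hinj : ∀ f ∈ T, Function.Injective f := by
    intro f hf i j hij
    by_contra hne
    have h1 := Fintype.mem_piFinset.1 hf i
    have h2 := Fintype.mem_piFinset.1 hf j
    rw [← hij] at h2
    exact Finset.disjoint_left.1 (hG.dis i j hne) h1 h2
  have hcd : ∀ f ∈ T, (univ.image f).card = N := by
    intro f hf
    rw [Finset.card_image_of_injective _ (hinj f hf), Finset.card_univ, Fintype.card_fin]
  have hmem : ∀ f ∈ T, ∀ x ∈ univ.image f, ∃ i, x ∈ bdy H (D i) ∧ f i = x := by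
    intro f hf x hx
    obtain ⟨i, -, rfl⟩ := Finset.mem_image.1 hx
    exact ⟨i, Fintype.mem_piFinset.1 hf i, rfl⟩
  -- measure of one set
  have hone : ∀ f ∈ T, Measure.pi ν (S (univ.image f)) ≤ ENNReal.ofReal R := by
    intro f hf
    have h1 := fub_hit ν X hL.mX (univ.image f)
      (fun w => Amt H (b0 (univ.image f) w) (fun j : ↥(univ.image f) => j.1) (bdy H D0))
      (fun w => Bmt H (b0 (univ.image f) w) (fun j : ↥(univ.image f) => j.1) (bdy H D0))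
      (fun j y => measurable_Amt H (fun w => b0 (univ.image f) w)
        (fun x => hL.m0 (univ.image f) x) _ _ j y)
      (fun j y => measurable_Bmt H (fun w => b0 (univ.image f) w)
        (fun x => hL.m0 (univ.image f) x) _ _ j y)
      (fun w w' hw => by rw [hL.ind (univ.image f) w w' hw])
      (fun w w' hw => by rw [hL.ind (univ.image f) w w' hw])
      hε zero_le_one hq
      (fun x hx t => by
        obtain ⟨i, hi, -⟩ := hmem f hf x hx
        exact hν i x hi t)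
    rw [hcd f hf, Fintype.card_coe] at h1
    exact h1
  -- covering
  have hcov : {w | w ∈ Good ∧ ∃ ψ : ι → ℂ, IsWave H (b w) F ψ ∧
      M * leak (b w) D0 ψ < ‖ψ a‖ ^ 2} ⊆ ⋃ f ∈ T, S (univ.image f) := by
    rintro w ⟨hw, ψ, hψ, hlt⟩
    have hA := hL.adm w hw
    have hlk : 0 ≤ leak (b w) D0 ψ := leak_nonneg hA.im
    have hpa : 0 < ‖ψ a‖ ^ 2 := lt_of_le_of_lt (mul_nonneg hM0.le hlk) hlt
    have hψa : ψ a ≠ 0 := by
      intro h0'
      rw [h0', norm_zero] at hpa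
      norm_num at hpa
    have hna : 0 < ‖ψ a‖ := norm_pos_iff.2 hψa
    choose f hf hf' using fun i => exists_big hA (hG.FD i) hψ (ha i) hG.hop hC0.le
      (hGa w hw i) hψa
    have hfT : f ∈ T := Fintype.mem_piFinset.2 hf
    refine Set.mem_iUnion₂.2 ⟨f, hfT, ?_⟩
    set s := univ.image f with hs
    have hTr : IsTr H D s := ⟨f, hf, rfl⟩
    have hcards : Fintype.card ↥s = N := by rw [Fintype.card_coe]; exact hcd f hfT
    have hnb1 : (1 : ℝ) ≤ nb := by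
      have i0 : Fin N := ⟨0, hG.N1⟩
      have h1 : 1 ≤ (bdy H (D i0)).card := Finset.card_pos.2 ⟨f i0, hf i0⟩
      exact_mod_cast h1.trans (hG.card i0)
    have hτ1 : τ ≤ 1 := by
      by_contra h1
      push Not at h1
      nlinarith
    have hX : ∀ j : ↥s, |X j (w j)| ≤ τ := by
      intro j
      obtain ⟨i, hi, -⟩ := hmem f hfT j.1 j.2
      exact hL.Xle i j.1 hi _
    have hX1 : ∀ j : ↥s, |X j (w j)| ≤ 1 := fun j => (hX j).trans hτ1
    have honW : ∀ x, onW (fun j : ↥s => j.1) (fun j => ((X j (w j) : ℝ) : ℂ)) x =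
        if x ∈ s then ((X x (w x) : ℝ) : ℂ) else 0 := by
      intro x
      unfold onW
      by_cases hx : x ∈ s
      · rw [if_pos hx, Finset.sum_eq_single (⟨x, hx⟩ : ↥s)]
        · rw [if_pos rfl]
        · intro j _ hj
          rw [if_neg]
          exact fun h1 => hj (Subtype.ext h1)
        · intro h1
          exact absurd (Finset.mem_univ _) h1
      · rw [if_neg hx]
        refine Finset.sum_eq_zero fun j _ => ?_
        rw [if_neg]
        rintro rfl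
        exact hx j.2
    have hd : ∀ x, ‖b w x - b0 s w x - onW (fun j : ↥s => j.1)
        (fun j => ((X j (w j) : ℝ) : ℂ)) x‖ ≤ ϑ * (-(b0 s w x).im) := by
      intro x
      rw [honW x]
      exact hL.close w hw s hTr x
    have hWinj : Function.Injective (fun j : ↥s => j.1) := Subtype.val_injective
    have hrow' : ∀ j : ↥s, ∑ i : ↥s, ‖rsc H (b w) j.1 i.1‖ ≤ C := by
      intro j
      rw [Finset.sum_coe_sort s (fun y => ‖rsc H (b w) j.1 y‖)]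
      exact hL.row' w hw s hTr j.1 j.2
    have hrow : ∀ j : ↥s, ∑ i ∈ univ.erase j, ‖rsc H (b w) j.1 i.1‖ ≤ c := by
      intro j
      have h1 : ∑ i ∈ univ.erase j, ‖rsc H (b w) j.1 i.1‖ =
          ∑ y ∈ s.erase j.1, ‖rsc H (b w) j.1 y‖ := by
        rw [Finset.sum_erase_eq_sub (Finset.mem_univ j), Finset.sum_erase_eq_sub j.2,
          Finset.sum_coe_sort s (fun y => ‖rsc H (b w) j.1 y‖)]
      rw [h1]
      exact hL.row w hw s hTr j.1 j.2
    have hlow : ∀ j : ↥s, 2 * c ≤ (rsc H (b w) j.1 j.1).im := by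
      intro j
      obtain ⟨i, hi, -⟩ := hmem f hfT j.1 j.2
      exact hL.low w hw i j.1 hi
    have hop := op_of_rows (W := fun j : ↥s => j.1) hA hrow'
    have hform := form_of_rows (W := fun j : ↥s => j.1) hA hlow hrow
    have hRed := red_of_good (W := fun j : ↥s => j.1) hA (hL.adm0 w hw s hTr) hWinj hop hform
      hc hc1 hC hX hτ hϑ hϑ2 (by rw [hcards]; exact hϑN) hd
    refine ⟨hX1, ?_⟩
    have hW0 : ∀ j : ↥s, j.1 ∉ D0 := by
      intro j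
      obtain ⟨i, hi, -⟩ := hmem f hfT j.1 j.2
      exact Finset.disjoint_left.1 (hG.out i) hi
    have hden : 0 < C * h0 * nb := by positivity
    refine det_hit (l := ‖ψ a‖ ^ 2 / M) (p := ‖ψ a‖ / (C * h0 * nb)) hRed (by positivity)
      (by linarith) (by linarith) hG.F0 hW0 hψ hA.im hϑ hϑ2 (by rw [hcards]; exact hNϑ) hX1
      (fun x _ => hd x) ?_ (div_pos hna hden) ?_ hε hε1 ?_
    · rw [le_div_iff₀ hM0]
      linarith
    · intro j
      obtain ⟨i, hi, hij⟩ := hmem f hfT j.1 j.2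
      rw [div_le_iff₀ hden, ← hij]
      refine (hf' i).trans ?_
      have h1 : ((bdy H (D i)).card : ℝ) ≤ nb := by exact_mod_cast hG.card i
      have h2 : C * h0 * (bdy H (D i)).card * ‖ψ (f i)‖ ≤ C * h0 * nb * ‖ψ (f i)‖ := by
        gcongr
      linarith
    · have h1 : √(‖ψ a‖ ^ 2 / M) = ‖ψ a‖ / √M := by
        rw [Real.sqrt_div (sq_nonneg _), Real.sqrt_sq (norm_nonneg _)]
      have hsM : 0 < √M := Real.sqrt_pos.2 hM0
      have h2 : 3072 * C ^ 3 * h0 * nb / (c * ε) ≤ √M := Real.le_sqrt_of_sq_le hM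
      rw [div_le_iff₀ (by positivity)] at h2
      rw [h1]
      have h3 : 24 * (4 * C) ^ 2 / (c / 8) * (‖ψ a‖ / √M) =
          3072 * C ^ 2 * ‖ψ a‖ / (c * √M) := by
        field_simp
        ring
      have h4 : ε * (‖ψ a‖ / (C * h0 * nb)) = ε * ‖ψ a‖ / (C * h0 * nb) := by
        rw [mul_div_assoc]
      rw [h3, h4, div_le_div_iff₀ (by positivity) hden]
      have h5 : 3072 * C ^ 2 * ‖ψ a‖ * (C * h0 * nb) =
          (3072 * C ^ 3 * h0 * nb) * ‖ψ a‖ := by ring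
      have h6 : ε * ‖ψ a‖ * (c * √M) = (√M * (c * ε)) * ‖ψ a‖ := by ring
      rw [h5, h6]
      exact mul_le_mul_of_nonneg_right h2 hna.le
  refine (measure_mono hcov).trans ((measure_biUnion_finset_le T _).trans ?_)
  refine (Finset.sum_le_card_nsmul T _ _ hone).trans ?_
  have hTc : (T.card : ℝ) ≤ (nb : ℝ) ^ N := by
    have h1 : T.card ≤ nb ^ N := by
      rw [hT, Fintype.card_piFinset]
      refine (Finset.prod_le_prod' fun i _ => hG.card i).trans ?_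
      rw [Finset.prod_const, Finset.card_univ, Fintype.card_fin]
    exact_mod_cast h1
  rw [← ENNReal.ofReal_nsmul, nsmul_eq_mul]
  exact ENNReal.ofReal_le_ofReal (mul_le_mul_of_nonneg_right hTc hR0)

/-- leverage bounds on the surface `bdy H Dt` (a target surface outside all `D i`) -/
theorem lev_prob {H : Matrix ι ι ℂ} {F D0 : Finset ι} {N : ℕ} {D : Fin N → Finset ι}
    {h0 : ℝ} {nb : ℕ} (hG : LGeo H F D0 D h0 nb) {E : ι → Type} [∀ x, MeasurableSpace (E x)]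
    (ν : ∀ x, Measure (E x)) [∀ x, IsProbabilityMeasure (ν x)] {X : ∀ x, E x → ℝ}
    {b : (∀ x, E x) → ι → ℂ} {b0 : Finset ι → (∀ x, E x) → ι → ℂ} {Good : Set (∀ x, E x)}
    {τ ϑ c C : ℝ} (hL : LDat H D X b b0 Good τ ϑ c C) (hc : 0 < c) (hc1 : c ≤ 1) (hC : 1 ≤ C)
    (hτ : τ * C ≤ 1 / 4) (hϑ : 0 ≤ ϑ) (hϑN : 32 * ϑ * C * N ≤ c)
    {Dt : Finset ι} (ha : ∀ i, ∀ y ∈ bdy H Dt, y ∉ D i) (hnt : (bdy H Dt).card ≤ nb)
    (hGa : ∀ w ∈ Good, ∀ i, ∀ a ∈ bdy H Dt, ∀ y ∈ bdy H (D i), ‖rsc H (b w) a y‖ ≤ C)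
    {n0 : ℕ} (hn0 : 1 ≤ n0) (hcard : (bdy H D0).card ≤ n0) (hN : N = 8 * n0) (hnb : 1 ≤ nb)
    {ε Lc M : ℝ} (hε : 0 < ε) (hε1 : ε ≤ 1) (hLc : 1 ≤ Lc)
    (hν : ∀ i, ∀ x ∈ bdy H (D i), ∀ t,
      ν x {e | |X x e - t| ≤ 3 * ε} ≤ ENNReal.ofReal (6 * Lc * ε))
    (hs : (12 * nb * Lc) ^ 8 * (360 * n0) ^ 2 * ε ≤ 1)
    (hM : (3072 * C ^ 3 * h0 * nb / (c * ε)) ^ 2 ≤ M) (hM0 : 0 < M) :
    Measure.pi ν {w | w ∈ Good ∧ ∃ y ∈ bdy H Dt, ¬ LevLe H (b w) F y M} ≤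
      ENNReal.ofReal (nb * ε ^ (5 * n0)) := by
  classical
  have hnb0 : (0 : ℝ) ≤ nb := Nat.cast_nonneg _
  have hq : 0 ≤ 6 * Lc * ε := by positivity
  have hcov : {w | w ∈ Good ∧ ∃ y ∈ bdy H Dt, ¬ LevLe H (b w) F y M} ⊆
      ⋃ y ∈ bdy H Dt, {w | w ∈ Good ∧ ∃ ψ : ι → ℂ, IsWave H (b w) F ψ ∧
        M * leak (b w) D0 ψ < ‖ψ y‖ ^ 2} := by
    rintro w ⟨hw, y, hy, hlev⟩
    refine Set.mem_iUnion₂.2 ⟨y, hy, hw, ?_⟩
    unfold LevLe at hlev
    push Not at hlev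
    obtain ⟨ψ, hψ, hlt⟩ := hlev
    refine ⟨ψ, hψ, lt_of_le_of_lt ?_ hlt⟩
    exact mul_le_mul_of_nonneg_left (leak_mono (hL.adm w hw).im hG.F0) hM0.le
  refine (measure_mono hcov).trans ((measure_biUnion_finset_le _ _).trans ?_)
  have hone : ∀ y ∈ bdy H Dt, Measure.pi ν {w | w ∈ Good ∧ ∃ ψ : ι → ℂ,
      IsWave H (b w) F ψ ∧ M * leak (b w) D0 ψ < ‖ψ y‖ ^ 2} ≤
        ENNReal.ofReal (ε ^ (5 * n0)) := by
    intro y hy
    refine (leak_prob hG ν hL hc hc1 hC hτ hϑ hϑN (fun i => ha i y hy)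
      (fun w hw i => hGa w hw i y hy) hε hε1 hq hν hM hM0).trans ?_
    refine ENNReal.ofReal_le_ofReal ?_
    refine le_trans ?_ (num_bound hn0 hnb hLc hε hε1 hs)
    subst hN
    have h1 : (1 : ℝ) ≤ 8 * ((8 * n0 : ℕ) + 1) * (1 / ε + 4) := by
      have h2 : (0 : ℝ) ≤ (8 * n0 : ℕ) := Nat.cast_nonneg _
      have h3 : 0 ≤ 1 / ε := by positivity
      nlinarith
    have h2 : (8 * ((8 * n0 : ℕ) + 1) * (1 / ε + 4)) ^ (2 * (bdy H D0).card) ≤
        (8 * ((8 * n0 : ℕ) + 1) * (1 / ε + 4)) ^ (2 * n0) :=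
      pow_le_pow_right₀ h1 (by omega)
    gcongr
  refine (Finset.sum_le_card_nsmul _ _ _ hone).trans ?_
  rw [← ENNReal.ofReal_nsmul, nsmul_eq_mul]
  refine ENNReal.ofReal_le_ofReal (mul_le_mul_of_nonneg_right ?_ (by positivity))
  exact_mod_cast hnt

end Pool.Agent.ANL
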