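import Pool.Agent.ANL.Defs

/-! # ANL BASE: resolvents with `Im b ≤ 0`

Paper proofs.  `M = H + diag b`, `G = rsc H b = M⁻¹`, `M G = G M = 1` (`Matrix.mul_nonsing_inv`).
* `form_im`: `⟨u, H u⟩` is real because `H` is real symmetric (copy the proof of the private lemma `sw_form` in
  `Pool/Agent/APS/SCWard.lean`).
* `adm_symm`: `rsc_symm` of the library.
* `bil_symm`: `M` is symmetric: expand both sides, exchange the sums.
* `power`: let `v = G q`, so `M v = q` and by `form_im` `-∑ Im b_x |v_x|² = -Im ∑ conj(v_x) q_x`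
  `= -∑_{x,y} Im (conj G_xy conj q_y q_x)`.  Now `Im (conj G · conj(q_y) q_x) = Re G Im(conj(q_y) q_x) - Im G Re(conj(q_y) q_x)`;
  the first term is antisymmetric in `(x,y)` (`G` symmetric) and cancels, and
  `Re (conj(q_y) q_x) = re q_x re q_y + im q_x im q_y`.
* `JM_psd`: from `power` and `Im b ≤ 0`.   `ward`: `power` with `q = Pi.single x 1` (use `adm_symm`).
* `ward_le`: every term of `ward` is nonnegative; with weights `e ≤ -Im b` on a set.
* `adm_sub`: `G - G' = G (M' - M) G' = G diag(b' - b) G'`.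
* `res_src`: `G (M ψ) = ψ`.
* `adm_of_unit`: if `G` is replaced: `M' = M (1 - G diag(b - b'))`.
-/

open Matrix Finset

noncomputable section

namespace Pool.Agent.ANL

open Pool.Agent.Kin Pool.Agent.APS

variable {ι : Type} [Fintype ι] [DecidableEq ι] {H : Matrix ι ι ℂ} {b b' : ι → ℂ}

private lemma anb_mv (H : Matrix ι ι ℂ) (b u : ι → ℂ) (x : ι) :
    ((H + diagonal b) *ᵥ u) x = (∑ y, H x y * u y) + b x * u x := by
  rw [Matrix.add_mulVec, Pi.add_apply, Matrix.mulVec_diagonal]
  rfl

theorem form_im (hH : RealSym H) (b u : ι → ℂ) :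
    (∑ x, (starRingEnd ℂ) (u x) * ((H + diagonal b) *ᵥ u) x).im = ∑ x, ‖u x‖ ^ 2 * (b x).im := by
  have h2 : ∑ x, (starRingEnd ℂ) (u x) * ((H + diagonal b) *ᵥ u) x =
      (∑ x, ∑ y, (starRingEnd ℂ) (u x) * H x y * u y) +
        ∑ x, b x * ((starRingEnd ℂ) (u x) * u x) := by
    rw [← Finset.sum_add_distrib]
    refine Finset.sum_congr rfl fun x _ => ?_
    rw [anb_mv, mul_add, Finset.mul_sum]
    congr 1
    · refine Finset.sum_congr rfl fun y _ => ?_
      ring
    · ring
  have h3 : (∑ x, ∑ y, (starRingEnd ℂ) (u x) * H x y * u y).im = 0 := by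
    rw [← Complex.conj_eq_iff_im, map_sum]
    have e1 : ∀ x, (starRingEnd ℂ) (∑ y, (starRingEnd ℂ) (u x) * H x y * u y) =
        ∑ y, (starRingEnd ℂ) (u y) * H y x * u x := by
      intro x
      rw [map_sum]
      refine Finset.sum_congr rfl fun y _ => ?_
      have e2 : (starRingEnd ℂ) (H x y) = H x y := Complex.conj_eq_iff_im.2 (hH.real x y)
      rw [map_mul, map_mul, e2, hH.symm y x, Complex.conj_conj]
      ring
    rw [Finset.sum_congr rfl fun x _ => e1 x, Finset.sum_comm]
  rw [h2, Complex.add_im, h3, zero_add, Complex.im_sum]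
  refine Finset.sum_congr rfl fun x _ => ?_
  have e3 : (starRingEnd ℂ) (u x) * u x = ((‖u x‖ ^ 2 : ℝ) : ℂ) := by
    rw [Complex.conj_mul']
    push_cast
    rfl
  rw [e3, Complex.im_mul_ofReal]
  ring

theorem adm_mul (h : Adm H b) : (H + diagonal b) * rsc H b = 1 :=
  Matrix.mul_nonsing_inv _ h.unit

theorem adm_mul' (h : Adm H b) : rsc H b * (H + diagonal b) = 1 :=
  Matrix.nonsing_inv_mul _ h.unit

theorem adm_symm (h : Adm H b) (x y : ι) : rsc H b x y = rsc H b y x :=
  rsc_symm h.sym b x y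

theorem bil_symm (hH : RealSym H) (b u v : ι → ℂ) :
    ∑ x, ((H + diagonal b) *ᵥ u) x * v x = ∑ x, u x * ((H + diagonal b) *ᵥ v) x := by
  have h1 : ∑ x, ((H + diagonal b) *ᵥ u) x * v x =
      (∑ x, ∑ y, H x y * u y * v x) + ∑ x, b x * u x * v x := by
    rw [← Finset.sum_add_distrib]
    refine Finset.sum_congr rfl fun x _ => ?_
    rw [anb_mv, add_mul, Finset.sum_mul]
  have h2 : ∑ x, u x * ((H + diagonal b) *ᵥ v) x =
      (∑ x, ∑ y, H x y * u x * v y) + ∑ x, b x * u x * v x := by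
    rw [← Finset.sum_add_distrib]
    refine Finset.sum_congr rfl fun x _ => ?_
    rw [anb_mv, mul_add, Finset.mul_sum]
    congr 1
    · refine Finset.sum_congr rfl fun y _ => ?_
      ring
    · ring
  rw [h1, h2, Finset.sum_comm]
  congr 1
  refine Finset.sum_congr rfl fun x _ => Finset.sum_congr rfl fun y _ => ?_
  rw [hH.symm y x]

theorem res_src (h : Adm H b) (ψ : ι → ℂ) : rsc H b *ᵥ ((H + diagonal b) *ᵥ ψ) = ψ := by
  rw [Matrix.mulVec_mulVec, adm_mul' h, Matrix.one_mulVec]

theorem src_res (h : Adm H b) (q : ι → ℂ) : (H + diagonal b) *ᵥ (rsc H b *ᵥ q) = q := by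
  rw [Matrix.mulVec_mulVec, adm_mul h, Matrix.one_mulVec]

theorem power (h : Adm H b) (q : ι → ℂ) :
    ∑ x, (-(b x).im) * ‖(rsc H b *ᵥ q) x‖ ^ 2 = qf (JM H b) q := by
  have h1 := form_im h.sym b (rsc H b *ᵥ q)
  rw [src_res h q] at h1
  have h2 : ∑ x, (-(b x).im) * ‖(rsc H b *ᵥ q) x‖ ^ 2 =
      -(∑ x, (starRingEnd ℂ) ((rsc H b *ᵥ q) x) * q x).im := by
    rw [h1, ← Finset.sum_neg_distrib]
    refine Finset.sum_congr rfl fun x _ => ?_
    ring
  have h3 : (∑ x, (starRingEnd ℂ) ((rsc H b *ᵥ q) x) * q x).im =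
      (∑ x, ∑ y, (rsc H b x y).re * ((q y).re * (q x).im - (q y).im * (q x).re)) -
        qf (JM H b) q := by
    unfold qf JM
    rw [Complex.im_sum, ← Finset.sum_sub_distrib]
    refine Finset.sum_congr rfl fun x _ => ?_
    have e1 : (rsc H b *ᵥ q) x = ∑ y, rsc H b x y * q y := rfl
    rw [e1, map_sum, Finset.sum_mul, Complex.im_sum, ← Finset.sum_sub_distrib]
    refine Finset.sum_congr rfl fun y _ => ?_
    simp only [map_mul, Complex.mul_im, Complex.mul_re, Complex.conj_re, Complex.conj_im]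
    ring
  have h4 : ∑ x, ∑ y, (rsc H b x y).re * ((q y).re * (q x).im - (q y).im * (q x).re) = 0 := by
    have h5 : ∑ x, ∑ y, (rsc H b x y).re * ((q y).re * (q x).im - (q y).im * (q x).re) =
        -∑ x, ∑ y, (rsc H b x y).re * ((q y).re * (q x).im - (q y).im * (q x).re) := by
      conv_lhs => rw [Finset.sum_comm]
      rw [← Finset.sum_neg_distrib]
      refine Finset.sum_congr rfl fun x _ => ?_
      rw [← Finset.sum_neg_distrib]
      refine Finset.sum_congr rfl fun y _ => ?_
      rw [adm_symm h y x]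
      ring
    linarith
  rw [h2, h3, h4]
  ring

theorem JM_symm (h : Adm H b) (x y : ι) : JM H b x y = JM H b y x := by
  unfold JM
  rw [adm_symm h x y]

theorem JM_psd (h : Adm H b) (q : ι → ℂ) : 0 ≤ qf (JM H b) q := by
  rw [← power h q]
  exact Finset.sum_nonneg fun x _ => mul_nonneg (by linarith [h.im x]) (by positivity)

theorem ward (h : Adm H b) (x : ι) :
    (rsc H b x x).im = ∑ y, (-(b y).im) * ‖rsc H b x y‖ ^ 2 := by
  have h1 := power h (Pi.single x 1)
  have h2 : qf (JM H b) (Pi.single x (1 : ℂ)) = (rsc H b x x).im := by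
    unfold qf JM
    rw [Finset.sum_eq_single x]
    · rw [Finset.sum_eq_single x]
      · simp
      · intro y _ hy
        rw [Pi.single_eq_of_ne hy]
        simp
      · intro hx
        exact absurd (Finset.mem_univ x) hx
    · intro y _ hy
      rw [Pi.single_eq_of_ne hy]
      simp
    · intro hx
      exact absurd (Finset.mem_univ x) hx
  rw [h2] at h1
  rw [← h1]
  refine Finset.sum_congr rfl fun y _ => ?_
  have h3 : (rsc H b *ᵥ (Pi.single x (1 : ℂ))) y = rsc H b y x := by
    rw [Matrix.mulVec_single_one]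
    rfl
  rw [h3, adm_symm h y x]

theorem ward_nonneg (h : Adm H b) (x : ι) : 0 ≤ (rsc H b x x).im := by
  rw [ward h x]
  exact Finset.sum_nonneg fun y _ => mul_nonneg (by linarith [h.im y]) (by positivity)

/-- partial sums of the Ward identity -/
theorem ward_le (h : Adm H b) (S : Finset ι) (x : ι) :
    ∑ y ∈ S, (-(b y).im) * ‖rsc H b x y‖ ^ 2 ≤ (rsc H b x x).im := by
  rw [ward h x]
  exact Finset.sum_le_univ_sum_of_nonneg fun y =>
    mul_nonneg (by linarith [h.im y]) (by positivity)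

theorem adm_sub (h : Adm H b) (h' : Adm H b') (x y : ι) :
    rsc H b x y - rsc H b' x y = ∑ z, rsc H b x z * (b' z - b z) * rsc H b' z y := by
  have h1 : diagonal (fun x => b' x - b x) = (H + diagonal b') - (H + diagonal b) := by
    rw [add_sub_add_left_eq_sub, Matrix.diagonal_sub]
  have h2 : rsc H b - rsc H b' = rsc H b * diagonal (fun x => b' x - b x) * rsc H b' := by
    rw [h1, mul_sub, sub_mul, adm_mul' h, one_mul, mul_assoc, adm_mul h', mul_one]
  rw [← Matrix.sub_apply, h2, Matrix.mul_apply]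
  refine Finset.sum_congr rfl fun z _ => ?_
  rw [Matrix.mul_diagonal]

/-- the column `G e_y` -/
theorem col_eq (h : Adm H b) (y : ι) :
    (H + diagonal b) *ᵥ (fun x => rsc H b x y) = Pi.single y 1 := by
  funext x
  have e1 : ((H + diagonal b) *ᵥ (fun z => rsc H b z y)) x =
      ((H + diagonal b) * rsc H b) x y := by
    rw [Matrix.mul_apply]
    rfl
  rw [e1, adm_mul h, Matrix.one_apply, Pi.single_apply]

end Pool.Agent.ANL
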