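import Pool.Agent.ANL.Defs

/-! # ANL CUT: cutting off a wave

Paper proofs.  `M = H + diag b`, `ψ` a wave for `F`, `F ⊆ D`, `c = cut D ψ`.
* `cut_src`: `x ∈ D`: `(M c)_x = ∑_{y ∉ D} H_xy ψ_y + b_x · 0`.  `x ∉ D`: `(M c)_x = (M ψ)_x - ∑_{y ∈ D} H_xy ψ_y` and
  `(M ψ)_x = 0` because `x ∉ F`.
* `src_zero`: if `x` is not in `bdy H D` then `H x y = 0` for all `y` on the other side.
* `src_le`: only terms with `H x y ≠ 0` and `y` on the other side contribute; then `y ∈ bdy H D` (`H y x = H x y ≠ 0`) and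
  `y ≠ x`.  So `‖src_x‖ ≤ ∑_{y ≠ x} ‖H x y‖ m ≤ h0 m`.
* `rep`: `c = G (M c) = G src` (`G M = 1`), evaluated at `a ∉ D`; `src` vanishes off `bdy`.
* `exists_big`: with `m = max_{w ∈ bdy} ‖ψ w‖` (attained at some `w`; if `bdy` is empty then `ψ a = 0` by `rep`)
  `‖ψ a‖ ≤ ∑_{y ∈ bdy} ‖G a y‖ ‖src_y‖ ≤ card · C2 · h0 m`.
* `wave_congr`: `IsWave` only uses `b` outside `F`.
* `leak_mono`, `leak_cut`: sums over subsets.
-/

open Matrix Finset

noncomputable section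

namespace Pool.Agent.ANL

open Pool.Agent.Kin Pool.Agent.APS

variable {ι : Type} [Fintype ι] [DecidableEq ι] {H : Matrix ι ι ℂ} {b : ι → ℂ}
  {F D : Finset ι} {ψ : ι → ℂ}

private lemma anc_mv (H : Matrix ι ι ℂ) (b u : ι → ℂ) (x : ι) :
    ((H + diagonal b) *ᵥ u) x = (∑ y, H x y * u y) + b x * u x := by
  rw [Matrix.add_mulVec, Pi.add_apply, Matrix.mulVec_diagonal]
  rfl

theorem cut_src (hF : F ⊆ D) (hw : IsWave H b F ψ) :
    (H + diagonal b) *ᵥ (cut D ψ) = src H D ψ := by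
  funext x
  have h1 : ∑ y, H x y * cut D ψ y = ∑ y ∈ Dᶜ, H x y * ψ y := by
    rw [← Finset.sum_compl_add_sum D]
    have e1 : ∑ y ∈ D, H x y * cut D ψ y = 0 := Finset.sum_eq_zero fun y hy => by
      unfold cut
      rw [if_pos hy, mul_zero]
    rw [e1, add_zero]
    refine Finset.sum_congr rfl fun y hy => ?_
    unfold cut
    rw [if_neg (Finset.mem_compl.1 hy)]
  rw [anc_mv, h1]
  unfold src
  by_cases hx : x ∈ D
  · rw [if_pos hx]
    unfold cut
    rw [if_pos hx, mul_zero, add_zero]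
  · rw [if_neg hx]
    have h2 := hw x (fun hxF => hx (hF hxF))
    rw [anc_mv, ← Finset.sum_compl_add_sum D] at h2
    unfold cut
    rw [if_neg hx]
    linear_combination h2

theorem src_zero {x : ι} (hx : x ∉ bdy H D) : src H D ψ x = 0 := by
  have h0 : ∀ y, (x ∈ D ↔ y ∉ D) → H x y = 0 := by
    intro y hy
    by_contra hne
    exact hx (Finset.mem_filter.2 ⟨Finset.mem_univ x, y, hne, hy⟩)
  unfold src
  by_cases hxD : x ∈ D
  · rw [if_pos hxD]
    refine Finset.sum_eq_zero fun y hy => ?_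
    rw [h0 y ⟨fun _ => Finset.mem_compl.1 hy, fun _ => hxD⟩, zero_mul]
  · rw [if_neg hxD, Finset.sum_eq_zero fun y hy => ?_, neg_zero]
    rw [h0 y ⟨fun h => absurd h hxD, fun h => absurd hy h⟩, zero_mul]

theorem src_le (hH : RealSym H) {h0 m : ℝ} (hh : HopLe H h0) (hm : 0 ≤ m)
    (hψ : ∀ y ∈ bdy H D, ‖ψ y‖ ≤ m) (x : ι) : ‖src H D ψ x‖ ≤ h0 * m := by
  have key : ∀ S : Finset ι, x ∉ S → (∀ y ∈ S, (y ∈ D ↔ x ∉ D)) →
      ‖∑ y ∈ S, H x y * ψ y‖ ≤ h0 * m := by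
    intro S hxS hS
    calc ‖∑ y ∈ S, H x y * ψ y‖ ≤ ∑ y ∈ S, ‖H x y * ψ y‖ := norm_sum_le _ _
      _ ≤ ∑ y ∈ S, ‖H x y‖ * m := by
          refine Finset.sum_le_sum fun y hy => ?_
          rw [norm_mul]
          by_cases hxy : H x y = 0
          · rw [hxy, norm_zero, zero_mul, zero_mul]
          · refine mul_le_mul_of_nonneg_left (hψ y ?_) (norm_nonneg _)
            refine Finset.mem_filter.2 ⟨Finset.mem_univ y, x, ?_, hS y hy⟩
            rw [← hH.symm x y]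
            exact hxy
      _ ≤ ∑ y ∈ univ.erase x, ‖H x y‖ * m := by
          refine Finset.sum_le_sum_of_subset_of_nonneg ?_ fun y _ _ =>
            mul_nonneg (norm_nonneg _) hm
          intro y hy
          refine Finset.mem_erase.2 ⟨?_, Finset.mem_univ y⟩
          rintro rfl
          exact hxS hy
      _ = (∑ y ∈ univ.erase x, ‖H x y‖) * m := by rw [Finset.sum_mul]
      _ ≤ h0 * m := mul_le_mul_of_nonneg_right (hh x) hm
  unfold src
  by_cases hx : x ∈ D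
  · rw [if_pos hx]
    refine key Dᶜ (fun h => Finset.mem_compl.1 h hx) fun y hy => ?_
    exact ⟨fun h => absurd h (Finset.mem_compl.1 hy), fun h => absurd hx h⟩
  · rw [if_neg hx, norm_neg]
    exact key D hx fun y hy => ⟨fun _ => hx, fun _ => hy⟩

theorem rep (h : Adm H b) (hF : F ⊆ D) (hw : IsWave H b F ψ) {a : ι} (ha : a ∉ D) :
    ψ a = ∑ y ∈ bdy H D, rsc H b a y * src H D ψ y := by
  have h1 : rsc H b *ᵥ src H D ψ = cut D ψ := by
    rw [← cut_src hF hw, Matrix.mulVec_mulVec]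
    have h2 : rsc H b * (H + diagonal b) = 1 := Matrix.nonsing_inv_mul _ h.unit
    rw [h2, Matrix.one_mulVec]
  have h3 : ψ a = cut D ψ a := by
    unfold cut
    rw [if_neg ha]
  rw [h3, ← h1]
  have h4 : (rsc H b *ᵥ src H D ψ) a = ∑ y, rsc H b a y * src H D ψ y := rfl
  rw [h4]
  refine (Finset.sum_subset (Finset.subset_univ _) fun y _ hy => ?_).symm
  rw [src_zero hy, mul_zero]

theorem exists_big (h : Adm H b) (hF : F ⊆ D) (hw : IsWave H b F ψ) {a : ι} (ha : a ∉ D)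
    {h0 C2 : ℝ} (hh : HopLe H h0) (hC : 0 ≤ C2) (hG : ∀ y ∈ bdy H D, ‖rsc H b a y‖ ≤ C2)
    (hψ : ψ a ≠ 0) :
    ∃ w ∈ bdy H D, ‖ψ a‖ ≤ C2 * h0 * (bdy H D).card * ‖ψ w‖ := by
  have h1 := rep h hF hw ha
  have hne : (bdy H D).Nonempty := by
    rw [Finset.nonempty_iff_ne_empty]
    intro he
    rw [he, Finset.sum_empty] at h1
    exact hψ h1
  obtain ⟨w, hw1, hw2⟩ := Finset.exists_max_image (bdy H D) (fun y => ‖ψ y‖) hne
  refine ⟨w, hw1, ?_⟩
  rw [h1]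
  calc ‖∑ y ∈ bdy H D, rsc H b a y * src H D ψ y‖
      ≤ ∑ y ∈ bdy H D, ‖rsc H b a y * src H D ψ y‖ := norm_sum_le _ _
    _ ≤ ∑ _y ∈ bdy H D, C2 * (h0 * ‖ψ w‖) := by
        refine Finset.sum_le_sum fun y hy => ?_
        rw [norm_mul]
        exact mul_le_mul (hG y hy) (src_le h.sym hh (norm_nonneg _) hw2 y) (norm_nonneg _) hC
    _ = C2 * h0 * (bdy H D).card * ‖ψ w‖ := by
        rw [Finset.sum_const, nsmul_eq_mul]
        ring

theorem wave_congr {b' : ι → ℂ} (hb : ∀ x, x ∉ F → b x = b' x) (hw : IsWave H b F ψ) :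
    IsWave H b' F ψ := by
  intro x hx
  have h1 := hw x hx
  rw [anc_mv] at h1 ⊢
  rw [← hb x hx]
  exact h1

theorem leak_congr {b' : ι → ℂ} (hb : ∀ x, x ∉ F → b x = b' x) : leak b F ψ = leak b' F ψ := by
  unfold leak
  refine Finset.sum_congr rfl fun x hx => ?_
  rw [hb x (Finset.mem_compl.1 hx)]

theorem leak_mono (hb : ∀ x, (b x).im ≤ 0) (hF : F ⊆ D) : leak b D ψ ≤ leak b F ψ := by
  unfold leak
  refine Finset.sum_le_sum_of_subset_of_nonneg (Finset.compl_subset_compl.2 hF) fun x _ _ => ?_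
  exact mul_nonneg (by linarith [hb x]) (by positivity)

theorem leak_nonneg (hb : ∀ x, (b x).im ≤ 0) : 0 ≤ leak b F ψ :=
  Finset.sum_nonneg fun x _ => mul_nonneg (by linarith [hb x]) (by positivity)

/-- `leak b D ψ` is the total absorption of the cut off wave -/
theorem leak_cut : leak b D ψ = ∑ x, (-(b x).im) * ‖cut D ψ x‖ ^ 2 := by
  rw [← Finset.sum_compl_add_sum D]
  have e1 : ∑ x ∈ D, (-(b x).im) * ‖cut D ψ x‖ ^ 2 = 0 := Finset.sum_eq_zero fun x hx => by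
    unfold cut
    rw [if_pos hx, norm_zero]
    ring
  rw [e1, add_zero]
  unfold leak
  refine Finset.sum_congr rfl fun x hx => ?_
  unfold cut
  rw [if_neg (Finset.mem_compl.1 hx)]

/-- leverage far away from a bound near the hole (and the resolvent of ANY content of `F`) -/
theorem lev_far (h : Adm H b) (hF : F ⊆ D) {h0 M : ℝ} (hh : HopLe H h0) (h00 : 0 ≤ h0)
    (hM : 0 ≤ M) (hL : ∀ y ∈ bdy H D, LevLe H b F y M) {a : ι} (ha : a ∉ D) :
    LevLe H b F a (M * h0 ^ 2 * (∑ y ∈ bdy H D, ‖rsc H b a y‖) ^ 2) := by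
  intro φ hw
  have hlk : 0 ≤ leak b F φ := leak_nonneg h.im
  set m := Real.sqrt (M * leak b F φ) with hm
  have hm0 : 0 ≤ m := Real.sqrt_nonneg _
  have hm2 : m ^ 2 = M * leak b F φ := Real.sq_sqrt (mul_nonneg hM hlk)
  have h1 : ∀ y ∈ bdy H D, ‖φ y‖ ≤ m := fun y hy => Real.le_sqrt_of_sq_le (hL y hy φ hw)
  have h2 : ‖φ a‖ ≤ (∑ y ∈ bdy H D, ‖rsc H b a y‖) * (h0 * m) := by
    rw [rep h hF hw ha, Finset.sum_mul]
    refine (norm_sum_le _ _).trans (Finset.sum_le_sum fun y _ => ?_)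
    rw [norm_mul]
    exact mul_le_mul_of_nonneg_left (src_le h.sym hh hm0 h1 y) (norm_nonneg _)
  have h3 := pow_le_pow_left₀ (norm_nonneg (φ a)) h2 2
  calc ‖φ a‖ ^ 2 ≤ ((∑ y ∈ bdy H D, ‖rsc H b a y‖) * (h0 * m)) ^ 2 := h3
    _ = (∑ y ∈ bdy H D, ‖rsc H b a y‖) ^ 2 * h0 ^ 2 * m ^ 2 := by ring
    _ = M * h0 ^ 2 * (∑ y ∈ bdy H D, ‖rsc H b a y‖) ^ 2 * leak b F φ := by
        rw [hm2]
        ring

end Pool.Agent.ANL
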