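import Pool.Agent.ANL.Base
import Pool.Agent.ANL.Cut

/-! # ANL DIRICH: the Dirichlet problem outside the hole, conjugate boundary data

`M = H + diag b`, `DirInj H b F`: no nonzero `v` with `v = 0` on `F`, `M v = 0` outside `F`.

Paper proofs.
* `dir_exists`: let `N x y = if x ∈ F ∨ y ∈ F then (if x = y then 1 else 0) else M x y`.  If `N v = 0` then `v = 0` on `F` (rows `x ∈ F`), and
  for `x ∉ F` `0 = (N v)_x = ∑_{y ∉ F} M x y v_y = (M v)_x`, so `v = 0`.  So `N` is invertible; `U := N⁻¹ (g 1_{F^c})` has `U = 0` on `F` and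
  `(M U)_x = g_x` for `x ∉ F`.
* `wave_exists`: `g' = g` on `F`, `0` outside; take `U` with source `-(M g')` outside `F`; `ψ = g' + U`.
* `leak_flux`: by `form_im` for `ψ`: `∑_x ‖ψ_x‖² Im b_x = Im ∑_{x ∈ F} conj ψ_x (M ψ)_x` (`M ψ = 0` outside `F`), and on `F`
  `(M ψ)_x = ∑_{y ∈ F} H x y ψ_y + b_x ψ_x + ∑_{y ∉ F} H x y ψ_y`; the first part gives a real number (`H` real symmetric), the second
  `∑_{F} Im b_x ‖ψ_x‖²`.  So `leak b F ψ = - Im ∑_{x ∈ F} conj ψ_x ∑_{y ∉ F} H x y ψ_y`.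
* `recip`: `bil_symm` for two waves `ψ, χ`; only `x ∈ F` contributes, the parts with `H x y, x y ∈ F` and `b_x` are symmetric and cancel.
* `leak_conj`: `ψ, χ` waves with `χ = conj ψ` on `F`.  `leak χ = - Im ∑_F ψ_x (∑_{y ∉ F} H x y χ_y) = - Im ∑_F χ_x (∑_{y∉F} H x y ψ_y)` (by `recip`)
  `= - Im ∑_F conj ψ_x (..) = leak ψ`.
* `dirInj_of_real`: if `v = 0` on `F` and `M v = 0` outside `F`, then `∑ ‖v_x‖² Im b_x = 0` by `form_im`, so `v x = 0` where `Im b x ≠ 0`; then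
  the hypothesis applies.
-/

open Matrix Finset

noncomputable section

namespace Pool.Agent.ANL

open Pool.Agent.Kin Pool.Agent.APS

variable {ι : Type} [Fintype ι] [DecidableEq ι] {H : Matrix ι ι ℂ} {b : ι → ℂ}
  {F : Finset ι} {ψ χ : ι → ℂ}

private theorem dc_mv (H : Matrix ι ι ℂ) (b v : ι → ℂ) (x : ι) :
    ((H + diagonal b) *ᵥ v) x = ∑ y, H x y * v y + b x * v x := by
  rw [add_mulVec, Pi.add_apply, mulVec_diagonal]
  rfl

theorem dir_exists (hD : DirInj H b F) (g : ι → ℂ) :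
    ∃ U : ι → ℂ, (∀ x ∈ F, U x = 0) ∧ ∀ x, x ∉ F → ((H + diagonal b) *ᵥ U) x = g x := by
  classical
  obtain ⟨N, hN⟩ : ∃ N : Matrix ι ι ℂ, ∀ x y, N x y =
      if x ∈ F ∨ y ∈ F then (if x = y then 1 else 0) else (H + diagonal b) x y :=
    ⟨fun x y => if x ∈ F ∨ y ∈ F then (if x = y then 1 else 0) else (H + diagonal b) x y,
      fun _ _ => rfl⟩
  have hN1 : ∀ v : ι → ℂ, ∀ x ∈ F, (N *ᵥ v) x = v x := by
    intro v x hx
    change ∑ y, N x y * v y = v x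
    rw [sum_eq_single x]
    · rw [hN, if_pos (Or.inl hx), if_pos rfl, one_mul]
    · intro y _ hy
      rw [hN, if_pos (Or.inl hx), if_neg (Ne.symm hy), zero_mul]
    · intro h
      exact absurd (mem_univ x) h
  have hN2 : ∀ v : ι → ℂ, (∀ x ∈ F, v x = 0) → ∀ x, x ∉ F →
      (N *ᵥ v) x = ((H + diagonal b) *ᵥ v) x := by
    intro v hv x hx
    change ∑ y, N x y * v y = ∑ y, (H + diagonal b) x y * v y
    refine sum_congr rfl fun y _ => ?_
    by_cases hy : y ∈ F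
    · rw [hv y hy, mul_zero, mul_zero]
    · rw [hN, if_neg (by tauto)]
  have hinj : Function.Injective N.mulVec := by
    intro v v' hvv
    have h1 : N *ᵥ (v - v') = 0 := by
      rw [mulVec_sub]
      exact sub_eq_zero.2 hvv
    have h2 : ∀ x ∈ F, (v - v') x = 0 := by
      intro x hx
      rw [← hN1 (v - v') x hx, h1]
      rfl
    have h3 : v - v' = 0 := by
      apply hD _ h2
      intro x hx
      rw [← hN2 (v - v') h2 x hx, h1]
      rfl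
    exact sub_eq_zero.1 h3
  have hsur : Function.Surjective N.mulVec :=
    mulVec_surjective_iff_isUnit.2 (mulVec_injective_iff_isUnit.1 hinj)
  obtain ⟨U, hU⟩ := hsur fun x => if x ∈ F then 0 else g x
  have hU1 : ∀ x ∈ F, U x = 0 := by
    intro x hx
    rw [← hN1 U x hx]
    have := congrFun hU x
    rw [if_pos hx] at this
    exact this
  refine ⟨U, hU1, fun x hx => ?_⟩
  rw [← hN2 U hU1 x hx]
  have := congrFun hU x
  rw [if_neg hx] at this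
  exact this

theorem wave_exists (hD : DirInj H b F) (g : ι → ℂ) :
    ∃ ψ : ι → ℂ, IsWave H b F ψ ∧ ∀ x ∈ F, ψ x = g x := by
  classical
  obtain ⟨g', hg'⟩ : ∃ g' : ι → ℂ, ∀ x, g' x = if x ∈ F then g x else 0 := ⟨_, fun _ => rfl⟩
  obtain ⟨U, hU0, hU⟩ := dir_exists hD fun x => -((H + diagonal b) *ᵥ g') x
  refine ⟨g' + U, fun x hx => ?_, fun x hx => ?_⟩
  · rw [mulVec_add, Pi.add_apply, hU x hx, add_neg_cancel]
  · rw [Pi.add_apply, hU0 x hx, add_zero, hg', if_pos hx]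

private theorem dc_split (H : Matrix ι ι ℂ) (b v : ι → ℂ) (F : Finset ι) (x : ι) :
    ((H + diagonal b) *ᵥ v) x =
      ∑ y ∈ F, H x y * v y + ∑ y ∈ Fᶜ, H x y * v y + b x * v x := by
  rw [dc_mv, sum_add_sum_compl]

theorem leak_flux (hH : RealSym H) (hw : IsWave H b F ψ) :
    leak b F ψ = -(∑ x ∈ F, (starRingEnd ℂ) (ψ x) * ∑ y ∈ Fᶜ, H x y * ψ y).im := by
  have h1 := form_im hH b ψ
  have h2 : ∑ x, (starRingEnd ℂ) (ψ x) * ((H + diagonal b) *ᵥ ψ) x =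
      ∑ x ∈ F, (starRingEnd ℂ) (ψ x) * ((H + diagonal b) *ᵥ ψ) x := by
    symm
    refine sum_subset (subset_univ F) fun x _ hx => ?_
    rw [hw x hx, mul_zero]
  have h3 : ∑ x ∈ F, (starRingEnd ℂ) (ψ x) * ((H + diagonal b) *ᵥ ψ) x =
      (∑ x ∈ F, ∑ y ∈ F, (starRingEnd ℂ) (ψ x) * H x y * ψ y) +
      (∑ x ∈ F, (starRingEnd ℂ) (ψ x) * ∑ y ∈ Fᶜ, H x y * ψ y) +
      ∑ x ∈ F, b x * ((‖ψ x‖ ^ 2 : ℝ) : ℂ) := by
    rw [← sum_add_distrib, ← sum_add_distrib]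
    refine sum_congr rfl fun x _ => ?_
    rw [dc_split H b ψ F x, mul_add, mul_add, mul_sum]
    have h4 : (starRingEnd ℂ) (ψ x) * (b x * ψ x) = b x * ((‖ψ x‖ ^ 2 : ℝ) : ℂ) := by
      have h5 := Complex.conj_mul' (ψ x)
      push_cast
      rw [← h5]
      ring
    rw [h4]
    congr 2
    exact sum_congr rfl fun y _ => by ring
  have h6 : (∑ x ∈ F, ∑ y ∈ F, (starRingEnd ℂ) (ψ x) * H x y * ψ y).im = 0 := by
    rw [← Complex.conj_eq_iff_im, map_sum]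
    have h7 : ∀ x y, (starRingEnd ℂ) ((starRingEnd ℂ) (ψ x) * H x y * ψ y) =
        (starRingEnd ℂ) (ψ y) * H y x * ψ x := by
      intro x y
      rw [map_mul, map_mul, Complex.conj_conj, Complex.conj_eq_iff_im.2 (hH.real x y), hH.symm x y]
      ring
    calc ∑ x ∈ F, (starRingEnd ℂ) (∑ y ∈ F, (starRingEnd ℂ) (ψ x) * H x y * ψ y)
        = ∑ x ∈ F, ∑ y ∈ F, (starRingEnd ℂ) (ψ y) * H y x * ψ x := by
          refine sum_congr rfl fun x _ => ?_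
          rw [map_sum]
          exact sum_congr rfl fun y _ => h7 x y
      _ = _ := sum_comm
  have h8 : (∑ x ∈ F, b x * ((‖ψ x‖ ^ 2 : ℝ) : ℂ)).im = ∑ x ∈ F, ‖ψ x‖ ^ 2 * (b x).im := by
    rw [Complex.im_sum]
    refine sum_congr rfl fun x _ => ?_
    rw [Complex.im_mul_ofReal]
    ring
  rw [h2, h3, Complex.add_im, Complex.add_im, h6, h8, zero_add,
    ← sum_add_sum_compl F fun x => ‖ψ x‖ ^ 2 * (b x).im] at h1
  have h9 : leak b F ψ = -∑ x ∈ Fᶜ, ‖ψ x‖ ^ 2 * (b x).im := by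
    unfold leak
    rw [← sum_neg_distrib]
    exact sum_congr rfl fun x _ => by ring
  rw [h9]
  linarith

theorem recip (hH : RealSym H) (hψ : IsWave H b F ψ) (hχ : IsWave H b F χ) :
    ∑ x ∈ F, χ x * ∑ y ∈ Fᶜ, H x y * ψ y = ∑ x ∈ F, ψ x * ∑ y ∈ Fᶜ, H x y * χ y := by
  have h1 := bil_symm hH b ψ χ
  have h2 : ∑ x, ((H + diagonal b) *ᵥ ψ) x * χ x = ∑ x ∈ F, ((H + diagonal b) *ᵥ ψ) x * χ x := by
    symm
    refine sum_subset (subset_univ F) fun x _ hx => ?_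
    rw [hψ x hx, zero_mul]
  have h3 : ∑ x, ψ x * ((H + diagonal b) *ᵥ χ) x = ∑ x ∈ F, ψ x * ((H + diagonal b) *ᵥ χ) x := by
    symm
    refine sum_subset (subset_univ F) fun x _ hx => ?_
    rw [hχ x hx, mul_zero]
  have h4 : ∑ x ∈ F, ((H + diagonal b) *ᵥ ψ) x * χ x =
      (∑ x ∈ F, ∑ y ∈ F, H x y * ψ y * χ x) + (∑ x ∈ F, χ x * ∑ y ∈ Fᶜ, H x y * ψ y) +
      ∑ x ∈ F, b x * ψ x * χ x := by
    rw [← sum_add_distrib, ← sum_add_distrib]
    refine sum_congr rfl fun x _ => ?_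
    rw [dc_split H b ψ F x, ← sum_mul]
    ring
  have h5 : ∑ x ∈ F, ψ x * ((H + diagonal b) *ᵥ χ) x =
      (∑ x ∈ F, ∑ y ∈ F, H x y * χ y * ψ x) + (∑ x ∈ F, ψ x * ∑ y ∈ Fᶜ, H x y * χ y) +
      ∑ x ∈ F, b x * ψ x * χ x := by
    rw [← sum_add_distrib, ← sum_add_distrib]
    refine sum_congr rfl fun x _ => ?_
    rw [dc_split H b χ F x, ← sum_mul]
    ring
  have h6 : ∑ x ∈ F, ∑ y ∈ F, H x y * ψ y * χ x = ∑ x ∈ F, ∑ y ∈ F, H x y * χ y * ψ x := by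
    rw [sum_comm]
    refine sum_congr rfl fun x _ => sum_congr rfl fun y _ => ?_
    rw [hH.symm y x]
    ring
  rw [h2, h3, h4, h5, h6] at h1
  linear_combination h1

theorem leak_conj (hH : RealSym H) (hψ : IsWave H b F ψ) (hχ : IsWave H b F χ)
    (hc : ∀ x ∈ F, χ x = (starRingEnd ℂ) (ψ x)) : leak b F χ = leak b F ψ := by
  rw [leak_flux hH hχ, leak_flux hH hψ]
  have h1 : ∑ x ∈ F, (starRingEnd ℂ) (χ x) * ∑ y ∈ Fᶜ, H x y * χ y =
      ∑ x ∈ F, ψ x * ∑ y ∈ Fᶜ, H x y * χ y := by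
    refine sum_congr rfl fun x hx => ?_
    rw [hc x hx, Complex.conj_conj]
  have h2 : ∑ x ∈ F, (starRingEnd ℂ) (ψ x) * ∑ y ∈ Fᶜ, H x y * ψ y =
      ∑ x ∈ F, χ x * ∑ y ∈ Fᶜ, H x y * ψ y := by
    refine sum_congr rfl fun x hx => ?_
    rw [hc x hx]
  rw [h1, h2, recip hH hψ hχ]

theorem dirInj_of_real (hH : RealSym H) (hb : ∀ x, (b x).im ≤ 0)
    (hr : ∀ v : ι → ℂ, (∀ x ∈ F, v x = 0) → (∀ x, (b x).im ≠ 0 → v x = 0) →
      (∀ x, x ∉ F → ((H + diagonal b) *ᵥ v) x = 0) → v = 0) : DirInj H b F := by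
  intro v hv hM
  refine hr v hv (fun x hx => ?_) hM
  have h1 := form_im hH b v
  have h2 : ∑ x, (starRingEnd ℂ) (v x) * ((H + diagonal b) *ᵥ v) x = 0 := by
    refine sum_eq_zero fun x _ => ?_
    by_cases hx : x ∈ F
    · rw [hv x hx, map_zero, zero_mul]
    · rw [hM x hx, mul_zero]
  rw [h2, Complex.zero_im] at h1
  have h3 : ∀ y ∈ univ, ‖v y‖ ^ 2 * (b y).im ≤ 0 := fun y _ =>
    mul_nonpos_of_nonneg_of_nonpos (sq_nonneg _) (hb y)
  have h4 := (sum_eq_zero_iff_of_nonpos h3).1 h1.symm x (mem_univ x)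
  rcases mul_eq_zero.1 h4 with h5 | h5
  · exact norm_eq_zero.1 (pow_eq_zero_iff (two_ne_zero)|>.1 h5)
  · exact absurd h5 hx

/-- strictly absorbing outside `F` -/
theorem dirInj_of_neg (hH : RealSym H) (hb : ∀ x, (b x).im ≤ 0)
    (hn : ∀ x, x ∉ F → (b x).im < 0) : DirInj H b F := by
  refine dirInj_of_real hH hb fun v hv hv' _ => ?_
  funext x
  by_cases hx : x ∈ F
  · exact hv x hx
  · exact hv' x (hn x hx).ne

end Pool.Agent.ANL
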