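import Pool.Agent.ANL.Dirich

/-! # ANL INSERT: changing the content of the hole

`b = b'` outside `F`, both admissible; `G = rsc H b`, `G' = rsc H b'`; `y ∉ F`, `n` a leverage bound at `y`.

Paper proof of `leak_wave`.  Let `U` be the Dirichlet solution with source `e_y`: `U = 0` on `F`, `(M U)_x = δ_xy` for `x ∉ F`
(`dir_exists`), and `u' = G' e_y`, `ψ' = u' - U`.  `ψ'` is a wave (outside `F`: `(M u')_x = (M' u')_x = δ_xy`).
 (i) `∑_{x ∉ F} η_x |u'_x|² ≤ ∑_x η'_x |u'_x|² = Im u'_y` (`form_im` for `b'`, `u'` with `M' u' = e_y`; `η = -Im b`, `η = η'` off `F`).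
 (ii) `∑_{x ∉ F} η_x |U_x|² = Im U_y` (`form_im` for `U`: `conj U_x (M U)_x` is `conj U_y` at `x = y` and `0` at all other `x`).
 (iii) `S := ∑_{x ∉ F} η_x conj(U_x) ψ'_x`, `X := ∑_{x ∈ F} conj((H U)_x) ψ'_x`.  `∑_x conj((M U)_x) ψ'_x - ∑_x conj(U_x) (M ψ')_x = 2 i S` (`H` real
      symmetric cancels, `conj b - b = 2 i η`, and `U = 0` on `F`); the second sum is `0` (`U = 0` on `F`, `M ψ' = 0` off `F`), the first is `ψ'_y + X`
      (on `F`, `(M U)_x = (H U)_x`).  So `2 Re S = Im (ψ'_y + X)`.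
 (iv) `∑_{x∉F} η |U + ψ'|² = Im U_y + 2 Re S + leak ψ' ≤ Im u'_y = Im U_y + Im ψ'_y`, so `leak ψ' ≤ - Im X ≤ ‖X‖`.
 (v) let `ψ''` be the wave with `ψ'' = conj ψ'` on `F` (`wave_exists`).  `bil_symm` for `U, ψ''`: `∑_x (M U)_x ψ''_x = ∑_x U_x (M ψ'')_x = 0`, i.e.
      `ψ''_y + ∑_{x∈F} (H U)_x conj(ψ'_x) = 0`, i.e. `conj X = - ψ''_y`.  So `‖X‖² = ‖ψ''_y‖² ≤ n leak ψ'' = n leak ψ'` (`leak_conj`).
 (vi) `(leak ψ')² ≤ n leak ψ'`, so `leak ψ' ≤ n` (`n ≥ 0` follows from the leverage bound or is assumed).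
`leak_insert`: `G' e_y - G e_y = ψ' - ψ_u` with `ψ_u` the same for `b`; `‖a - b‖² ≤ 2‖a‖² + 2‖b‖²` gives `≤ 4n`.
`insert_entry`: `x ↦ G'_xy - G_xy` is a wave, `LevLe` at `x`.
-/

open Matrix Finset

noncomputable section

namespace Pool.Agent.ANL

open Pool.Agent.Kin Pool.Agent.APS

variable {ι : Type} [Fintype ι] [DecidableEq ι] {H : Matrix ι ι ℂ} {b b' : ι → ℂ}
  {F : Finset ι}

private theorem ins_compl {a : ι → ℂ} (ha : ∀ x ∈ F, a x = 0) :
    ∑ x, a x = ∑ x ∈ Fᶜ, a x := by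
  rw [← Finset.sum_add_sum_compl F a, Finset.sum_eq_zero ha, zero_add]

private theorem ins_leak_nonneg (h : Adm H b) (ψ : ι → ℂ) : 0 ≤ leak b F ψ :=
  Finset.sum_nonneg fun x _ => mul_nonneg (neg_nonneg.2 (h.im x)) (sq_nonneg _)

private theorem ins_col (h' : Adm H b') (hbb : ∀ x, x ∉ F → b x = b' x) (y x : ι)
    (hx : x ∉ F) : ((H + diagonal b) *ᵥ (fun x => rsc H b' x y)) x = if x = y then 1 else 0 := by
  have h1 := congrFun (col_eq h' y) x
  rw [Matrix.add_mulVec, Pi.add_apply, Matrix.mulVec_diagonal] at h1 ⊢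
  rw [hbb x hx, h1, Pi.single_apply]

private theorem ins_wave (h' : Adm H b') (hbb : ∀ x, x ∉ F → b x = b' x) {U : ι → ℂ} {y : ι}
    (hU : ∀ x, x ∉ F → ((H + diagonal b) *ᵥ U) x = if x = y then 1 else 0) :
    IsWave H b F (fun x => rsc H b' x y - U x) := by
  intro x hx
  have h1 : (fun x => rsc H b' x y - U x) = (fun x => rsc H b' x y) - U := rfl
  rw [h1, Matrix.mulVec_sub, Pi.sub_apply, ins_col h' hbb y x hx, hU x hx, sub_self]

/-- (iii) -/
private theorem ins_green (hH : RealSym H) (b : ι → ℂ) (u v : ι → ℂ) :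
    ∑ x, (starRingEnd ℂ) (((H + diagonal b) *ᵥ u) x) * v x -
      ∑ x, (starRingEnd ℂ) (u x) * ((H + diagonal b) *ᵥ v) x =
      2 * Complex.I * ∑ x, ((-(b x).im : ℝ) : ℂ) * ((starRingEnd ℂ) (u x) * v x) := by
  have h1 := bil_symm hH b (fun x => (starRingEnd ℂ) (u x)) v
  have h2 : ∀ x, (starRingEnd ℂ) (((H + diagonal b) *ᵥ u) x) =
      ((H + diagonal b) *ᵥ (fun x => (starRingEnd ℂ) (u x))) x +
        2 * Complex.I * (((-(b x).im : ℝ) : ℂ) * (starRingEnd ℂ) (u x)) := by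
    intro x
    rw [Matrix.add_mulVec, Pi.add_apply, Matrix.mulVec_diagonal, Matrix.add_mulVec, Pi.add_apply,
      Matrix.mulVec_diagonal, map_add, map_mul]
    have h3 : (starRingEnd ℂ) ((H *ᵥ u) x) = (H *ᵥ (fun x => (starRingEnd ℂ) (u x))) x := by
      rw [Matrix.mulVec, Matrix.mulVec, dotProduct, dotProduct, map_sum]
      refine Finset.sum_congr rfl fun z _ => ?_
      rw [map_mul, Complex.conj_eq_iff_im.2 (hH.real x z)]
    have h4 : (starRingEnd ℂ) (b x) = b x + 2 * Complex.I * ((-(b x).im : ℝ) : ℂ) := by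
      apply Complex.ext
      · simp
      · simp
        ring
    rw [h3, h4]
    ring
  rw [← h1, ← Finset.sum_sub_distrib, Finset.mul_sum]
  refine Finset.sum_congr rfl fun x _ => ?_
  rw [h2]
  ring

theorem leak_wave (h : Adm H b) (h' : Adm H b') (hbb : ∀ x, x ∉ F → b x = b' x)
    (hD : DirInj H b F) {U : ι → ℂ} {y : ι} (hy : y ∉ F) (hU0 : ∀ x ∈ F, U x = 0)
    (hU : ∀ x, x ∉ F → ((H + diagonal b) *ᵥ U) x = if x = y then 1 else 0) {n : ℝ}
    (hn : 0 ≤ n) (hL : LevLe H b F y n) :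
    IsWave H b F (fun x => rsc H b' x y - U x) ∧
      leak b F (fun x => rsc H b' x y - U x) ≤ n := by
  have hw := ins_wave h' hbb hU
  refine ⟨hw, ?_⟩
  set u : ι → ℂ := fun x => rsc H b' x y with hu
  set ψ : ι → ℂ := fun x => u x - U x with hψ
  have hyc : y ∈ Fᶜ := Finset.mem_compl.2 hy
  -- (i)
  have e1 : leak b F u ≤ (u y).im := by
    have h1 := form_im h'.sym b' u
    rw [col_eq h' y] at h1
    have h2 : ∑ x, (starRingEnd ℂ) (u x) * (Pi.single y 1 : ι → ℂ) x = (starRingEnd ℂ) (u y) := by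
      rw [Finset.sum_eq_single y]
      · rw [Pi.single_eq_same, mul_one]
      · intro x _ hx
        rw [Pi.single_eq_of_ne hx, mul_zero]
      · intro h3
        exact absurd (Finset.mem_univ y) h3
    rw [h2, Complex.conj_im] at h1
    have h3 : (u y).im = ∑ x, (-(b' x).im) * ‖u x‖ ^ 2 := by
      have h4 : ∑ x, (-(b' x).im) * ‖u x‖ ^ 2 = -∑ x, ‖u x‖ ^ 2 * (b' x).im := by
        rw [← Finset.sum_neg_distrib]
        exact Finset.sum_congr rfl fun x _ => by ring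
      rw [h4, ← h1, neg_neg]
    rw [h3, leak]
    have h5 : ∑ x ∈ Fᶜ, (-(b x).im) * ‖u x‖ ^ 2 = ∑ x ∈ Fᶜ, (-(b' x).im) * ‖u x‖ ^ 2 :=
      Finset.sum_congr rfl fun x hx => by rw [hbb x (Finset.mem_compl.1 hx)]
    rw [h5]
    exact Finset.sum_le_univ_sum_of_nonneg fun x =>
      mul_nonneg (neg_nonneg.2 (h'.im x)) (sq_nonneg _)
  -- (ii)
  have e2 : leak b F U = (U y).im := by
    have h1 := form_im h.sym b U
    have h2 : ∑ x, (starRingEnd ℂ) (U x) * ((H + diagonal b) *ᵥ U) x =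
        (starRingEnd ℂ) (U y) := by
      rw [ins_compl (F := F) fun x hx => by rw [hU0 x hx, map_zero, zero_mul],
        Finset.sum_eq_single_of_mem y hyc]
      · rw [hU y hy, if_pos rfl, mul_one]
      · intro x hx hxy
        rw [hU x (Finset.mem_compl.1 hx), if_neg hxy, mul_zero]
    rw [h2, Complex.conj_im] at h1
    have h3 : ∑ x, ‖U x‖ ^ 2 * (b x).im = -leak b F U := by
      rw [leak, ← Finset.sum_neg_distrib, ← Finset.sum_add_sum_compl F,
        Finset.sum_eq_zero (s := F) fun x hx => by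
          rw [hU0 x hx, norm_zero, zero_pow two_ne_zero, zero_mul], zero_add]
      exact Finset.sum_congr rfl fun x _ => by ring
    rw [h3] at h1
    linarith
  -- (iii)
  set X : ℂ := ∑ x ∈ F, (starRingEnd ℂ) (((H + diagonal b) *ᵥ U) x) * ψ x with hX
  set S : ℂ := ∑ x ∈ Fᶜ, ((-(b x).im : ℝ) : ℂ) * ((starRingEnd ℂ) (U x) * ψ x) with hS
  have e3 : ψ y + X = 2 * Complex.I * S := by
    have h1 := ins_green h.sym b U ψ
    have h2 : ∑ x, (starRingEnd ℂ) (U x) * ((H + diagonal b) *ᵥ ψ) x = 0 := by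
      refine Finset.sum_eq_zero fun x _ => ?_
      by_cases hx : x ∈ F
      · rw [hU0 x hx, map_zero, zero_mul]
      · rw [hw x hx, mul_zero]
    have h3 : ∑ x, (starRingEnd ℂ) (((H + diagonal b) *ᵥ U) x) * ψ x = X + ψ y := by
      rw [← Finset.sum_add_sum_compl F, ← hX, Finset.sum_eq_single_of_mem y hyc]
      · rw [hU y hy, if_pos rfl, map_one, one_mul]
      · intro x hx hxy
        rw [hU x (Finset.mem_compl.1 hx), if_neg hxy, map_zero, zero_mul]
    have h4 : ∑ x, ((-(b x).im : ℝ) : ℂ) * ((starRingEnd ℂ) (U x) * ψ x) = S := by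
      rw [ins_compl (F := F) fun x hx => by rw [hU0 x hx, map_zero, zero_mul, mul_zero]]
    rw [h2, h3, h4, sub_zero] at h1
    rw [add_comm, h1]
  have e4 : leak b F u = leak b F U + 2 * S.re + leak b F ψ := by
    rw [leak, leak, leak, hS, Complex.re_sum, Finset.mul_sum, ← Finset.sum_add_distrib,
      ← Finset.sum_add_distrib]
    refine Finset.sum_congr rfl fun x _ => ?_
    have h1 : u x = U x + ψ x := by
      rw [hψ]
      ring
    rw [h1, ← Complex.normSq_eq_norm_sq, ← Complex.normSq_eq_norm_sq, ← Complex.normSq_eq_norm_sq,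
      Complex.normSq_add]
    have h2 : (((-(b x).im : ℝ) : ℂ) * ((starRingEnd ℂ) (U x) * ψ x)).re =
        (-(b x).im) * (U x * (starRingEnd ℂ) (ψ x)).re := by
      rw [Complex.re_ofReal_mul]
      congr 1
      simp [Complex.mul_re]
    rw [h2]
    ring
  have e5 : leak b F ψ ≤ ‖X‖ := by
    have h1 : (ψ y).im + X.im = 2 * S.re := by
      have h2 := congrArg Complex.im e3
      rw [Complex.add_im] at h2
      rw [h2]
      simp [Complex.mul_im]
    have h2 : (u y).im = (U y).im + (ψ y).im := by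
      rw [hψ]
      simp
    have h3 : -X.im ≤ ‖X‖ := (neg_le_abs _).trans (Complex.abs_im_le_norm X)
    linarith
  -- (v)
  obtain ⟨χ, hχ, hχF⟩ := wave_exists hD (fun x => (starRingEnd ℂ) (ψ x))
  have e6 : (starRingEnd ℂ) X = -χ y := by
    have h1 := bil_symm h.sym b U χ
    have h2 : ∑ x, U x * ((H + diagonal b) *ᵥ χ) x = 0 := by
      refine Finset.sum_eq_zero fun x _ => ?_
      by_cases hx : x ∈ F
      · rw [hU0 x hx, zero_mul]
      · rw [hχ x hx, mul_zero]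
    have h3 : ∑ x, ((H + diagonal b) *ᵥ U) x * χ x = (starRingEnd ℂ) X + χ y := by
      rw [← Finset.sum_add_sum_compl F, Finset.sum_eq_single_of_mem y hyc]
      · rw [hU y hy, if_pos rfl, one_mul, hX, map_sum]
        congr 1
        refine Finset.sum_congr rfl fun x hx => ?_
        rw [hχF x hx, map_mul, Complex.conj_conj]
      · intro x hx hxy
        rw [hU x (Finset.mem_compl.1 hx), if_neg hxy, zero_mul]
    rw [h2, h3] at h1
    exact eq_neg_of_add_eq_zero_left h1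
  have e7 : ‖X‖ ^ 2 ≤ n * leak b F ψ := by
    have h1 : ‖X‖ = ‖χ y‖ := by
      rw [← Complex.norm_conj, e6, norm_neg]
    rw [h1, ← leak_conj h.sym hw hχ hχF]
    exact hL χ hχ
  have e8 := ins_leak_nonneg (F := F) h ψ
  rcases e8.eq_or_lt with h0 | h0
  · rw [← h0]
    exact hn
  · have h1 : leak b F ψ ^ 2 ≤ n * leak b F ψ :=
      (pow_le_pow_left₀ e8 e5 2).trans e7
    rw [sq] at h1
    exact le_of_mul_le_mul_right h1 h0

theorem wave_diff (h : Adm H b) (h' : Adm H b') (hbb : ∀ x, x ∉ F → b x = b' x)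
    {y : ι} (hy : y ∉ F) : IsWave H b F (fun x => rsc H b' x y - rsc H b x y) :=
  ins_wave h' hbb fun x hx => ins_col h (fun _ _ => rfl) y x hx

theorem leak_insert (h : Adm H b) (h' : Adm H b') (hbb : ∀ x, x ∉ F → b x = b' x)
    (hD : DirInj H b F) {y : ι} (hy : y ∉ F) {n : ℝ} (hn : 0 ≤ n) (hL : LevLe H b F y n) :
    leak b F (fun x => rsc H b' x y - rsc H b x y) ≤ 4 * n := by
  obtain ⟨U, hU0, hU⟩ := dir_exists hD (fun x => if x = y then 1 else 0)
  have h1 := (leak_wave h h' hbb hD hy hU0 hU hn hL).2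
  have h2 := (leak_wave h h (fun _ _ => rfl) hD hy hU0 hU hn hL).2
  have h3 : leak b F (fun x => rsc H b' x y - rsc H b x y) ≤
      2 * leak b F (fun x => rsc H b' x y - U x) + 2 * leak b F (fun x => rsc H b x y - U x) := by
    rw [leak, leak, leak, Finset.mul_sum, Finset.mul_sum, ← Finset.sum_add_distrib]
    refine Finset.sum_le_sum fun x _ => ?_
    have h4 : ‖rsc H b' x y - rsc H b x y‖ ^ 2 ≤
        2 * ‖rsc H b' x y - U x‖ ^ 2 + 2 * ‖rsc H b x y - U x‖ ^ 2 := by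
      have h5 : ‖rsc H b' x y - rsc H b x y‖ ≤ ‖rsc H b' x y - U x‖ + ‖rsc H b x y - U x‖ := by
        have h6 : rsc H b' x y - rsc H b x y = (rsc H b' x y - U x) - (rsc H b x y - U x) := by
          ring
        rw [h6]
        exact norm_sub_le _ _
      have h7 := pow_le_pow_left₀ (norm_nonneg _) h5 2
      nlinarith [sq_nonneg (‖rsc H b' x y - U x‖ - ‖rsc H b x y - U x‖)]
    have h8 := mul_le_mul_of_nonneg_left h4 (neg_nonneg.2 (h.im x))
    linarith
  linarith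

theorem insert_entry (h : Adm H b) (h' : Adm H b') (hbb : ∀ x, x ∉ F → b x = b' x)
    (hD : DirInj H b F) {x y : ι} (hx : x ∉ F) (hy : y ∉ F) {m n : ℝ} (hm : 0 ≤ m) (hn : 0 ≤ n)
    (hLx : LevLe H b F x m) (hLy : LevLe H b F y n) :
    ‖rsc H b' x y - rsc H b x y‖ ^ 2 ≤ 4 * m * n := by
  have h1 := hLx _ (wave_diff h h' hbb hy)
  have h2 := leak_insert h h' hbb hD hy hn hLy
  calc ‖rsc H b' x y - rsc H b x y‖ ^ 2
      ≤ m * leak b F (fun x => rsc H b' x y - rsc H b x y) := h1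
    _ ≤ m * (4 * n) := mul_le_mul_of_nonneg_left h2 hm
    _ = 4 * m * n := by ring

end Pool.Agent.ANL
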