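import Mathlib

/-! # ANL SIGNCOUNT: number of sign vectors of `m` linear forms on `ℝ^n` is at most `(2m+1)^n`

Paper proof.  For a finite family `ℓ : Fin m → V →ₗ ℝ` let `Sg ℓ` be the set of all `(sign ℓ_i v)_i`, `v ∈ V`; it is finite
(`Set.toFinite`, functions `Fin m → SignType`).  Induction on `m`, for all `V` at once (universe `Type`).
`m = 0`: one sign vector, `(0+1)^n = 1`.
Step `m → m+1`: write `ℓ = (ℓ', λ)` (`Fin.init`, `Fin.last`; or use `Fin.cons`).  Restriction `ρ : Sg ℓ → Sg ℓ'`.
 (a) `λ = 0`: every fibre of `ρ` has one element, so `card Sg ℓ ≤ card Sg ℓ' ≤ (2m+1)^n ≤ (2m+3)^n`.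
 (b) `λ ≠ 0`: let `τ ∈ Sg ℓ'` and `C_τ = {v | sign ℓ'_i v = τ_i ∀ i}`, a convex set, relatively open in the subspace
     `{ℓ'_i = 0 if τ_i = 0}`.  If `λ` takes two different signs on `C_τ` then it takes the value `0` on `C_τ`:
       if it is positive at `v` and negative at `w` then zero at a convex combination (signs of `ℓ'_i` are kept: a convex
       combination of two positive numbers is positive, of two zeros is zero).
     So the fibre over `τ` has at most `1` element if `τ` is not a sign vector of `ℓ'` restricted to `ker λ`, and at most `3`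
     elements always.  Hence `card Sg ℓ ≤ card Sg ℓ' + 2 card Sg (ℓ'|ker λ)`, and `finrank (ker λ) = n - 1`
     (`LinearMap.finrank_range_add_finrank_ker`, `λ ≠ 0` is surjective).
     So `card Sg ℓ ≤ (2m+1)^n + 2 (2m+1)^(n-1) ≤ (2m+3)^n` (`n ≥ 1`: `(a+2)^n ≥ a^n + 2 a^(n-1)` by `(a+2)(a+2)^(n-1) ≥ (a+2) a^(n-1)`).
-/

open Finset

noncomputable section

namespace Pool.Agent.ANL

/-- the sign vectors of a family of linear forms -/
def Sg {m : ℕ} {V : Type} [AddCommGroup V] [Module ℝ V] (ℓ : Fin m → (V →ₗ[ℝ] ℝ)) :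
    Set (Fin m → SignType) := Set.range fun v : V => fun i => SignType.sign (ℓ i v)

theorem sign_count (m : ℕ) (V : Type) [AddCommGroup V] [Module ℝ V] [FiniteDimensional ℝ V]
    (ℓ : Fin m → (V →ₗ[ℝ] ℝ)) : (Sg ℓ).ncard ≤ (2 * m + 1) ^ (Module.finrank ℝ V) := by
  induction m generalizing V with
  | zero =>
    have h1 : (Sg ℓ).ncard ≤ 1 := by
      rw [Set.ncard_le_one (Set.toFinite _)]
      intro a _ b _
      exact Subsingleton.elim a b
    simpa using h1
  | succ m ih =>
    set lam := ℓ 0 with hlam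
    set ℓ' : Fin m → (V →ₗ[ℝ] ℝ) := fun i => ℓ i.succ with hℓ'
    let T : SignType → Set (Fin m → SignType) := fun s =>
      {τ | ∃ v : V, SignType.sign (lam v) = s ∧ (fun i => SignType.sign (ℓ' i v)) = τ}
    let C : SignType → (Fin m → SignType) → (Fin (m + 1) → SignType) := fun s τ => Fin.cons s τ
    have hS : Sg ℓ ⊆ (C 1 '' T 1 ∪ C (-1) '' T (-1)) ∪ C 0 '' T 0 := by
      rintro _ ⟨v, rfl⟩
      have hv : (fun i => SignType.sign (ℓ i v)) =
          C (SignType.sign (lam v)) (fun i => SignType.sign (ℓ' i v)) := by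
        funext i
        refine Fin.cases ?_ (fun j => ?_) i
        · simp [C, hlam]
        · simp [C, hℓ']
      have hmem : (fun i => SignType.sign (ℓ' i v)) ∈ T (SignType.sign (lam v)) := ⟨v, rfl, rfl⟩
      simp only []
      rw [hv]
      rcases lt_trichotomy (lam v) 0 with h | h | h
      · have h1 : SignType.sign (lam v) = -1 := sign_neg h
        rw [h1] at hmem ⊢
        exact Or.inl (Or.inr ⟨_, hmem, rfl⟩)
      · have h1 : SignType.sign (lam v) = 0 := by rw [h]; exact sign_zero
        rw [h1] at hmem ⊢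
        exact Or.inr ⟨_, hmem, rfl⟩
      · have h1 : SignType.sign (lam v) = 1 := sign_pos h
        rw [h1] at hmem ⊢
        exact Or.inl (Or.inl ⟨_, hmem, rfl⟩)
    have hT : ∀ s, T s ⊆ Sg ℓ' := by
      rintro s _ ⟨v, _, rfl⟩
      exact ⟨v, rfl⟩
    have hconv : T 1 ∩ T (-1) ⊆ T 0 := by
      rintro τ ⟨⟨v, hv1, hv2⟩, ⟨w, hw1, hw2⟩⟩
      have hv : 0 < lam v := sign_eq_one_iff.mp hv1
      have hw : lam w < 0 := sign_eq_neg_one_iff.mp hw1
      refine ⟨(-(lam w)) • v + (lam v) • w, ?_, ?_⟩
      · have : lam ((-(lam w)) • v + (lam v) • w) = 0 := by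
          rw [map_add, map_smul, map_smul, smul_eq_mul, smul_eq_mul]; ring
        rw [this]; exact sign_zero
      · funext i
        have e1 : SignType.sign (ℓ' i v) = τ i := congrFun hv2 i
        have e2 : SignType.sign (ℓ' i w) = τ i := congrFun hw2 i
        have e3 : ℓ' i ((-(lam w)) • v + (lam v) • w) = (-(lam w)) * ℓ' i v + (lam v) * ℓ' i w := by
          rw [map_add, map_smul, map_smul, smul_eq_mul, smul_eq_mul]
        rw [e3]
        have hw' : 0 < -(lam w) := by linarith
        rcases lt_trichotomy (ℓ' i v) 0 with h | h | h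
        · have h1 : SignType.sign (ℓ' i v) = -1 := sign_neg h
          rw [h1] at e1
          rw [← e1] at e2 ⊢
          have h2 : ℓ' i w < 0 := sign_eq_neg_one_iff.mp e2
          apply sign_neg
          have := mul_neg_of_pos_of_neg hw' h
          have := mul_neg_of_pos_of_neg hv h2
          linarith
        · have h1 : SignType.sign (ℓ' i v) = 0 := by rw [h]; exact sign_zero
          rw [h1] at e1
          rw [← e1] at e2 ⊢
          have h2 : ℓ' i w = 0 := sign_eq_zero_iff.mp e2
          rw [h, h2]; simp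
        · have h1 : SignType.sign (ℓ' i v) = 1 := sign_pos h
          rw [h1] at e1
          rw [← e1] at e2 ⊢
          have h2 : 0 < ℓ' i w := sign_eq_one_iff.mp e2
          apply sign_pos
          have := mul_pos hw' h
          have := mul_pos hv h2
          linarith
    have hcard : (Sg ℓ).ncard ≤ (T 1).ncard + (T (-1)).ncard + (T 0).ncard := by
      calc (Sg ℓ).ncard ≤ ((C 1 '' T 1 ∪ C (-1) '' T (-1)) ∪ C 0 '' T 0).ncard :=
            Set.ncard_le_ncard hS (Set.toFinite _)
        _ ≤ (C 1 '' T 1 ∪ C (-1) '' T (-1)).ncard + (C 0 '' T 0).ncard := Set.ncard_union_le _ _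
        _ ≤ ((C 1 '' T 1).ncard + (C (-1) '' T (-1)).ncard) + (C 0 '' T 0).ncard := by
            gcongr; exact Set.ncard_union_le _ _
        _ ≤ (T 1).ncard + (T (-1)).ncard + (T 0).ncard := by
            gcongr <;> exact Set.ncard_image_le (Set.toFinite _)
    have hmono : (2 * m + 1) ^ (Module.finrank ℝ V) ≤ (2 * (m + 1) + 1) ^ (Module.finrank ℝ V) :=
      Nat.pow_le_pow_left (by omega) _
    by_cases hl : lam = 0
    · have h1 : T 1 = ∅ := by
        ext τ
        simp only [Set.mem_empty_iff_false, iff_false]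
        rintro ⟨v, hv, _⟩
        rw [hl] at hv
        simp at hv
      have h2 : T (-1) = ∅ := by
        ext τ
        simp only [Set.mem_empty_iff_false, iff_false]
        rintro ⟨v, hv, _⟩
        rw [hl] at hv
        simp at hv
      rw [h1, h2, Set.ncard_empty] at hcard
      have h3 : (T 0).ncard ≤ (Sg ℓ').ncard := Set.ncard_le_ncard (hT 0) (Set.toFinite _)
      have h4 := ih V ℓ'
      omega
    · have h0 : T 0 ⊆ Sg (fun i => (ℓ' i).comp (LinearMap.ker lam).subtype) := by
        rintro _ ⟨v, hv, rfl⟩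
        have hv' : lam v = 0 := sign_eq_zero_iff.mp hv
        exact ⟨⟨v, by simpa using hv'⟩, rfl⟩
      have h0c : (T 0).ncard ≤ (2 * m + 1) ^ (Module.finrank ℝ (LinearMap.ker lam)) :=
        (Set.ncard_le_ncard h0 (Set.toFinite _)).trans (ih _ _)
      have hrk : Module.finrank ℝ V = Module.finrank ℝ (LinearMap.ker lam) + 1 := by
        have h1 := LinearMap.finrank_range_add_finrank_ker lam
        have hsurj : LinearMap.range lam = ⊤ := by
          rw [LinearMap.range_eq_top]
          exact LinearMap.surjective hl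
        rw [hsurj, finrank_top, Module.finrank_self] at h1
        omega
      have hun : (T 1).ncard + (T (-1)).ncard = (T 1 ∪ T (-1)).ncard + (T 1 ∩ T (-1)).ncard :=
        (Set.ncard_union_add_ncard_inter (T 1) (T (-1))).symm
      have hu1 : (T 1 ∪ T (-1)).ncard ≤ (2 * m + 1) ^ (Module.finrank ℝ V) :=
        (Set.ncard_le_ncard (Set.union_subset (hT 1) (hT (-1))) (Set.toFinite _)).trans (ih V ℓ')
      have hu2 : (T 1 ∩ T (-1)).ncard ≤ (T 0).ncard := Set.ncard_le_ncard hconv (Set.toFinite _)
      rw [hrk] at hu1 ⊢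
      set k := Module.finrank ℝ (LinearMap.ker lam)
      have hfin : (2 * m + 1) ^ (k + 1) + 2 * (2 * m + 1) ^ k ≤ (2 * (m + 1) + 1) ^ (k + 1) := by
        have h5 : (2 * m + 1) ^ k ≤ (2 * (m + 1) + 1) ^ k := Nat.pow_le_pow_left (by omega) _
        calc (2 * m + 1) ^ (k + 1) + 2 * (2 * m + 1) ^ k = (2 * (m + 1) + 1) * (2 * m + 1) ^ k := by
              ring
          _ ≤ (2 * (m + 1) + 1) * (2 * (m + 1) + 1) ^ k := Nat.mul_le_mul_left _ h5
          _ = (2 * (m + 1) + 1) ^ (k + 1) := by ring
      omega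

/-- the same for an arbitrary finite index type -/
theorem sign_count' {I : Type} [Fintype I] (V : Type) [AddCommGroup V] [Module ℝ V]
    [FiniteDimensional ℝ V] (ℓ : I → (V →ₗ[ℝ] ℝ)) :
    (Set.range fun v : V => fun i : I => SignType.sign (ℓ i v)).ncard ≤
      (2 * Fintype.card I + 1) ^ (Module.finrank ℝ V) := by
  let e := Fintype.equivFin I
  have h : (Set.range fun v : V => fun i : I => SignType.sign (ℓ i v)) =
      (fun (σ : Fin (Fintype.card I) → SignType) (i : I) => σ (e i)) ''
        Sg (fun i => ℓ (e.symm i)) := by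
    ext τ
    constructor
    · rintro ⟨v, rfl⟩
      refine ⟨_, ⟨v, rfl⟩, ?_⟩
      funext i
      simp
    · rintro ⟨_, ⟨v, rfl⟩, rfl⟩
      refine ⟨v, ?_⟩
      funext i
      simp
  rw [h]
  exact (Set.ncard_image_le (Set.toFinite _)).trans (sign_count _ V _)

end Pool.Agent.ANL
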