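import Pool.Agent.ANL.Defs
import Pool.Agent.ANL.SignCount

/-! # ANL COVER: the exceptional set `Hit A B ε` is covered by few boxes

Paper proof.  `N = card κ`, `k = card β`.  Grid: `t_i = -(B0 + 2ε) + i ε`, `i = 0, ..., M`, `M = ⌈2 (B0 + 2ε)/ε⌉₊`, so
`t_0 = -(B0+2ε)`, `t_M ≥ B0 + 2ε` and `M + 1 ≤ 2 B0/ε + 6`.
Real forms on `V = β → ℂ` (real vector space of dimension `2k`): for `j : κ`, `p : Bool` (real or imaginary part, write `pr p z`),
`i : Fin (M+1)`:  `φ ↦ pr p ((B φ)_j + t_i (A φ)_j)`.  Their number is `m = 2 N (M+1)`.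
For a sign vector `σ` and `p : κ → Bool` let `i_j(σ,p)` be the least `i < M` such that `σ(j,p_j,i) = 0` or
`σ(j,p_j,i) ≠ σ(j,p_j,i+1)` (and `0` if there is none); the centre is `c(σ,p)_j = t_{i_j(σ,p)}`.
`S :=` all `c(σ,p)` with `σ` a sign vector of the family (`sign_count'`) and `p : κ → Bool`:
`card S ≤ 2^N (2m+1)^(2k)`, `2m + 1 ≤ 4N (2B0/ε + 6) + 1 ≤ 8N (B0/ε + 4)` for `N ≥ 1` (for `N = 0` everything is trivial: `S` = one
element; the bound is then `1 ≤ 0^(2k)` which is false for `k > 0`, so the statement has `N + 1` instead of `N`).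
CLAIM: if `|h_j| ≤ B0` for all `j` and `Hit A B ε h`, then `|h_j - c(σ,p)_j| ≤ 3ε` for all `j`, for `σ` = the sign vector of `φ` and a
suitable `p`.  Let `α = (A φ)_j ≠ 0`, `β = (B φ)_j`, `‖h_j α + β‖ ≤ ε ‖α‖`.  Choose `p_j` with `|pr α| ≥ ‖α‖/2` (`‖α‖ ≤ |re α| + |im α|`).
`f(t) = pr β + t pr α` is affine with slope `a = pr α ≠ 0` and `|f(h_j)| ≤ ε ‖α‖ ≤ 2 ε |a|`, so its zero `t* = -pr β/a` has
`|h_j - t*| ≤ 2ε`, in particular `t_0 ≤ t* ≤ t_M`.  So there is `i < M` with `t_i ≤ t* ≤ t_{i+1}`, and for it `f(t_i) = 0` or the signs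
of `f(t_i)`, `f(t_{i+1})` are different (if `f(t_i) ≠ 0` then `t* > t_i`; `f(t_{i+1})` is zero or has the other sign).  For the LEAST `i` with
this property: if `f(t_i) = 0` then `t* = t_i`; otherwise the signs differ, so `f` has a zero in `[t_i, t_{i+1}]`, which is `t*`.
In both cases `|t* - t_i| ≤ ε`, so `|h_j - t_i| ≤ 3ε`.
-/

open Matrix Finset

noncomputable section

namespace Pool.Agent.ANL

variable {κ β : Type} [Fintype κ] [DecidableEq κ] [Fintype β]

namespace Cov

/-- real or imaginary part -/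
def pr (p : Bool) : ℂ →ₗ[ℝ] ℝ := if p then Complex.reLm else Complex.imLm

omit [Fintype κ] [DecidableEq κ] in
/-- the real forms -/
def frm (A B : Matrix κ β ℂ) (t : ℝ) (j : κ) (p : Bool) : (β → ℂ) →ₗ[ℝ] ℝ where
  toFun φ := pr p ((B *ᵥ φ) j) + t * pr p ((A *ᵥ φ) j)
  map_add' φ ψ := by
    simp only [mulVec_add, Pi.add_apply, map_add]; ring
  map_smul' r φ := by
    have h1 : ∀ D : Matrix κ β ℂ, (D *ᵥ (r • φ)) j = r • (D *ᵥ φ) j := by
      intro D
      rw [mulVec_smul]; rfl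
    simp only [h1, map_smul, smul_eq_mul, RingHom.id_apply]; ring

/-- the grid -/
def grid (B0 ε : ℝ) (i : ℕ) : ℝ := -(B0 + 2 * ε) + i * ε

/-- the index of the least sign change -/
def idx (M : ℕ) (s : ℕ → SignType) : ℕ :=
  open Classical in if h : ∃ i, i < M ∧ (s i = 0 ∨ s i ≠ s (i + 1)) then Nat.find h else 0

theorem idx_spec {M : ℕ} {s : ℕ → SignType} (h : ∃ i, i < M ∧ (s i = 0 ∨ s i ≠ s (i + 1))) :
    idx M s < M ∧ (s (idx M s) = 0 ∨ s (idx M s) ≠ s (idx M s + 1)) := by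
  classical
  unfold idx
  rw [dif_pos h]
  exact Nat.find_spec h

theorem idx_congr {M : ℕ} {s s' : ℕ → SignType} (h : ∀ i, i ≤ M → s i = s' i) :
    idx M s = idx M s' := by
  classical
  have hiff : ∀ i, (i < M ∧ (s i = 0 ∨ s i ≠ s (i + 1))) ↔
      (i < M ∧ (s' i = 0 ∨ s' i ≠ s' (i + 1))) := by
    intro i
    constructor
    · rintro ⟨h1, h2⟩
      exact ⟨h1, by rwa [h i h1.le, h (i + 1) h1] at h2⟩
    · rintro ⟨h1, h2⟩
      exact ⟨h1, by rwa [h i h1.le, h (i + 1) h1]⟩
  unfold idx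
  by_cases hs : ∃ i, i < M ∧ (s i = 0 ∨ s i ≠ s (i + 1))
  · have hs' : ∃ i, i < M ∧ (s' i = 0 ∨ s' i ≠ s' (i + 1)) := by
      obtain ⟨i, hi⟩ := hs
      exact ⟨i, (hiff i).1 hi⟩
    rw [dif_pos hs, dif_pos hs']
    apply le_antisymm
    · exact Nat.find_min' hs ((hiff _).2 (Nat.find_spec hs'))
    · exact Nat.find_min' hs' ((hiff _).1 (Nat.find_spec hs))
  · have hs' : ¬ ∃ i, i < M ∧ (s' i = 0 ∨ s' i ≠ s' (i + 1)) := by
      rintro ⟨i, hi⟩
      exact hs ⟨i, (hiff i).2 hi⟩
    rw [dif_neg hs, dif_neg hs']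

theorem one_dim {B0 ε a b h : ℝ} {M : ℕ} (hε : 0 < ε) (hM : B0 + 2 * ε ≤ grid B0 ε M)
    (ha : a ≠ 0) (hh : |h| ≤ B0) (hf : |b + h * a| ≤ 2 * ε * |a|) :
    |h - grid B0 ε (idx M fun i => SignType.sign (b + grid B0 ε i * a))| ≤ 3 * ε := by
  set s : ℕ → SignType := fun i => SignType.sign (b + grid B0 ε i * a) with hs
  set z : ℝ := -b / a with hz
  have hb : b = -(z * a) := by rw [hz]; field_simp
  have hsz : ∀ i, s i = SignType.sign a * SignType.sign (grid B0 ε i - z) := by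
    intro i
    rw [hs, ← sign_mul]
    simp only
    congr 1
    rw [hb]; ring
  have hsa : SignType.sign a ≠ 0 := by
    rw [Ne, sign_eq_zero_iff]; exact ha
  have hhz : |h - z| ≤ 2 * ε := by
    have h1 : b + h * a = (h - z) * a := by rw [hb]; ring
    rw [h1, abs_mul] at hf
    exact le_of_mul_le_mul_right hf (abs_pos.mpr ha)
  have hz1 := abs_le.mp hhz
  have hh1 := abs_le.mp hh
  have hz0 : grid B0 ε 0 ≤ z := by
    unfold grid; push_cast; linarith [hz1.1, hz1.2, hh1.1, hh1.2]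
  have hzM : z ≤ grid B0 ε M := by linarith [hz1.1, hz1.2, hh1.1, hh1.2]
  have hex : ∃ i, i < M ∧ (s i = 0 ∨ s i ≠ s (i + 1)) := by
    by_contra hcon
    push Not at hcon
    have hall : ∀ i, i ≤ M → s i = s 0 := by
      intro i
      induction i with
      | zero => intro _; rfl
      | succ i ih => intro hi; rw [← (hcon i (by omega)).2]; exact ih (by omega)
    have hMpos : 0 < M := by
      rcases Nat.eq_zero_or_pos M with h0 | h0
      · exfalso
        rw [h0] at hM
        unfold grid at hM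
        push_cast at hM
        have := abs_nonneg h
        linarith
      · exact h0
    have h0 : s 0 ≠ 0 := (hcon 0 hMpos).1
    have h1 := hall M le_rfl
    rw [hsz, hsz] at h1
    have h2 : SignType.sign (grid B0 ε M - z) = SignType.sign (grid B0 ε 0 - z) :=
      mul_left_cancel₀ hsa h1
    rcases eq_or_lt_of_le hz0 with h3 | h3
    · apply h0
      rw [hsz, h3]; simp
    · have h4 : SignType.sign (grid B0 ε 0 - z) = -1 := sign_neg (by linarith)
      rw [h4, sign_eq_neg_one_iff] at h2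
      linarith
  obtain ⟨_, hi⟩ := idx_spec hex
  set i := idx M s
  have hstep : grid B0 ε (i + 1) = grid B0 ε i + ε := by
    unfold grid; push_cast; ring
  have hkey : |z - grid B0 ε i| ≤ ε := by
    by_cases hi0 : s i = 0
    · rw [hsz] at hi0
      have h5 : SignType.sign (grid B0 ε i - z) = 0 := by
        rcases mul_eq_zero.mp hi0 with h6 | h6
        · exact absurd h6 hsa
        · exact h6
      have h6 := sign_eq_zero_iff.mp h5
      have h7 : z - grid B0 ε i = 0 := by linarith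
      rw [h7, abs_zero]; exact hε.le
    · have hne : s i ≠ s (i + 1) := by
        rcases hi with h5 | h5
        · exact absurd h5 hi0
        · exact h5
      have hl : grid B0 ε i ≤ z := by
        by_contra h5
        push Not at h5
        apply hne
        rw [hsz, hsz, sign_pos (by linarith : 0 < grid B0 ε i - z),
          sign_pos (by linarith : 0 < grid B0 ε (i + 1) - z)]
      have hr : z ≤ grid B0 ε (i + 1) := by
        by_contra h5
        push Not at h5
        apply hne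
        rw [hsz, hsz, sign_neg (by linarith : grid B0 ε i - z < 0),
          sign_neg (by linarith : grid B0 ε (i + 1) - z < 0)]
      rw [abs_le]
      constructor <;> linarith
  calc |h - grid B0 ε i| = |(h - z) + (z - grid B0 ε i)| := by congr 1; ring
    _ ≤ |h - z| + |z - grid B0 ε i| := abs_add_le _ _
    _ ≤ 3 * ε := by linarith

end Cov

open Cov in
theorem cover (A B : Matrix κ β ℂ) {ε B0 : ℝ} (hε : 0 < ε) (hB : 0 ≤ B0) :
    ∃ S : Finset (κ → ℝ),
      (S.card : ℝ) ≤ 2 ^ Fintype.card κ *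
        (8 * (Fintype.card κ + 1) * (B0 / ε + 4)) ^ (2 * Fintype.card β) ∧
      ∀ h : κ → ℝ, (∀ j, |h j| ≤ B0) → Hit A B ε h → ∃ t ∈ S, ∀ j, |h j - t j| ≤ 3 * ε := by
  classical
  set M : ℕ := ⌈2 * (B0 + 2 * ε) / ε⌉₊ with hM
  have hM1 : 2 * (B0 + 2 * ε) / ε ≤ M := Nat.le_ceil _
  have hM2 : (M : ℝ) < 2 * (B0 + 2 * ε) / ε + 1 := Nat.ceil_lt_add_one (by positivity)
  have hgM : B0 + 2 * ε ≤ grid B0 ε M := by
    unfold grid
    rw [div_le_iff₀ hε] at hM1
    linarith
  let ℓ : κ × Bool × Fin (M + 1) → ((β → ℂ) →ₗ[ℝ] ℝ) := fun x =>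
    frm A B (grid B0 ε x.2.2) x.1 x.2.1
  let R : Set (κ × Bool × Fin (M + 1) → SignType) :=
    Set.range fun v : β → ℂ => fun i => SignType.sign (ℓ i v)
  have hRfin : R.Finite := Set.toFinite _
  have hfr : Module.finrank ℝ (β → ℂ) = 2 * Fintype.card β := by
    rw [Module.finrank_pi_fintype]
    simp [Complex.finrank_real_complex, mul_comm]
  have hR : R.ncard ≤ (2 * Fintype.card (κ × Bool × Fin (M + 1)) + 1) ^ (2 * Fintype.card β) := by
    rw [← hfr]
    exact sign_count' (β → ℂ) ℓ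
  let c : (κ × Bool × Fin (M + 1) → SignType) × (κ → Bool) → κ → ℝ := fun x j =>
    grid B0 ε (idx M fun i => if h : i < M + 1 then x.1 (j, x.2 j, ⟨i, h⟩) else 0)
  refine ⟨(hRfin.toFinset ×ˢ (Finset.univ : Finset (κ → Bool))).image c, ?_, ?_⟩
  · have h1 : ((hRfin.toFinset ×ˢ (Finset.univ : Finset (κ → Bool))).image c).card ≤
        R.ncard * 2 ^ Fintype.card κ := by
      refine Finset.card_image_le.trans ?_
      rw [Finset.card_product, ← Set.ncard_eq_toFinset_card R hRfin, Finset.card_univ,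
        Fintype.card_fun, Fintype.card_bool]
    have h2 : (((hRfin.toFinset ×ˢ (Finset.univ : Finset (κ → Bool))).image c).card : ℝ) ≤
        (R.ncard : ℝ) * 2 ^ Fintype.card κ := by exact_mod_cast h1
    refine h2.trans ?_
    rw [mul_comm]
    gcongr
    have h3 : (R.ncard : ℝ) ≤
        ((2 * Fintype.card (κ × Bool × Fin (M + 1)) + 1 : ℕ) : ℝ) ^ (2 * Fintype.card β) := by
      exact_mod_cast hR
    refine h3.trans ?_
    gcongr
    have h4 : Fintype.card (κ × Bool × Fin (M + 1)) = Fintype.card κ * (2 * (M + 1)) := by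
      simp
    rw [h4]
    push_cast
    have h5 : 2 * (B0 + 2 * ε) / ε = 2 * (B0 / ε) + 4 := by field_simp; ring
    rw [h5] at hM2
    have h6 : (0 : ℝ) ≤ Fintype.card κ := Nat.cast_nonneg _
    have h7 : 0 ≤ B0 / ε := by positivity
    have h8 : (Fintype.card κ : ℝ) * (2 * (M + 1)) ≤ Fintype.card κ * (2 * (2 * (B0 / ε) + 6)) := by
      apply mul_le_mul_of_nonneg_left _ h6
      linarith
    nlinarith [mul_nonneg h6 h7]
  · rintro h hh ⟨φ, hφ⟩
    have hp : ∀ j, ∃ p : Bool, ‖(A *ᵥ φ) j‖ ≤ 2 * |pr p ((A *ᵥ φ) j)| := by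
      intro j
      have h1 := Complex.norm_le_abs_re_add_abs_im ((A *ᵥ φ) j)
      by_cases h2 : ‖(A *ᵥ φ) j‖ ≤ 2 * |((A *ᵥ φ) j).re|
      · exact ⟨true, by simpa [pr] using h2⟩
      · refine ⟨false, ?_⟩
        have h3 : ‖(A *ᵥ φ) j‖ ≤ 2 * |((A *ᵥ φ) j).im| := by linarith
        simpa [pr] using h3
    choose p hp using hp
    refine ⟨c (fun i => SignType.sign (ℓ i φ), p), ?_, ?_⟩
    · apply Finset.mem_image_of_mem
      rw [Finset.mem_product]
      refine ⟨?_, Finset.mem_univ _⟩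
      rw [Set.Finite.mem_toFinset]
      exact ⟨φ, rfl⟩
    · intro j
      have hcong : c (fun i => SignType.sign (ℓ i φ), p) j =
          grid B0 ε (idx M fun i =>
            SignType.sign (pr (p j) ((B *ᵥ φ) j) + grid B0 ε i * pr (p j) ((A *ᵥ φ) j))) := by
        change grid B0 ε (idx M _) = _
        congr 1
        apply idx_congr
        intro i hi
        rw [dif_pos (by omega)]
        rfl
      rw [hcong]
      obtain ⟨hα, hle⟩ := hφ j
      have hpos : 0 < ‖(A *ᵥ φ) j‖ := norm_pos_iff.mpr hα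
      apply one_dim hε hgM
      · intro h0
        have := hp j
        rw [h0, abs_zero] at this
        linarith
      · exact hh j
      · have h1 : pr (p j) ((B *ᵥ φ) j) + h j * pr (p j) ((A *ᵥ φ) j) =
            pr (p j) ((h j : ℂ) * (A *ᵥ φ) j + (B *ᵥ φ) j) := by
          rw [map_add, ← smul_eq_mul (h j) (pr (p j) ((A *ᵥ φ) j)), ← map_smul,
            Complex.real_smul]
          ring
        rw [h1]
        have h2 : ∀ z : ℂ, |pr (p j) z| ≤ ‖z‖ := by
          intro z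
          cases p j
          · simpa [pr] using Complex.abs_im_le_norm z
          · simpa [pr] using Complex.abs_re_le_norm z
        calc |pr (p j) ((h j : ℂ) * (A *ᵥ φ) j + (B *ᵥ φ) j)| ≤ _ := h2 _
          _ ≤ ε * ‖(A *ᵥ φ) j‖ := hle
          _ ≤ ε * (2 * |pr (p j) ((A *ᵥ φ) j)|) := by gcongr; exact hp j
          _ = 2 * ε * |pr (p j) ((A *ᵥ φ) j)| := by ring

end Pool.Agent.ANL
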