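import Pool.Agent.ANL.Insert

/-! # ANL INSOBS: change of the observables at an insertion

`b = b'` outside `F`; `n : ι → ℝ` leverage bounds outside `F`; `η_x = -(b x).im`; `G = rsc H b`, `G' = rsc H b'`, `δ = G' - G`.
From `leak_insert` (columns; rows by symmetry): `∑_{y ∉ F} η_y ‖δ_xy‖² ≤ 4 n_x`; `insert_entry`: `‖δ_xy‖² ≤ 4 n_x n_y`.

Paper proofs.
* `obs_sum`: `|‖G'‖² - ‖G‖²| ≤ ‖δ‖ (2‖G‖ + ‖δ‖)`, Cauchy-Schwarz, `ward_le`: `≤ 2 (Im G_xx)^(1/2) (4 n_x)^(1/2) + 4 n_x`.  The same for `G'² - G²`.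
* `obs_four`: `∑_y ‖δ_xy‖⁴ ≤ 16 n_x² ∑_y n_y²`.
* `form_low`: real `u`; `‖G'‖² ≥ (‖G‖ - ‖δ‖)² ≥ (1-θ)‖G‖² - ‖δ‖²/θ` (`2ab ≤ θ a² + b²/θ`, and `(1/θ - 1) ≤ 1/θ`), and
  `(1/2) ∑ η_x η_y ‖δ_xy‖² (u_x - u_y)² ≤ (1/2) ∑ η_x η_y ‖δ_xy‖² (2 u_x² + 2 u_y²) = 2 ∑_x η_x u_x² ∑_y η_y ‖δ_xy‖² ≤ 8 ∑_x η_x n_x u_x²`
  (`δ` symmetric).  Sums over `x, y ∈ A`, `A ∩ F = ∅`.
-/

open Matrix Finset

noncomputable section

namespace Pool.Agent.ANL

open Pool.Agent.Kin Pool.Agent.APS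

variable {ι : Type} [Fintype ι] [DecidableEq ι] {H : Matrix ι ι ℂ} {b b' : ι → ℂ}
  {F : Finset ι} {n : ι → ℝ}

/-- data of an insertion -/
structure Ins (H : Matrix ι ι ℂ) (b b' : ι → ℂ) (F : Finset ι) (n : ι → ℝ) : Prop where
  adm : Adm H b
  adm' : Adm H b'
  off : ∀ x, x ∉ F → b x = b' x
  dir : DirInj H b F
  n0 : ∀ x, 0 ≤ n x
  lev : ∀ x, x ∉ F → LevLe H b F x (n x)

omit [Fintype ι] [DecidableEq ι] in
private lemma io_not {A F : Finset ι} (hS : Disjoint A F) {y : ι} (hy : y ∈ A) : y ∉ F :=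
  Finset.disjoint_left.1 hS hy

theorem row_diff (hI : Ins H b b' F n) {x : ι} (hx : x ∉ F) {S : Finset ι}
    (hS : Disjoint S F) :
    ∑ y ∈ S, (-(b y).im) * ‖rsc H b' x y - rsc H b x y‖ ^ 2 ≤ 4 * n x := by
  have h1 := leak_insert hI.adm hI.adm' hI.off hI.dir hx (hI.n0 x) (hI.lev x hx)
  refine le_trans ?_ h1
  unfold leak
  have h2 : ∀ y, (-(b y).im) * ‖rsc H b' x y - rsc H b x y‖ ^ 2 =
      (-(b y).im) * ‖rsc H b' y x - rsc H b y x‖ ^ 2 := by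
    intro y
    rw [adm_symm hI.adm' x y, adm_symm hI.adm x y]
  rw [Finset.sum_congr rfl fun y _ => h2 y]
  refine Finset.sum_le_sum_of_subset_of_nonneg ?_ ?_
  · intro y hy
    rw [Finset.mem_compl]
    exact io_not hS hy
  · intro y _ _
    have h3 := hI.adm.im y
    exact mul_nonneg (by linarith) (by positivity)

/-- the common estimate of `obs_abs` and `obs_sq` -/
private lemma io_sum (hI : Ins H b b' F n) {x : ι} (hx : x ∉ F) {S : Finset ι}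
    (hS : Disjoint S F) :
    ∑ y ∈ S, (-(b y).im) * (‖rsc H b' x y - rsc H b x y‖ * (2 * ‖rsc H b x y‖ +
      ‖rsc H b' x y - rsc H b x y‖)) ≤ 4 * √((rsc H b x x).im * n x) + 4 * n x := by
  have hη : ∀ y, 0 ≤ -(b y).im := fun y => by linarith [hI.adm.im y]
  have h1 := row_diff hI hx hS
  have h2 := ward_le hI.adm S x
  have e1 : ∀ y, (-(b y).im) * (‖rsc H b' x y - rsc H b x y‖ * (2 * ‖rsc H b x y‖ +
      ‖rsc H b' x y - rsc H b x y‖)) =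
      2 * ((√(-(b y).im) * ‖rsc H b' x y - rsc H b x y‖) * (√(-(b y).im) * ‖rsc H b x y‖)) +
        (-(b y).im) * ‖rsc H b' x y - rsc H b x y‖ ^ 2 := by
    intro y
    have e2 : √(-(b y).im) * √(-(b y).im) = -(b y).im := Real.mul_self_sqrt (hη y)
    calc (-(b y).im) * (‖rsc H b' x y - rsc H b x y‖ * (2 * ‖rsc H b x y‖ +
          ‖rsc H b' x y - rsc H b x y‖))
        = 2 * ((-(b y).im) * (‖rsc H b' x y - rsc H b x y‖ * ‖rsc H b x y‖)) +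
          (-(b y).im) * ‖rsc H b' x y - rsc H b x y‖ ^ 2 := by ring
      _ = 2 * ((√(-(b y).im) * √(-(b y).im)) * (‖rsc H b' x y - rsc H b x y‖ * ‖rsc H b x y‖)) +
          (-(b y).im) * ‖rsc H b' x y - rsc H b x y‖ ^ 2 := by rw [e2]
      _ = _ := by ring
  rw [Finset.sum_congr rfl fun y _ => e1 y, Finset.sum_add_distrib, ← Finset.mul_sum]
  have h3 := Finset.sum_mul_sq_le_sq_mul_sq S
    (fun y => √(-(b y).im) * ‖rsc H b' x y - rsc H b x y‖) (fun y => √(-(b y).im) * ‖rsc H b x y‖)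
  have e3 : ∀ y, (√(-(b y).im) * ‖rsc H b' x y - rsc H b x y‖) ^ 2 =
      (-(b y).im) * ‖rsc H b' x y - rsc H b x y‖ ^ 2 := by
    intro y
    rw [mul_pow, Real.sq_sqrt (hη y)]
  have e4 : ∀ y, (√(-(b y).im) * ‖rsc H b x y‖) ^ 2 = (-(b y).im) * ‖rsc H b x y‖ ^ 2 := by
    intro y
    rw [mul_pow, Real.sq_sqrt (hη y)]
  rw [Finset.sum_congr rfl fun y _ => e3 y, Finset.sum_congr rfl fun y _ => e4 y] at h3
  have h4 : 0 ≤ ∑ y ∈ S, (-(b y).im) * ‖rsc H b x y‖ ^ 2 :=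
    Finset.sum_nonneg fun y _ => mul_nonneg (hη y) (by positivity)
  have h5 : (∑ y ∈ S, (√(-(b y).im) * ‖rsc H b' x y - rsc H b x y‖) *
      (√(-(b y).im) * ‖rsc H b x y‖)) ≤ 2 * √((rsc H b x x).im * n x) := by
    have h6 : (∑ y ∈ S, (√(-(b y).im) * ‖rsc H b' x y - rsc H b x y‖) *
        (√(-(b y).im) * ‖rsc H b x y‖)) ^ 2 ≤ 4 * ((rsc H b x x).im * n x) := by
      refine h3.trans ?_
      calc (∑ y ∈ S, (-(b y).im) * ‖rsc H b' x y - rsc H b x y‖ ^ 2) *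
            ∑ y ∈ S, (-(b y).im) * ‖rsc H b x y‖ ^ 2
          ≤ (4 * n x) * (rsc H b x x).im :=
            mul_le_mul h1 h2 h4 (by have := hI.n0 x; positivity)
        _ = _ := by ring
    have h7 := Real.le_sqrt_of_sq_le h6
    rw [show (4 : ℝ) * ((rsc H b x x).im * n x) = 2 ^ 2 * ((rsc H b x x).im * n x) by ring,
      Real.sqrt_mul (by norm_num), Real.sqrt_sq (by norm_num)] at h7
    exact h7
  linarith

theorem obs_abs (hI : Ins H b b' F n) {x : ι} (hx : x ∉ F) {S : Finset ι}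
    (hS : Disjoint S F) :
    |∑ y ∈ S, (-(b y).im) * ‖rsc H b' x y‖ ^ 2 - ∑ y ∈ S, (-(b y).im) * ‖rsc H b x y‖ ^ 2| ≤
      4 * √((rsc H b x x).im * n x) + 4 * n x := by
  refine le_trans ?_ (io_sum hI hx hS)
  rw [← Finset.sum_sub_distrib]
  refine (Finset.abs_sum_le_sum_abs _ _).trans (Finset.sum_le_sum fun y _ => ?_)
  have hη : 0 ≤ -(b y).im := by linarith [hI.adm.im y]
  rw [← mul_sub, abs_mul, abs_of_nonneg hη]
  refine mul_le_mul_of_nonneg_left ?_ hη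
  have h1 : |‖rsc H b' x y‖ - ‖rsc H b x y‖| ≤ ‖rsc H b' x y - rsc H b x y‖ :=
    abs_norm_sub_norm_le _ _
  have h2 : |‖rsc H b' x y‖ + ‖rsc H b x y‖| ≤ 2 * ‖rsc H b x y‖ +
      ‖rsc H b' x y - rsc H b x y‖ := by
    rw [abs_of_nonneg (by positivity)]
    have h3 := (abs_le.1 h1).2
    linarith
  rw [show ‖rsc H b' x y‖ ^ 2 - ‖rsc H b x y‖ ^ 2 =
    (‖rsc H b' x y‖ - ‖rsc H b x y‖) * (‖rsc H b' x y‖ + ‖rsc H b x y‖) by ring, abs_mul]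
  exact mul_le_mul h1 h2 (abs_nonneg _) (norm_nonneg _)

theorem obs_sq (hI : Ins H b b' F n) {x : ι} (hx : x ∉ F) {S : Finset ι}
    (hS : Disjoint S F) :
    ‖∑ y ∈ S, ((-(b y).im : ℝ) : ℂ) * rsc H b' x y ^ 2 -
        ∑ y ∈ S, ((-(b y).im : ℝ) : ℂ) * rsc H b x y ^ 2‖ ≤
      4 * √((rsc H b x x).im * n x) + 4 * n x := by
  refine le_trans ?_ (io_sum hI hx hS)
  rw [← Finset.sum_sub_distrib]
  refine (norm_sum_le _ _).trans (Finset.sum_le_sum fun y _ => ?_)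
  have hη : 0 ≤ -(b y).im := by linarith [hI.adm.im y]
  rw [← mul_sub, norm_mul, Complex.norm_real, Real.norm_eq_abs, abs_of_nonneg hη]
  refine mul_le_mul_of_nonneg_left ?_ hη
  rw [show rsc H b' x y ^ 2 - rsc H b x y ^ 2 =
    (rsc H b' x y - rsc H b x y) * (rsc H b' x y + rsc H b x y) by ring, norm_mul]
  refine mul_le_mul_of_nonneg_left ?_ (norm_nonneg _)
  calc ‖rsc H b' x y + rsc H b x y‖
      = ‖2 * rsc H b x y + (rsc H b' x y - rsc H b x y)‖ := by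
        congr 1
        ring
    _ ≤ ‖2 * rsc H b x y‖ + ‖rsc H b' x y - rsc H b x y‖ := norm_add_le _ _
    _ = _ := by rw [norm_mul, Complex.norm_two]

theorem obs_four (hI : Ins H b b' F n) {x : ι} (hx : x ∉ F) {S : Finset ι}
    (hS : Disjoint S F) :
    ∑ y ∈ S, ‖rsc H b' x y - rsc H b x y‖ ^ 4 ≤ 16 * n x ^ 2 * ∑ y ∈ S, n y ^ 2 := by
  rw [Finset.mul_sum]
  refine Finset.sum_le_sum fun y hy => ?_
  have hyF := io_not hS hy
  have h1 := insert_entry hI.adm hI.adm' hI.off hI.dir hx hyF (hI.n0 x) (hI.n0 y)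
    (hI.lev x hx) (hI.lev y hyF)
  calc ‖rsc H b' x y - rsc H b x y‖ ^ 4 = (‖rsc H b' x y - rsc H b x y‖ ^ 2) ^ 2 := by ring
    _ ≤ (4 * n x * n y) ^ 2 := pow_le_pow_left₀ (by positivity) h1 2
    _ = _ := by ring

/-- the form `(1/2) ∑ η_x η_y |G_xy|² (u_x - u_y)²` on `A` -/
def Qf (H : Matrix ι ι ℂ) (b : ι → ℂ) (A : Finset ι) (u : ι → ℝ) : ℝ :=
  (1 / 2) * ∑ x ∈ A, ∑ y ∈ A, (b x).im * (b y).im * ‖rsc H b x y‖ ^ 2 * (u x - u y) ^ 2

/-- the elementary inequality -/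
private lemma io_elem {g g' d θ : ℝ} (hθ : 0 < θ) (hd : |g' - g| ≤ d) :
    (1 - θ) * g ^ 2 - d ^ 2 / θ ≤ g' ^ 2 := by
  have h1 : (g' - g) ^ 2 ≤ d ^ 2 := by
    rw [← sq_abs (g' - g)]
    exact pow_le_pow_left₀ (abs_nonneg _) hd 2
  have h2 : (g' - g) ^ 2 / θ ≤ d ^ 2 / θ := div_le_div_of_nonneg_right h1 hθ.le
  have h3 : 0 ≤ (θ * g + (g' - g)) ^ 2 / θ := by positivity
  have h4 : (θ * g + (g' - g)) ^ 2 / θ = θ * g ^ 2 + 2 * g * (g' - g) + (g' - g) ^ 2 / θ := by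
    field_simp
    ring
  nlinarith [sq_nonneg (g' - g)]

theorem form_low (hI : Ins H b b' F n) {A : Finset ι} (hA : Disjoint A F) {θ : ℝ}
    (hθ : 0 < θ) (hθ1 : θ ≤ 1) (u : ι → ℝ) :
    (1 - θ) * Qf H b A u - 8 / θ * ∑ x ∈ A, (-(b x).im) * n x * u x ^ 2 ≤ Qf H b' A u := by
  have hη : ∀ y, 0 ≤ -(b y).im := fun y => by linarith [hI.adm.im y]
  have hηη : ∀ x y, 0 ≤ (b x).im * (b y).im := fun x y => by
    nlinarith [mul_nonneg (hη x) (hη y)]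
  -- pointwise
  have h1 : ∀ x ∈ A, ∀ y ∈ A,
      (1 - θ) * ((b x).im * (b y).im * ‖rsc H b x y‖ ^ 2 * (u x - u y) ^ 2) -
        1 / θ * ((b x).im * (b y).im * ‖rsc H b' x y - rsc H b x y‖ ^ 2 *
          (2 * u x ^ 2 + 2 * u y ^ 2)) ≤
      (b' x).im * (b' y).im * ‖rsc H b' x y‖ ^ 2 * (u x - u y) ^ 2 := by
    intro x hx y hy
    rw [← hI.off x (io_not hA hx), ← hI.off y (io_not hA hy)]
    have e1 := io_elem (g := ‖rsc H b x y‖) (g' := ‖rsc H b' x y‖) hθ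
      (abs_norm_sub_norm_le (rsc H b' x y) (rsc H b x y))
    have e2 : 0 ≤ (b x).im * (b y).im * (u x - u y) ^ 2 := mul_nonneg (hηη x y) (sq_nonneg _)
    have e3 := mul_le_mul_of_nonneg_left e1 e2
    have e4 : (u x - u y) ^ 2 ≤ 2 * u x ^ 2 + 2 * u y ^ 2 := by nlinarith [sq_nonneg (u x + u y)]
    have e5 : 0 ≤ 1 / θ * ((b x).im * (b y).im * ‖rsc H b' x y - rsc H b x y‖ ^ 2) :=
      mul_nonneg (by positivity) (mul_nonneg (hηη x y) (sq_nonneg _))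
    have e6 := mul_le_mul_of_nonneg_left e4 e5
    have e7 : (b x).im * (b y).im * (u x - u y) ^ 2 *
        ((1 - θ) * ‖rsc H b x y‖ ^ 2 - ‖rsc H b' x y - rsc H b x y‖ ^ 2 / θ) =
        (1 - θ) * ((b x).im * (b y).im * ‖rsc H b x y‖ ^ 2 * (u x - u y) ^ 2) -
        1 / θ * ((b x).im * (b y).im * ‖rsc H b' x y - rsc H b x y‖ ^ 2) * (u x - u y) ^ 2 := by
      ring
    rw [e7] at e3
    have e8 : 1 / θ * ((b x).im * (b y).im * ‖rsc H b' x y - rsc H b x y‖ ^ 2 *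
          (2 * u x ^ 2 + 2 * u y ^ 2)) =
        1 / θ * ((b x).im * (b y).im * ‖rsc H b' x y - rsc H b x y‖ ^ 2) *
          (2 * u x ^ 2 + 2 * u y ^ 2) := by ring
    rw [e8]
    calc _ ≤ (1 - θ) * ((b x).im * (b y).im * ‖rsc H b x y‖ ^ 2 * (u x - u y) ^ 2) -
        1 / θ * ((b x).im * (b y).im * ‖rsc H b' x y - rsc H b x y‖ ^ 2) * (u x - u y) ^ 2 := by
          linarith
      _ ≤ _ := e3
      _ = _ := by ring
  -- the error term
  have h2 : ∑ x ∈ A, ∑ y ∈ A, (b x).im * (b y).im * ‖rsc H b' x y - rsc H b x y‖ ^ 2 *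
      (2 * u x ^ 2 + 2 * u y ^ 2) ≤ 16 * ∑ x ∈ A, (-(b x).im) * n x * u x ^ 2 := by
    have e1 : ∑ x ∈ A, ∑ y ∈ A, (b x).im * (b y).im * ‖rsc H b' x y - rsc H b x y‖ ^ 2 *
        (2 * u x ^ 2 + 2 * u y ^ 2) =
        4 * ∑ x ∈ A, (-(b x).im) * u x ^ 2 *
          ∑ y ∈ A, (-(b y).im) * ‖rsc H b' x y - rsc H b x y‖ ^ 2 := by
      have e2 : ∑ x ∈ A, ∑ y ∈ A, (b x).im * (b y).im * ‖rsc H b' x y - rsc H b x y‖ ^ 2 *
          (2 * u y ^ 2) =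
          ∑ x ∈ A, ∑ y ∈ A, (b x).im * (b y).im * ‖rsc H b' x y - rsc H b x y‖ ^ 2 *
          (2 * u x ^ 2) := by
        rw [Finset.sum_comm]
        refine Finset.sum_congr rfl fun x _ => Finset.sum_congr rfl fun y _ => ?_
        rw [adm_symm hI.adm' y x, adm_symm hI.adm y x]
        ring
      have e3 : ∀ x y, (b x).im * (b y).im * ‖rsc H b' x y - rsc H b x y‖ ^ 2 *
          (2 * u x ^ 2 + 2 * u y ^ 2) =
          (b x).im * (b y).im * ‖rsc H b' x y - rsc H b x y‖ ^ 2 * (2 * u x ^ 2) +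
          (b x).im * (b y).im * ‖rsc H b' x y - rsc H b x y‖ ^ 2 * (2 * u y ^ 2) := by
        intro x y
        ring
      simp only [e3, Finset.sum_add_distrib]
      rw [e2, Finset.mul_sum, ← Finset.sum_add_distrib]
      refine Finset.sum_congr rfl fun x _ => ?_
      rw [← Finset.sum_add_distrib, Finset.mul_sum, Finset.mul_sum]
      refine Finset.sum_congr rfl fun y _ => ?_
      ring
    rw [e1]
    have e4 : ∑ x ∈ A, (-(b x).im) * u x ^ 2 *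
          ∑ y ∈ A, (-(b y).im) * ‖rsc H b' x y - rsc H b x y‖ ^ 2 ≤
        ∑ x ∈ A, (-(b x).im) * u x ^ 2 * (4 * n x) :=
      Finset.sum_le_sum fun x hx => mul_le_mul_of_nonneg_left
        (row_diff hI (io_not hA hx) hA) (mul_nonneg (hη x) (sq_nonneg _))
    have e5 : ∑ x ∈ A, (-(b x).im) * u x ^ 2 * (4 * n x) =
        4 * ∑ x ∈ A, (-(b x).im) * n x * u x ^ 2 := by
      rw [Finset.mul_sum]
      refine Finset.sum_congr rfl fun x _ => ?_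
      ring
    linarith
  -- summation
  have h3 := Finset.sum_le_sum fun x hx => Finset.sum_le_sum fun y hy => h1 x hx y hy
  simp only [Finset.sum_sub_distrib, ← Finset.mul_sum] at h3
  have h4 : 1 / θ * ∑ x ∈ A, ∑ y ∈ A, (b x).im * (b y).im *
      ‖rsc H b' x y - rsc H b x y‖ ^ 2 * (2 * u x ^ 2 + 2 * u y ^ 2) ≤
      1 / θ * (16 * ∑ x ∈ A, (-(b x).im) * n x * u x ^ 2) :=
    mul_le_mul_of_nonneg_left h2 (by positivity)
  unfold Qf
  have h5 : 8 / θ * ∑ x ∈ A, (-(b x).im) * n x * u x ^ 2 =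
      (1 / 2) * (1 / θ * (16 * ∑ x ∈ A, (-(b x).im) * n x * u x ^ 2)) := by
    ring
  rw [h5]
  linarith

end Pool.Agent.ANL
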