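import Pool.Agent.ANL.Defs

/-! # ANL SQUARE: completing the square

`J` real symmetric, `0 ≤ qf J q` for all `q`; `W : κ → ι` injective; `K := J.submatrix W W`, `c Σ|v_j|² ≤ qf K v`, `c > 0`.
`onW W s` is the vector on `ι` carrying `s` along `W`.

Paper proofs.
* `qf_add`: `qf J (u + v) = qf J u + qf J v + 2 ∑_x Re (conj u_x · (J v)_x)` with `(J v)_x = ∑_y J x y v_y` (symmetry of `J`).
* `qf_onW`: `qf J (onW W v) = qf K v` (`W` injective: exchange sums; `∑_x onW_x f x = ∑_j v_j f (W j)`).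
* `sub_unit`: `K` is injective on real vectors: `K v = 0` gives `qf K v = 0` so `v = 0`; hence `IsUnit K.det`
  (`Matrix.exists_mulVec_eq_zero_iff`; a real vector `v` is used as complex vector with zero imaginary part).
* `sst_eq`: `∑_i K j i (sst f)_i = - ∑_y J (W j) y f y` (`K K⁻¹ = 1`).
* `square`: put `s* = sst J W f`, `u = f + onW s*`, `v = onW (s - s*)`.  Then `f + onW s = u + v` and
  `(J u)_{W j} = (J f)_{W j} + ∑_i K j i s*_i = 0`, so the cross term `2 ∑_x Re(conj v_x (J u)_x)` vanishes (`v` lives on the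
  range of `W`), and `qf J (u + v) = qf J u + qf J v ≥ qf K (s - s*) ≥ c ∑ |s_j - s*_j|²`.
* `sst_bound`: `s = sst J W g`, `r_j = ∑_y J (W j) y g_y`, `K s = - r`.  `c |s|² ≤ qf K s = ∑_j Re (conj s_j (K s)_j)`
  `≤ |s| |r|`, so `|s| ≤ |r|/c` and `|r|² ≤ card κ · m²`.
-/

open Matrix Finset

noncomputable section

namespace Pool.Agent.ANL

open Pool.Agent.Kin Pool.Agent.APS

variable {ι : Type} [Fintype ι] [DecidableEq ι] {κ : Type} [Fintype κ] [DecidableEq κ]
  {J : Matrix ι ι ℝ} {W : κ → ι}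

omit [DecidableEq ι] in
private theorem sq_term (r : ℝ) (a b : ℂ) :
    ((starRingEnd ℂ) a * ((r : ℂ) * b)).re = r * (a.re * b.re + a.im * b.im) := by
  simp only [Complex.mul_re, Complex.mul_im, Complex.conj_re, Complex.conj_im,
    Complex.ofReal_re, Complex.ofReal_im]
  ring

omit [DecidableEq ι] in
private theorem sq_bil (u v : ι → ℂ) :
    ∑ x, ((starRingEnd ℂ) (u x) * ∑ y, (J x y : ℂ) * v y).re =
      ∑ x, ∑ y, J x y * ((u x).re * (v y).re + (u x).im * (v y).im) := by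
  refine Finset.sum_congr rfl fun x _ => ?_
  rw [Finset.mul_sum, Complex.re_sum]
  exact Finset.sum_congr rfl fun y _ => sq_term _ _ _

omit [DecidableEq ι] in
theorem qf_add (hs : ∀ x y, J x y = J y x) (u v : ι → ℂ) :
    qf J (u + v) = qf J u + qf J v +
      2 * ∑ x, ((starRingEnd ℂ) (u x) * ∑ y, (J x y : ℂ) * v y).re := by
  rw [sq_bil]
  have h1 : ∑ x, ∑ y, J x y * ((v x).re * (u y).re + (v x).im * (u y).im) =
      ∑ x, ∑ y, J x y * ((u x).re * (v y).re + (u x).im * (v y).im) := by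
    rw [Finset.sum_comm]
    refine Finset.sum_congr rfl fun x _ => Finset.sum_congr rfl fun y _ => ?_
    rw [hs y x]
    ring
  have h2 : qf J (u + v) = qf J u + qf J v +
      (∑ x, ∑ y, J x y * ((u x).re * (v y).re + (u x).im * (v y).im) +
        ∑ x, ∑ y, J x y * ((v x).re * (u y).re + (v x).im * (u y).im)) := by
    unfold qf
    simp only [← Finset.sum_add_distrib]
    refine Finset.sum_congr rfl fun x _ => Finset.sum_congr rfl fun y _ => ?_
    rw [Pi.add_apply, Pi.add_apply, Complex.add_re, Complex.add_re, Complex.add_im,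
      Complex.add_im]
    ring
  rw [h2, h1]
  ring

omit [DecidableEq ι] in
theorem qf_re (u : ι → ℂ) :
    qf J u = ∑ x, ((starRingEnd ℂ) (u x) * ∑ y, (J x y : ℂ) * u y).re := by
  rw [sq_bil]
  rfl

private theorem sq_sum_onW (h : κ → ℂ) (F : ι → ℂ) :
    ∑ x, onW W h x * F x = ∑ j, h j * F (W j) := by
  unfold onW
  simp only [Finset.sum_mul]
  rw [Finset.sum_comm]
  refine Finset.sum_congr rfl fun j _ => ?_
  simp only [ite_mul, zero_mul]
  rw [Finset.sum_ite_eq, if_pos (Finset.mem_univ _)]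

omit [Fintype ι] [DecidableEq κ] in
private theorem sq_conj_onW (h : κ → ℂ) (x : ι) :
    (starRingEnd ℂ) (onW W h x) = onW W (fun j => (starRingEnd ℂ) (h j)) x := by
  unfold onW
  rw [map_sum]
  refine Finset.sum_congr rfl fun j _ => ?_
  split_ifs
  · rfl
  · exact map_zero _

/-- the bilinear form on vectors carried by `W` -/
private theorem sq_bil_onW (h : κ → ℂ) (f : ι → ℂ) :
    ∑ x, ((starRingEnd ℂ) (onW W h x) * ∑ y, (J x y : ℂ) * f y).re =
      ∑ j, ((starRingEnd ℂ) (h j) * ∑ y, (J (W j) y : ℂ) * f y).re := by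
  rw [← Complex.re_sum, ← Complex.re_sum]
  congr 1
  rw [← sq_sum_onW (W := W) (fun j => (starRingEnd ℂ) (h j)) (fun x => ∑ y, (J x y : ℂ) * f y)]
  exact Finset.sum_congr rfl fun x _ => by rw [sq_conj_onW]

private theorem sq_row_onW (v : κ → ℂ) (x : ι) :
    ∑ y, (J x y : ℂ) * onW W v y = ∑ i, (J x (W i) : ℂ) * v i := by
  have := sq_sum_onW (W := W) v (fun y => (J x y : ℂ))
  rw [Finset.sum_congr rfl fun y _ => mul_comm _ _, this]
  exact Finset.sum_congr rfl fun i _ => mul_comm _ _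

theorem qf_onW (hW : Function.Injective W) (v : κ → ℂ) :
    qf J (onW W v) = qf (J.submatrix W W) v := by
  rw [qf_re, qf_re, sq_bil_onW]
  refine Finset.sum_congr rfl fun j _ => ?_
  rw [sq_row_onW]
  rfl

omit [Fintype ι] [DecidableEq ι] in
theorem sub_unit {c : ℝ} (hc : 0 < c)
    (hK : ∀ v : κ → ℂ, c * ∑ j, ‖v j‖ ^ 2 ≤ qf (J.submatrix W W) v) :
    IsUnit (J.submatrix W W).det := by
  rw [isUnit_iff_ne_zero]
  intro h0
  obtain ⟨v, hv, hKv⟩ := Matrix.exists_mulVec_eq_zero_iff.mpr h0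
  have h1 := hK fun j => (v j : ℂ)
  have h2 : qf (J.submatrix W W) (fun j => (v j : ℂ)) = 0 := by
    rw [qf_re]
    refine Finset.sum_eq_zero fun j _ => ?_
    have h3 : ∑ y, ((J.submatrix W W) j y : ℂ) * ((v y : ℝ) : ℂ) = 0 := by
      have h4 := congrFun hKv j
      rw [Matrix.mulVec, dotProduct] at h4
      have h5 := congrArg (fun r : ℝ => (r : ℂ)) h4
      simp only [Complex.ofReal_sum, Complex.ofReal_mul, Pi.zero_apply, Complex.ofReal_zero] at h5
      exact h5
    rw [h3, mul_zero, Complex.zero_re]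
  rw [h2] at h1
  have h6 : ∑ j, ‖((v j : ℝ) : ℂ)‖ ^ 2 ≤ 0 := by
    by_contra h7
    rw [not_le] at h7
    exact absurd h1 (not_le.mpr (mul_pos hc h7))
  apply hv
  funext j
  have h8 : ‖((v j : ℝ) : ℂ)‖ ^ 2 ≤ 0 :=
    (Finset.single_le_sum (f := fun j => ‖((v j : ℝ) : ℂ)‖ ^ 2) (fun _ _ => sq_nonneg _)
      (Finset.mem_univ j)).trans h6
  have h9 : ‖((v j : ℝ) : ℂ)‖ = 0 := by
    have := sq_nonneg ‖((v j : ℝ) : ℂ)‖
    exact pow_eq_zero_iff (two_ne_zero) |>.mp (le_antisymm h8 this)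
  rw [norm_eq_zero, Complex.ofReal_eq_zero] at h9
  exact h9

theorem sst_eq {c : ℝ} (hc : 0 < c)
    (hK : ∀ v : κ → ℂ, c * ∑ j, ‖v j‖ ^ 2 ≤ qf (J.submatrix W W) v) (f : ι → ℂ) (j : κ) :
    ∑ i, (J (W j) (W i) : ℂ) * sst J W f i = -∑ y, (J (W j) y : ℂ) * f y := by
  have hu := sub_unit hc hK
  have h1 : ∀ l, ∑ i, (J (W j) (W i) : ℂ) * (((J.submatrix W W)⁻¹ i l : ℝ) : ℂ) =
      if j = l then 1 else 0 := by
    intro l
    have h2 := congrFun (congrFun (Matrix.mul_nonsing_inv _ hu) j) l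
    rw [Matrix.mul_apply, Matrix.one_apply] at h2
    have h3 := congrArg (fun r : ℝ => (r : ℂ)) h2
    simp only [Complex.ofReal_sum, Complex.ofReal_mul, Matrix.submatrix_apply] at h3
    rw [h3]
    split_ifs
    · exact Complex.ofReal_one
    · exact Complex.ofReal_zero
  unfold sst
  simp only [mul_neg, Finset.sum_neg_distrib]
  congr 1
  simp only [Finset.mul_sum (s := (Finset.univ : Finset κ))]
  rw [Finset.sum_comm]
  have h4 : ∀ l, ∑ i, (J (W j) (W i) : ℂ) * ((((J.submatrix W W)⁻¹ i l : ℝ) : ℂ) *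
      ∑ y, (J (W l) y : ℂ) * f y) = (if j = l then 1 else 0) * ∑ y, (J (W l) y : ℂ) * f y := by
    intro l
    rw [← h1 l, Finset.sum_mul]
    exact Finset.sum_congr rfl fun i _ => (mul_assoc _ _ _).symm
  rw [Finset.sum_congr rfl fun l _ => h4 l]
  simp only [ite_mul, one_mul, zero_mul]
  rw [Finset.sum_ite_eq, if_pos (Finset.mem_univ _)]

theorem square (hs : ∀ x y, J x y = J y x) (hJ : ∀ q : ι → ℂ, 0 ≤ qf J q)
    (hW : Function.Injective W) {c : ℝ} (hc : 0 < c)
    (hK : ∀ v : κ → ℂ, c * ∑ j, ‖v j‖ ^ 2 ≤ qf (J.submatrix W W) v) (f : ι → ℂ) (s : κ → ℂ) :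
    c * ∑ j, ‖s j - sst J W f j‖ ^ 2 ≤ qf J (f + onW W s) := by
  have h1 : f + onW W s = onW W (s - sst J W f) + (f + onW W (sst J W f)) := by
    funext x
    simp only [Pi.add_apply, onW, Pi.sub_apply]
    have : ∑ j, (if W j = x then s j else 0) = ∑ j, (if W j = x then s j - sst J W f j else 0) +
        ∑ j, (if W j = x then sst J W f j else 0) := by
      rw [← Finset.sum_add_distrib]
      refine Finset.sum_congr rfl fun j _ => ?_
      split_ifs
      · ring
      · ring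
    rw [this]
    ring
  have h2 : ∑ x, ((starRingEnd ℂ) (onW W (s - sst J W f) x) *
      ∑ y, (J x y : ℂ) * (f + onW W (sst J W f)) y).re = 0 := by
    rw [sq_bil_onW]
    refine Finset.sum_eq_zero fun j _ => ?_
    have h3 : ∑ y, (J (W j) y : ℂ) * (f + onW W (sst J W f)) y = 0 := by
      simp only [Pi.add_apply, mul_add, Finset.sum_add_distrib]
      rw [sq_row_onW, sst_eq hc hK, add_neg_cancel]
    rw [h3, mul_zero, Complex.zero_re]
  rw [h1, qf_add hs, h2, mul_zero, add_zero, qf_onW hW]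
  have h4 := hK (s - sst J W f)
  have h5 := hJ (f + onW W (sst J W f))
  simp only [Pi.sub_apply] at h4
  linarith

theorem sst_add (f g : ι → ℂ) : sst J W (f + g) = sst J W f + sst J W g := by
  funext j
  simp only [sst, Pi.add_apply, mul_add, Finset.sum_add_distrib, neg_add]

theorem sst_smul (a : ℂ) (f : ι → ℂ) : sst J W (a • f) = a • sst J W f := by
  funext j
  simp only [sst, Pi.smul_apply, smul_eq_mul, mul_neg, Finset.mul_sum]
  congr 1
  refine Finset.sum_congr rfl fun i _ => Finset.sum_congr rfl fun y _ => ?_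
  ring

theorem sst_bound {c : ℝ} (hc : 0 < c)
    (hK : ∀ v : κ → ℂ, c * ∑ j, ‖v j‖ ^ 2 ≤ qf (J.submatrix W W) v) {g : ι → ℂ} {m : ℝ}
    (hm : 0 ≤ m) (hg : ∀ j, ‖∑ y, (J (W j) y : ℂ) * g y‖ ≤ m) :
    ∑ j, ‖sst J W g j‖ ^ 2 ≤ Fintype.card κ * m ^ 2 / c ^ 2 := by
  set S := ∑ j, ‖sst J W g j‖ ^ 2 with hS
  set T := ∑ j, ‖sst J W g j‖ with hT
  have hS0 : 0 ≤ S := Finset.sum_nonneg fun _ _ => sq_nonneg _
  have hT0 : 0 ≤ T := Finset.sum_nonneg fun _ _ => norm_nonneg _
  have h1 : c * S ≤ m * T := by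
    refine (hK (sst J W g)).trans ?_
    rw [qf_re, hT, Finset.mul_sum]
    refine Finset.sum_le_sum fun j _ => ?_
    have h2 : ∑ y, ((J.submatrix W W) j y : ℂ) * sst J W g y = -∑ y, (J (W j) y : ℂ) * g y :=
      sst_eq hc hK g j
    rw [h2]
    refine (Complex.re_le_norm _).trans ?_
    rw [norm_mul, norm_neg, RCLike.norm_conj, mul_comm]
    exact mul_le_mul_of_nonneg_right (hg j) (norm_nonneg _)
  have h2 : T ^ 2 ≤ Fintype.card κ * S := by
    have := sq_sum_le_card_mul_sum_sq (s := (Finset.univ : Finset κ))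
      (f := fun j => ‖sst J W g j‖)
    rwa [Finset.card_univ] at this
  rw [le_div_iff₀ (by positivity)]
  rcases hS0.eq_or_lt with h0 | hpos
  · rw [← h0, zero_mul]
    positivity
  · have h3 : (c * S) ^ 2 ≤ (m * T) ^ 2 := pow_le_pow_left₀ (by positivity) h1 2
    have h4 : (m * T) ^ 2 ≤ m ^ 2 * (Fintype.card κ * S) := by
      rw [mul_pow]
      exact mul_le_mul_of_nonneg_left h2 (sq_nonneg m)
    have h5 : (S * c ^ 2) * S ≤ (Fintype.card κ * m ^ 2) * S := by
      calc (S * c ^ 2) * S = (c * S) ^ 2 := by ring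
        _ ≤ m ^ 2 * (Fintype.card κ * S) := h3.trans h4
        _ = (Fintype.card κ * m ^ 2) * S := by ring
    exact le_of_mul_le_mul_right h5 hpos

end Pool.Agent.ANL
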