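import Pool.Agent.ANL.Cover

/-! # ANL COVERPROB: probability of the exceptional set for fixed forms

Paper proof.  With `S` of `cover`, the set is contained in the union over `t ∈ S` of the boxes `{h | ∀ j, |h j - t j| ≤ 3ε}`
`= Set.pi univ (fun j => {x | |x - t j| ≤ 3ε})`; `Measure.pi_pi` gives measure `∏_j ν_j {..} ≤ q^N` for each box
(`measure_biUnion_finset_le`).
-/

open Matrix Finset MeasureTheory

noncomputable section

namespace Pool.Agent.ANL

variable {κ β : Type} [Fintype κ] [DecidableEq κ] [Fintype β]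

private theorem coverprob_gen {E : κ → Type} [∀ j, MeasurableSpace (E j)] (A B : Matrix κ β ℂ)
    {ε B0 : ℝ} (hε : 0 < ε) (hB : 0 ≤ B0)
    (ν : ∀ j, Measure (E j)) [∀ j, IsProbabilityMeasure (ν j)] (X : ∀ j, E j → ℝ) {q : ℝ}
    (hq : 0 ≤ q) (hν : ∀ j t, ν j {e | |X j e - t| ≤ 3 * ε} ≤ ENNReal.ofReal q) :
    Measure.pi ν {w | (∀ j, |X j (w j)| ≤ B0) ∧ Hit A B ε (fun j => X j (w j))} ≤
      ENNReal.ofReal (2 ^ Fintype.card κ *
        (8 * (Fintype.card κ + 1) * (B0 / ε + 4)) ^ (2 * Fintype.card β) *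
          q ^ Fintype.card κ) := by
  obtain ⟨S, hS, hcov⟩ := cover A B hε hB
  have h1 : {w : ∀ j, E j | (∀ j, |X j (w j)| ≤ B0) ∧ Hit A B ε (fun j => X j (w j))} ⊆
      ⋃ t ∈ S, Set.pi Set.univ fun j => {e : E j | |X j e - t j| ≤ 3 * ε} := by
    rintro w ⟨hw1, hw2⟩
    obtain ⟨t, ht, h2⟩ := hcov (fun j => X j (w j)) hw1 hw2
    simp only [Set.mem_iUnion]
    exact ⟨t, ht, fun j _ => h2 j⟩
  refine (measure_mono h1).trans ((measure_biUnion_finset_le _ _).trans ?_)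
  have h2 : ∀ t ∈ S, Measure.pi ν (Set.pi Set.univ fun j => {e : E j | |X j e - t j| ≤ 3 * ε}) ≤
      ENNReal.ofReal (q ^ Fintype.card κ) := by
    intro t _
    rw [Measure.pi_pi, ENNReal.ofReal_pow hq, ← Finset.card_univ, ← Finset.prod_const]
    exact Finset.prod_le_prod' fun j _ => hν j (t j)
  refine (Finset.sum_le_sum h2).trans ?_
  rw [Finset.sum_const, nsmul_eq_mul, ← ENNReal.ofReal_natCast, ← ENNReal.ofReal_mul
    (Nat.cast_nonneg _)]
  exact ENNReal.ofReal_le_ofReal (mul_le_mul_of_nonneg_right hS (pow_nonneg hq _))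

theorem cover_prob (A B : Matrix κ β ℂ) {ε B0 : ℝ} (hε : 0 < ε) (hB : 0 ≤ B0)
    (ν : κ → Measure ℝ) [∀ j, IsProbabilityMeasure (ν j)] {q : ℝ} (hq : 0 ≤ q)
    (hν : ∀ j t, ν j {x | |x - t| ≤ 3 * ε} ≤ ENNReal.ofReal q) :
    Measure.pi ν {h | (∀ j, |h j| ≤ B0) ∧ Hit A B ε h} ≤
      ENNReal.ofReal (2 ^ Fintype.card κ *
        (8 * (Fintype.card κ + 1) * (B0 / ε + 4)) ^ (2 * Fintype.card β) *
          q ^ Fintype.card κ) :=
  coverprob_gen A B hε hB ν (fun _ x => x) hq hν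

/-- version with a general product space carrying the variables `X j` -/
theorem cover_prob' {E : κ → Type} [∀ j, MeasurableSpace (E j)] (A B : Matrix κ β ℂ)
    {ε B0 : ℝ} (hε : 0 < ε) (hB : 0 ≤ B0)
    (ν : ∀ j, Measure (E j)) [∀ j, IsProbabilityMeasure (ν j)] (X : ∀ j, E j → ℝ) {q : ℝ}
    (hq : 0 ≤ q) (hν : ∀ j t, ν j {e | |X j e - t| ≤ 3 * ε} ≤ ENNReal.ofReal q) :
    Measure.pi ν {w | (∀ j, |X j (w j)| ≤ B0) ∧ Hit A B ε (fun j => X j (w j))} ≤
      ENNReal.ofReal (2 ^ Fintype.card κ *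
        (8 * (Fintype.card κ + 1) * (B0 / ε + 4)) ^ (2 * Fintype.card β) *
          q ^ Fintype.card κ) :=
  coverprob_gen A B hε hB ν X hq hν

end Pool.Agent.ANL
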