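import Pool.Agent.APS.SCWard

/-! # ANL: leak lemma and exact insertion calculus, definitions
(/team-store/and_h36_leak.md section 1, /team-store/and_ref_helper15.md section 1)

`H` is a real symmetric matrix, `b` a complex vector with `Im b ≤ 0` (zero is allowed), and
`rsc H b = (H + diag b)⁻¹` is the resolvent of the APS library.
-/

open Matrix Finset

noncomputable section

namespace Pool.Agent.ANL

open Pool.Agent.Kin Pool.Agent.APS

variable {ι : Type} [Fintype ι] [DecidableEq ι]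

/-- `H` is real symmetric, `Im b ≤ 0` and `H + diag b` is invertible -/
structure Adm (H : Matrix ι ι ℂ) (b : ι → ℂ) : Prop where
  sym : RealSym H
  im : ∀ x, (b x).im ≤ 0
  unit : IsUnit (H + diagonal b).det

/-- `ψ` solves `(H + diag b) ψ = 0` outside `F` -/
def IsWave (H : Matrix ι ι ℂ) (b : ι → ℂ) (F : Finset ι) (ψ : ι → ℂ) : Prop :=
  ∀ x, x ∉ F → ((H + diagonal b) *ᵥ ψ) x = 0

/-- the power absorbed outside `F` -/
def leak (b : ι → ℂ) (F : Finset ι) (ψ : ι → ℂ) : ℝ :=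
  ∑ x ∈ Fᶜ, (-(b x).im) * ‖ψ x‖ ^ 2

/-- the quadratic form of a real matrix on complex vectors -/
def qf {κ : Type} [Fintype κ] (J : Matrix κ κ ℝ) (q : κ → ℂ) : ℝ :=
  ∑ x, ∑ y, J x y * ((q x).re * (q y).re + (q x).im * (q y).im)

/-- `Im G`, entrywise -/
def JM (H : Matrix ι ι ℂ) (b : ι → ℂ) : Matrix ι ι ℝ := fun x y => (rsc H b x y).im

open Classical in
/-- the two-sided boundary of `D` -/
def bdy (H : Matrix ι ι ℂ) (D : Finset ι) : Finset ι :=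
  univ.filter fun x => ∃ y, H x y ≠ 0 ∧ (x ∈ D ↔ y ∉ D)

omit [Fintype ι] in
/-- `ψ` cut off outside `D` -/
def cut (D : Finset ι) (ψ : ι → ℂ) : ι → ℂ := fun x => if x ∈ D then 0 else ψ x

/-- the source `(H + diag b) (cut D ψ)` of a wave -/
def src (H : Matrix ι ι ℂ) (D : Finset ι) (ψ : ι → ℂ) : ι → ℂ := fun x =>
  if x ∈ D then ∑ y ∈ Dᶜ, H x y * ψ y else -∑ y ∈ D, H x y * ψ y

/-- all rows of `H` have off-diagonal absolute sum at most `h0` -/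
def HopLe (H : Matrix ι ι ℂ) (h0 : ℝ) : Prop := ∀ x, ∑ y ∈ univ.erase x, ‖H x y‖ ≤ h0

/-- leverage of the hole `F` at `a` is at most `n` -/
def LevLe (H : Matrix ι ι ℂ) (b : ι → ℂ) (F : Finset ι) (a : ι) (n : ℝ) : Prop :=
  ∀ ψ, IsWave H b F ψ → ‖ψ a‖ ^ 2 ≤ n * leak b F ψ

/-- the Dirichlet problem outside `F` has no non trivial solution -/
def DirInj (H : Matrix ι ι ℂ) (b : ι → ℂ) (F : Finset ι) : Prop :=
  ∀ v : ι → ℂ, (∀ x ∈ F, v x = 0) → (∀ x, x ∉ F → ((H + diagonal b) *ᵥ v) x = 0) → v = 0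

section forms

variable {κ : Type} [Fintype κ] [DecidableEq κ]

/-- the minimiser `s* = - (J_WW)⁻¹ (J f)_W` -/
def sst (J : Matrix ι ι ℝ) (W : κ → ι) (f : ι → ℂ) : κ → ℂ := fun j =>
  -∑ i, (((J.submatrix W W)⁻¹ j i : ℝ) : ℂ) * ∑ y, (J (W i) y : ℂ) * f y

/-- `β(φ) = s*(φ)` -/
def bet (H : Matrix ι ι ℂ) (b : ι → ℂ) (W : κ → ι) (φ : ι → ℂ) : κ → ℂ := sst (JM H b) W φ

/-- `α(φ) = (G φ)_W + G_WW β(φ)` -/
def alp (H : Matrix ι ι ℂ) (b : ι → ℂ) (W : κ → ι) (φ : ι → ℂ) : κ → ℂ := fun j =>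
  (rsc H b *ᵥ φ) (W j) + ∑ i, rsc H b (W j) (W i) * bet H b W φ i

/-- the vector `h` (indexed by `κ`) as a vector on `ι` along `W` -/
def onW (W : κ → ι) (h : κ → ℂ) : ι → ℂ := fun x => ∑ j, if W j = x then h j else 0

/-- `h` lies in the exceptional set of the forms `A φ`, `B φ` -/
def Hit {β : Type} [Fintype β] (A B : Matrix κ β ℂ) (ε : ℝ) (h : κ → ℝ) : Prop :=
  ∃ φ : β → ℂ, ∀ j, (A *ᵥ φ) j ≠ 0 ∧
    ‖(h j : ℂ) * (A *ᵥ φ) j + (B *ᵥ φ) j‖ ≤ ε * ‖(A *ᵥ φ) j‖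

/-- matrix of `β` on vectors supported in `S` -/
def Bmt (H : Matrix ι ι ℂ) (b : ι → ℂ) (W : κ → ι) (S : Finset ι) : Matrix κ ↥S ℂ := fun j y =>
  bet H b W (Pi.single y.1 1) j

/-- matrix of `α` on vectors supported in `S` -/
def Amt (H : Matrix ι ι ℂ) (b : ι → ℂ) (W : κ → ι) (S : Finset ι) : Matrix κ ↥S ℂ := fun j y =>
  alp H b W (Pi.single y.1 1) j

end forms

end Pool.Agent.ANL
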