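import Pool.Agent.ANL.Base
import Pool.Agent.ANL.Cut
import Pool.Agent.ANL.Square

/-! # ANL DET: small leak forces the potentials at `W` to hit given numbers

Setting: `ψ` a wave for `F` and the TRUE vector `b`; `F ⊆ D`; `W : κ → ι` injective with values outside `D`; `h : κ → ℝ`.
`b0` is the vector without the potentials `h` at `W`: outside `D`, `b = b0 + onW W h + δ` with `‖δ x‖ ≤ ϑ (-(b0 x).im)`
(`δ` is the change of the self-consistent counterterm; `b0` may be anything admissible inside `D`).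
`G0 = rsc H b0`, `J0 = JM H b0`, `φ = src H D ψ`, `l` a bound of `leak b D ψ`.

Paper proof of `det_leak`.  `c' := cut D ψ`, `s_j := - h_j ψ_{W j}`, `e_x := - δ_x c'_x`.
(1) `(H + diag b0) c' = (H + diag b) c' - (b - b0) c' = φ + onW s + e` (inside `D` both sides do not see `b`, since `c' = 0` there;
    `cut_src`).  So `c' = G0 (φ + onW s + e)` (`res_src`).
(2) `-(b x).im ≥ (1-ϑ)(-(b0 x).im) ≥ (1/2)(-(b0 x).im)` outside `D` (`h` real), so `p0 := ∑_x -(b0 x).im ‖c'_x‖² ≤ 2 l`, and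
    `p0 = qf J0 (φ + e + onW s)` by `power`.
(3) `square` with `f = φ + e`:  `c ∑ |s_j - sst(φ)_j - sst(e)_j|² ≤ p0`.
(4) for every `w = W j`: `‖∑_y J0 w y e_y‖ ≤ ∑_y ‖G0 w y‖ ϑ (-(b0 y).im) ‖c'_y‖ ≤ ϑ (Im G0_ww)^(1/2) p0^(1/2) ≤ ϑ (C2 p0)^(1/2)` (Cauchy-Schwarz
    and `ward`; `|J0 w y| ≤ ‖G0 w y‖`), and in the same way `‖(G0 e)_w‖ ≤ ϑ (C2 p0)^(1/2)`.
    `sst_bound`: `∑ |sst(e)_j|² ≤ card κ ϑ² C2 p0/c² ≤ C2 p0/c²` (`card κ · ϑ² ≤ 1`).
(5) so `(∑ |s_j - bet_j|²)^(1/2) ≤ (p0/c)^(1/2) + (C2 p0)^(1/2)/c ≤ 2 C2^(1/2) p0^(1/2)/c =: A p0^(1/2)` (`c ≤ 1 ≤ C2`).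
(6) `ψ_{W j} = c'_{W j} = (G0 φ)_{W j} + ∑_i G0_{ji} s_i + (G0 e)_{W j}`, `alp_j = (G0 φ)_{W j} + ∑_i G0_{ji} bet_i`, so by `hop`
    `‖ψ_{W j} - alp_j‖ ≤ C2 A p0^(1/2) + ϑ (C2 p0)^(1/2) ≤ (3 C2²/c) p0^(1/2)`  (`ϑ ≤ 1`).
(7) `h_j alp_j + bet_j = h_j (alp_j - ψ_{W j}) + (bet_j - s_j)`, `|h_j| ≤ 1`: norm `≤ (3 C2²/c + 2 C2/c) p0^(1/2) ≤ (5 C2²/c) p0^(1/2)`.
    Finally `p0^(1/2) ≤ 2^(1/2) l^(1/2)` and `5 · 2^(1/2) ≤ 12`.
-/

open Matrix Finset

noncomputable section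

namespace Pool.Agent.ANL

open Pool.Agent.Kin Pool.Agent.APS

variable {ι : Type} [Fintype ι] [DecidableEq ι] {κ : Type} [Fintype κ] [DecidableEq κ]
  {H : Matrix ι ι ℂ} {b b0 : ι → ℂ} {F D : Finset ι} {ψ : ι → ℂ} {W : κ → ι}

/-- bounds of the reduced resolvent on `W` -/
structure Red (H : Matrix ι ι ℂ) (b0 : ι → ℂ) (W : κ → ι) (c C2 : ℝ) : Prop where
  adm : Adm H b0
  inj : Function.Injective W
  form : ∀ v : κ → ℂ, c * ∑ j, ‖v j‖ ^ 2 ≤ qf ((JM H b0).submatrix W W) v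
  diag : ∀ j, (rsc H b0 (W j) (W j)).im ≤ C2
  op : ∀ v : κ → ℂ, ∑ j, ‖∑ i, rsc H b0 (W j) (W i) * v i‖ ^ 2 ≤ C2 ^ 2 * ∑ j, ‖v j‖ ^ 2

omit [DecidableEq κ] in
private theorem det_onW_re (W : κ → ι) (h : κ → ℝ) (x : ι) :
    (onW W (fun j => (h j : ℂ)) x).im = 0 := by
  unfold onW
  rw [Complex.im_sum]
  refine Finset.sum_eq_zero fun j _ => ?_
  split_ifs <;> simp

omit [DecidableEq κ] in
/-- the equation for the cut off wave -/
private theorem det_eqn (hF : F ⊆ D) (hW : ∀ j, W j ∉ D) (hψ : IsWave H b F ψ) (h : κ → ℝ) :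
    (H + diagonal b0) *ᵥ (cut D ψ) = src H D ψ + (fun x =>
      -((b x - b0 x - onW W (fun j => (h j : ℂ)) x) * cut D ψ x)) +
        onW W (fun j => -((h j : ℂ) * ψ (W j))) := by
  have h1 := cut_src (H := H) (b := b) hF hψ
  funext x
  have h2 : ((H + diagonal b0) *ᵥ (cut D ψ)) x =
      ((H + diagonal b) *ᵥ (cut D ψ)) x - (b x - b0 x) * cut D ψ x := by
    rw [Matrix.add_mulVec, Matrix.add_mulVec, Pi.add_apply, Pi.add_apply, Matrix.mulVec_diagonal,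
      Matrix.mulVec_diagonal]
    ring
  have h3 : onW W (fun j => -((h j : ℂ) * ψ (W j))) x =
      -(onW W (fun j => (h j : ℂ)) x * cut D ψ x) := by
    unfold onW
    rw [Finset.sum_mul, ← Finset.sum_neg_distrib]
    refine Finset.sum_congr rfl fun j _ => ?_
    by_cases hj : W j = x
    · subst hj
      rw [if_pos rfl, if_pos rfl]
      unfold cut
      rw [if_neg (hW j)]
    · rw [if_neg hj, if_neg hj, zero_mul, neg_zero]
  rw [h2, h1, Pi.add_apply, Pi.add_apply, h3]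
  ring

omit [DecidableEq ι] in
private theorem det_cs (β g u : ι → ℝ) (hβ : ∀ x, 0 ≤ β x) {A B : ℝ}
    (hA : ∑ x, β x * g x ^ 2 ≤ A) (hB : ∑ x, β x * u x ^ 2 ≤ B) (hA0 : 0 ≤ A) :
    (∑ x, β x * (g x * u x)) ^ 2 ≤ A * B := by
  have h1 := Finset.sum_mul_sq_le_sq_mul_sq Finset.univ (fun x => √(β x) * g x)
    (fun x => √(β x) * u x)
  have e1 : ∀ x, (√(β x) * g x) * (√(β x) * u x) = β x * (g x * u x) := by
    intro x
    have : √(β x) * √(β x) = β x := Real.mul_self_sqrt (hβ x)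
    calc (√(β x) * g x) * (√(β x) * u x) = (√(β x) * √(β x)) * (g x * u x) := by ring
      _ = _ := by rw [this]
  have e2 : ∀ x, (√(β x) * g x) ^ 2 = β x * g x ^ 2 := fun x => by
    rw [mul_pow, Real.sq_sqrt (hβ x)]
  have e3 : ∀ x, (√(β x) * u x) ^ 2 = β x * u x ^ 2 := fun x => by
    rw [mul_pow, Real.sq_sqrt (hβ x)]
  simp only [e1, e2, e3] at h1
  refine h1.trans ?_
  refine mul_le_mul hA hB (Finset.sum_nonneg fun x _ => mul_nonneg (hβ x) (sq_nonneg _)) hA0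

theorem det_leak {c C2 ϑ l : ℝ} (hR : Red H b0 W c C2) (hc : 0 < c) (hc1 : c ≤ 1) (hC : 1 ≤ C2)
    (hF : F ⊆ D) (hW : ∀ j, W j ∉ D) (hψ : IsWave H b F ψ) (hb : ∀ x, (b x).im ≤ 0)
    (hϑ : 0 ≤ ϑ) (hϑ2 : ϑ ≤ 1 / 2) (hϑN : Fintype.card κ * ϑ ^ 2 ≤ 1)
    {h : κ → ℝ} (hh : ∀ j, |h j| ≤ 1)
    (hδ : ∀ x, x ∉ D → ‖b x - b0 x - onW W (fun j => (h j : ℂ)) x‖ ≤ ϑ * (-(b0 x).im))
    (hl : leak b D ψ ≤ l) (j : κ) :
    ‖ψ (W j) - alp H b0 W (src H D ψ) j‖ ≤ 12 * C2 ^ 2 / c * √l ∧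
    ‖(h j : ℂ) * alp H b0 W (src H D ψ) j + bet H b0 W (src H D ψ) j‖ ≤
      12 * C2 ^ 2 / c * √l := by
  have hβ : ∀ x, 0 ≤ -(b0 x).im := fun x => neg_nonneg.2 (hR.adm.im x)
  have hl0 : 0 ≤ l := (leak_nonneg hb).trans hl
  have hC0 : 0 < C2 := by linarith
  -- the source
  obtain ⟨e, he⟩ : ∃ e : ι → ℂ, e = fun x =>
      -((b x - b0 x - onW W (fun j => (h j : ℂ)) x) * cut D ψ x) := ⟨_, rfl⟩
  obtain ⟨s, hs⟩ : ∃ s : κ → ℂ, s = fun j => -((h j : ℂ) * ψ (W j)) := ⟨_, rfl⟩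
  have heqn := det_eqn (b0 := b0) hF hW hψ h
  rw [← he, ← hs] at heqn
  have hcut : rsc H b0 *ᵥ (src H D ψ + e + onW W s) = cut D ψ := by
    rw [← heqn]
    exact res_src hR.adm _
  -- the energy
  obtain ⟨p0, hp0⟩ : ∃ p0 : ℝ, p0 = ∑ x, (-(b0 x).im) * ‖cut D ψ x‖ ^ 2 := ⟨_, rfl⟩
  have hp00 : 0 ≤ p0 := by
    rw [hp0]
    exact Finset.sum_nonneg fun x _ => mul_nonneg (hβ x) (sq_nonneg _)
  have hpow : p0 = qf (JM H b0) (src H D ψ + e + onW W s) := by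
    rw [← power hR.adm, hcut, hp0]
  have hp2 : p0 ≤ 2 * l := by
    refine le_trans ?_ (mul_le_mul_of_nonneg_left hl (by norm_num : (0 : ℝ) ≤ 2))
    rw [hp0, leak_cut, Finset.mul_sum]
    refine Finset.sum_le_sum fun x _ => ?_
    by_cases hx : x ∈ D
    · unfold cut
      rw [if_pos hx]
      simp
    · have h1 := hδ x hx
      have h2 := Complex.abs_im_le_norm (b x - b0 x - onW W (fun j => (h j : ℂ)) x)
      have h3 : (b x - b0 x - onW W (fun j => (h j : ℂ)) x).im = (b x).im - (b0 x).im := by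
        rw [Complex.sub_im, Complex.sub_im, det_onW_re, sub_zero]
      rw [h3] at h2
      have h4 := (le_abs_self _).trans (h2.trans h1)
      have h5 : -(b0 x).im ≤ 2 * (-(b x).im) := by nlinarith [hβ x]
      rw [← mul_assoc]
      exact mul_le_mul_of_nonneg_right h5 (sq_nonneg _)
  -- errors
  have herr : ∀ (w : κ) (a : ι → ℂ), (∀ y, ‖a y‖ ≤ ‖rsc H b0 (W w) y‖) →
      ‖∑ y, a y * e y‖ ≤ ϑ * √(C2 * p0) := by
    intro w a ha
    have h1 : ‖∑ y, a y * e y‖ ≤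
        ϑ * ∑ y, (-(b0 y).im) * (‖rsc H b0 (W w) y‖ * ‖cut D ψ y‖) := by
      rw [Finset.mul_sum]
      refine (norm_sum_le _ _).trans (Finset.sum_le_sum fun y _ => ?_)
      rw [norm_mul]
      by_cases hy : y ∈ D
      · have h2 : cut D ψ y = 0 := by
          unfold cut
          rw [if_pos hy]
        have h3 : e y = 0 := by rw [he]; simp only [h2, mul_zero, neg_zero]
        rw [h3, h2, norm_zero, mul_zero, mul_zero, mul_zero, mul_zero]
      · have h3 : ‖e y‖ ≤ ϑ * (-(b0 y).im) * ‖cut D ψ y‖ := by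
          rw [he]
          simp only
          rw [norm_neg, norm_mul]
          exact mul_le_mul_of_nonneg_right (hδ y hy) (norm_nonneg _)
        calc ‖a y‖ * ‖e y‖ ≤ ‖rsc H b0 (W w) y‖ * (ϑ * (-(b0 y).im) * ‖cut D ψ y‖) :=
              mul_le_mul (ha y) h3 (norm_nonneg _) (norm_nonneg _)
          _ = ϑ * ((-(b0 y).im) * (‖rsc H b0 (W w) y‖ * ‖cut D ψ y‖)) := by ring
    refine h1.trans (mul_le_mul_of_nonneg_left ?_ hϑ)
    refine Real.le_sqrt_of_sq_le ?_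
    refine det_cs _ _ _ hβ ?_ (le_of_eq hp0.symm) hC0.le
    rw [← ward hR.adm]
    exact hR.diag w
  have hm : 0 ≤ ϑ * √(C2 * p0) := mul_nonneg hϑ (Real.sqrt_nonneg _)
  have hm2 : (ϑ * √(C2 * p0)) ^ 2 = ϑ ^ 2 * (C2 * p0) := by
    rw [mul_pow, Real.sq_sqrt (mul_nonneg hC0.le hp00)]
  -- completing the square
  have hsq := square (JM_symm hR.adm) (JM_psd hR.adm) hR.inj hc hR.form (src H D ψ + e) s
  rw [← hpow, sst_add] at hsq
  have hsst := sst_bound (J := JM H b0) (W := W) hc hR.form (g := e) hm (fun w =>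
    herr w (fun y => ((JM H b0 (W w) y : ℝ) : ℂ)) fun y => by
      rw [Complex.norm_real]
      exact Complex.abs_im_le_norm _)
  have hsst' : ∑ i, ‖sst (JM H b0) W e i‖ ^ 2 ≤ C2 * p0 / c ^ 2 := by
    refine hsst.trans ?_
    rw [hm2]
    refine div_le_div_of_nonneg_right ?_ (by positivity)
    have h1 : (Fintype.card κ : ℝ) * (ϑ ^ 2 * (C2 * p0)) = (Fintype.card κ * ϑ ^ 2) * (C2 * p0) := by
      ring
    rw [h1]
    exact mul_le_of_le_one_left (mul_nonneg hC0.le hp00) hϑN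
  have hbet : ∑ i, ‖s i - bet H b0 W (src H D ψ) i‖ ^ 2 ≤ 4 * (C2 * p0 / c ^ 2) := by
    have h1 : ∀ i, ‖s i - bet H b0 W (src H D ψ) i‖ ^ 2 ≤
        2 * ‖s i - (sst (JM H b0) W (src H D ψ) + sst (JM H b0) W e) i‖ ^ 2 +
        2 * ‖sst (JM H b0) W e i‖ ^ 2 := by
      intro i
      have h2 : s i - bet H b0 W (src H D ψ) i =
          (s i - (sst (JM H b0) W (src H D ψ) + sst (JM H b0) W e) i) + sst (JM H b0) W e i := by
        unfold bet
        rw [Pi.add_apply]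
        ring
      have h3 := norm_add_le (s i - (sst (JM H b0) W (src H D ψ) + sst (JM H b0) W e) i)
        (sst (JM H b0) W e i)
      rw [← h2] at h3
      have h4 := norm_nonneg (s i - bet H b0 W (src H D ψ) i)
      nlinarith [sq_nonneg (‖s i - (sst (JM H b0) W (src H D ψ) + sst (JM H b0) W e) i‖ -
        ‖sst (JM H b0) W e i‖)]
    have h2 : ∑ i, ‖s i - (sst (JM H b0) W (src H D ψ) + sst (JM H b0) W e) i‖ ^ 2 ≤
        C2 * p0 / c ^ 2 := by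
      have h3 : ∑ i, ‖s i - (sst (JM H b0) W (src H D ψ) + sst (JM H b0) W e) i‖ ^ 2 ≤ p0 / c := by
        rw [le_div_iff₀ hc, mul_comm]
        exact hsq
      refine h3.trans ?_
      rw [div_le_div_iff₀ hc (by positivity)]
      have h4 : c ^ 2 ≤ C2 * c := by nlinarith
      calc p0 * c ^ 2 ≤ p0 * (C2 * c) := mul_le_mul_of_nonneg_left h4 hp00
        _ = C2 * p0 * c := by ring
    calc _ ≤ ∑ i, (2 * ‖s i - (sst (JM H b0) W (src H D ψ) + sst (JM H b0) W e) i‖ ^ 2 +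
          2 * ‖sst (JM H b0) W e i‖ ^ 2) := Finset.sum_le_sum fun i _ => h1 i
      _ = 2 * ∑ i, ‖s i - (sst (JM H b0) W (src H D ψ) + sst (JM H b0) W e) i‖ ^ 2 +
          2 * ∑ i, ‖sst (JM H b0) W e i‖ ^ 2 := by
          rw [Finset.sum_add_distrib, Finset.mul_sum, Finset.mul_sum]
      _ ≤ _ := by linarith
  -- square roots
  obtain ⟨P, hP⟩ : ∃ P : ℝ, P = √p0 := ⟨_, rfl⟩
  obtain ⟨S, hS⟩ : ∃ S : ℝ, S = √C2 := ⟨_, rfl⟩
  have hP0 : 0 ≤ P := hP ▸ Real.sqrt_nonneg _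
  have hS0 : 0 ≤ S := hS ▸ Real.sqrt_nonneg _
  have hP2 : P ^ 2 = p0 := by rw [hP, Real.sq_sqrt hp00]
  have hS2 : S ^ 2 = C2 := by rw [hS, Real.sq_sqrt hC0.le]
  have hS1 : 1 ≤ S := by
    rw [hS]
    exact Real.one_le_sqrt.2 hC
  have hSC : S ≤ C2 := by nlinarith
  have hCC : C2 ≤ C2 ^ 2 := by nlinarith
  have hPl : P ≤ 2 * √l := by
    rw [hP]
    refine Real.sqrt_le_iff.2 ⟨by positivity, ?_⟩
    rw [mul_pow, Real.sq_sqrt hl0]
    linarith
  have hX : ∀ i, ‖s i - bet H b0 W (src H D ψ) i‖ ≤ 2 * S * P / c := by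
    intro i
    refine le_of_sq_le_sq ?_ (by positivity)
    refine (Finset.single_le_sum (f := fun i => ‖s i - bet H b0 W (src H D ψ) i‖ ^ 2)
      (fun i _ => sq_nonneg _) (Finset.mem_univ i)).trans (hbet.trans (le_of_eq ?_))
    rw [div_pow, mul_pow, mul_pow, hS2, hP2]
    ring
  have hY : ‖∑ i, rsc H b0 (W j) (W i) * (s i - bet H b0 W (src H D ψ) i)‖ ≤
      2 * C2 * S * P / c := by
    refine le_of_sq_le_sq ?_ (by positivity)
    have h1 := hR.op (fun i => s i - bet H b0 W (src H D ψ) i)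
    refine (Finset.single_le_sum
      (f := fun j => ‖∑ i, rsc H b0 (W j) (W i) * (s i - bet H b0 W (src H D ψ) i)‖ ^ 2)
      (fun i _ => sq_nonneg _) (Finset.mem_univ j)).trans (h1.trans ?_)
    refine (mul_le_mul_of_nonneg_left hbet (by positivity)).trans (le_of_eq ?_)
    rw [div_pow, mul_pow, mul_pow, mul_pow, hS2, hP2]
    ring
  have hZ : ‖(rsc H b0 *ᵥ e) (W j)‖ ≤ ϑ * (S * P) := by
    have h1 := herr j (fun y => rsc H b0 (W j) y) fun y => le_rfl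
    rw [Real.sqrt_mul hC0.le, ← hS, ← hP] at h1
    exact h1
  -- the value at `W j`
  have hval : ψ (W j) - alp H b0 W (src H D ψ) j =
      (∑ i, rsc H b0 (W j) (W i) * (s i - bet H b0 W (src H D ψ) i)) +
        (rsc H b0 *ᵥ e) (W j) := by
    have h1 := congrFun hcut (W j)
    have h2 : cut D ψ (W j) = ψ (W j) := by
      unfold cut
      rw [if_neg (hW j)]
    have h3 : (rsc H b0 *ᵥ onW W s) (W j) = ∑ i, rsc H b0 (W j) (W i) * s i := by
      show ∑ y, rsc H b0 (W j) y * onW W s y = _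
      unfold onW
      simp only [Finset.mul_sum]
      rw [Finset.sum_comm]
      refine Finset.sum_congr rfl fun i _ => ?_
      simp
    rw [h2, Matrix.mulVec_add, Matrix.mulVec_add, Pi.add_apply, Pi.add_apply, h3] at h1
    rw [← h1]
    unfold alp
    simp only [mul_sub, Finset.sum_sub_distrib]
    ring
  have hK0 : 0 ≤ C2 ^ 2 / c := by positivity
  have hb1 : 2 * C2 * S * P / c ≤ 2 * (C2 ^ 2 / c) * P := by
    have h1 : 2 * C2 * S * P / c = 2 * (C2 * S / c) * P := by ring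
    rw [h1]
    have h2 : C2 * S / c ≤ C2 ^ 2 / c := by
      refine div_le_div_of_nonneg_right ?_ hc.le
      nlinarith
    exact mul_le_mul_of_nonneg_right (by linarith) hP0
  have hb2 : ϑ * (S * P) ≤ (C2 ^ 2 / c) * P := by
    have h1 : ϑ * S ≤ C2 ^ 2 / c := by
      rw [le_div_iff₀ hc]
      have h2 : ϑ * S ≤ C2 ^ 2 := by nlinarith
      nlinarith [mul_nonneg hϑ hS0]
    calc ϑ * (S * P) = (ϑ * S) * P := by ring
      _ ≤ _ := mul_le_mul_of_nonneg_right h1 hP0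
  have hb3 : 2 * S * P / c ≤ 2 * (C2 ^ 2 / c) * P := by
    have h1 : 2 * S * P / c = 2 * (S / c) * P := by ring
    rw [h1]
    have h2 : S / c ≤ C2 ^ 2 / c := div_le_div_of_nonneg_right (hSC.trans hCC) hc.le
    exact mul_le_mul_of_nonneg_right (by linarith) hP0
  have hfirst : ‖ψ (W j) - alp H b0 W (src H D ψ) j‖ ≤ 3 * (C2 ^ 2 / c) * P := by
    rw [hval]
    refine (norm_add_le _ _).trans ?_
    linarith
  have hPl' : (C2 ^ 2 / c) * P ≤ (C2 ^ 2 / c) * (2 * √l) := mul_le_mul_of_nonneg_left hPl hK0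
  have hKl : 12 * C2 ^ 2 / c * √l = 12 * ((C2 ^ 2 / c) * √l) := by ring
  have hKl0 : 0 ≤ (C2 ^ 2 / c) * √l := by positivity
  constructor
  · rw [hKl]
    linarith
  · have h1 : (h j : ℂ) * alp H b0 W (src H D ψ) j + bet H b0 W (src H D ψ) j =
        -((h j : ℂ) * (ψ (W j) - alp H b0 W (src H D ψ) j)) -
          (s j - bet H b0 W (src H D ψ) j) := by
      rw [hs]
      ring
    rw [h1]
    refine (norm_sub_le _ _).trans ?_
    rw [norm_neg, norm_mul, Complex.norm_real, Real.norm_eq_abs]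
    have h2 : |h j| * ‖ψ (W j) - alp H b0 W (src H D ψ) j‖ ≤ 3 * (C2 ^ 2 / c) * P :=
      (mul_le_of_le_one_left (norm_nonneg _) (hh j)).trans hfirst
    have h3 := hX j
    rw [hKl]
    linarith

private theorem det_bet_lin (φ : ι → ℂ) (j : κ) :
    bet H b0 W φ j = ∑ y, bet H b0 W (Pi.single y 1) j * φ y := by
  unfold bet sst
  have h1 : ∀ (i : κ) (y : ι), ∑ y', ((JM H b0 (W i) y' : ℝ) : ℂ) * (Pi.single y 1 : ι → ℂ) y' =
      ((JM H b0 (W i) y : ℝ) : ℂ) := by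
    intro i y
    rw [Finset.sum_eq_single y]
    · rw [Pi.single_eq_same, mul_one]
    · intro y' _ hy'
      rw [Pi.single_eq_of_ne hy', mul_zero]
    · intro hy
      exact absurd (Finset.mem_univ y) hy
  simp only [h1]
  have h2 : ∀ y, (-∑ i, ((((JM H b0).submatrix W W)⁻¹ j i : ℝ) : ℂ) *
      ((JM H b0 (W i) y : ℝ) : ℂ)) * φ y =
      -∑ i, ((((JM H b0).submatrix W W)⁻¹ j i : ℝ) : ℂ) * (((JM H b0 (W i) y : ℝ) : ℂ) * φ y) := by
    intro y
    rw [neg_mul, Finset.sum_mul]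
    congr 1
    exact Finset.sum_congr rfl fun i _ => by ring
  rw [Finset.sum_congr rfl fun y _ => h2 y, Finset.sum_neg_distrib, Finset.sum_comm]
  congr 1
  exact Finset.sum_congr rfl fun i _ => Finset.mul_sum _ _ _

private theorem det_alp_lin (φ : ι → ℂ) (j : κ) :
    alp H b0 W φ j = ∑ y, alp H b0 W (Pi.single y 1) j * φ y := by
  unfold alp
  have h1 : ∀ y, (rsc H b0 *ᵥ (Pi.single y 1 : ι → ℂ)) (W j) = rsc H b0 (W j) y := by
    intro y
    rw [Matrix.mulVec_single_one]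
    rfl
  simp only [h1, add_mul, Finset.sum_add_distrib]
  congr 1
  have h2 : ∀ i, rsc H b0 (W j) (W i) * bet H b0 W φ i =
      ∑ y, rsc H b0 (W j) (W i) * bet H b0 W (Pi.single y 1) i * φ y := by
    intro i
    rw [det_bet_lin φ i, Finset.mul_sum]
    exact Finset.sum_congr rfl fun y _ => by ring
  rw [Finset.sum_congr rfl fun i _ => h2 i, Finset.sum_comm]
  exact Finset.sum_congr rfl fun y _ => (Finset.sum_mul _ _ _).symm

omit [DecidableEq ι] in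
private theorem det_restr {S : Finset ι} {φ : ι → ℂ} (hφ : ∀ x, x ∉ S → φ x = 0) (g : ι → ℂ) :
    ∑ y, g y * φ y = ∑ y : ↥S, g y.1 * φ y.1 := by
  rw [Finset.sum_coe_sort S (fun y => g y * φ y)]
  symm
  refine Finset.sum_subset (Finset.subset_univ S) fun x _ hx => ?_
  rw [hφ x hx, mul_zero]

/-- `α`, `β` of a vector supported in `S` are given by the matrices `Amt`, `Bmt` -/
theorem alp_eq {S : Finset ι} {φ : ι → ℂ} (hφ : ∀ x, x ∉ S → φ x = 0) (j : κ) :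
    alp H b0 W φ j = (Amt H b0 W S *ᵥ fun y : ↥S => φ y.1) j := by
  rw [det_alp_lin φ j, det_restr hφ]
  rfl

theorem bet_eq {S : Finset ι} {φ : ι → ℂ} (hφ : ∀ x, x ∉ S → φ x = 0) (j : κ) :
    bet H b0 W φ j = (Bmt H b0 W S *ᵥ fun y : ↥S => φ y.1) j := by
  rw [det_bet_lin φ j, det_restr hφ]
  rfl

/-- the conclusion in the form used by the counting argument -/
theorem det_hit {c C2 ϑ l p ε : ℝ} (hR : Red H b0 W c C2) (hc : 0 < c) (hc1 : c ≤ 1)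
    (hC : 1 ≤ C2) (hF : F ⊆ D) (hW : ∀ j, W j ∉ D) (hψ : IsWave H b F ψ)
    (hb : ∀ x, (b x).im ≤ 0)
    (hϑ : 0 ≤ ϑ) (hϑ2 : ϑ ≤ 1 / 2) (hϑN : Fintype.card κ * ϑ ^ 2 ≤ 1)
    {h : κ → ℝ} (hh : ∀ j, |h j| ≤ 1)
    (hδ : ∀ x, x ∉ D → ‖b x - b0 x - onW W (fun j => (h j : ℂ)) x‖ ≤ ϑ * (-(b0 x).im))
    (hl : leak b D ψ ≤ l) (hp : 0 < p) (hbig : ∀ j, p ≤ ‖ψ (W j)‖) (hε : 0 < ε) (hε1 : ε ≤ 1)
    (hlp : 24 * C2 ^ 2 / c * √l ≤ ε * p) :
    Hit (Amt H b0 W (bdy H D)) (Bmt H b0 W (bdy H D)) ε h := by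
  refine ⟨fun y => src H D ψ y.1, fun j => ?_⟩
  have hsupp : ∀ x, x ∉ bdy H D → src H D ψ x = 0 := fun x hx => src_zero hx
  rw [← alp_eq hsupp j, ← bet_eq hsupp j]
  obtain ⟨h1, h2⟩ := det_leak hR hc hc1 hC hF hW hψ hb hϑ hϑ2 hϑN hh hδ hl j
  have h3 : 24 * C2 ^ 2 / c * √l = 2 * (12 * C2 ^ 2 / c * √l) := by ring
  rw [h3] at hlp
  have h4 : ‖ψ (W j)‖ ≤ ‖ψ (W j) - alp H b0 W (src H D ψ) j‖ + ‖alp H b0 W (src H D ψ) j‖ := by
    have := norm_add_le (ψ (W j) - alp H b0 W (src H D ψ) j) (alp H b0 W (src H D ψ) j)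
    rwa [sub_add_cancel] at this
  have h5 := hbig j
  have h6 : ε * p ≤ p := mul_le_of_le_one_left hp.le hε1
  have h7 : p / 2 ≤ ‖alp H b0 W (src H D ψ) j‖ := by linarith
  refine ⟨fun h0 => ?_, ?_⟩
  · rw [h0, norm_zero] at h7
    linarith
  · have h8 : ε * (p / 2) ≤ ε * ‖alp H b0 W (src H D ψ) j‖ := mul_le_mul_of_nonneg_left h7 hε.le
    linarith

end Pool.Agent.ANL
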