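import Pool.Agent.ANL.Defs

/-! # ANL MEASHIT: measurability of the exceptional set

Paper proof.  Let `Z = (Matrix κ β ℂ) × (Matrix κ β ℂ) × (κ → ℝ)` with its Borel σ-algebra (finite dimensional, second countable, so it
is the product σ-algebra; if instances on `Matrix` are inconvenient use `κ → β → ℂ`).  For `R : ℕ` let `T_R ⊂ Z` be the set of all
`(A, B, h)` such that there is `φ : β → ℂ` with `‖φ y‖ ≤ R` for all `y` and for all `j`: `1/(R+1) ≤ ‖(A φ)_j‖` and
`‖h_j (A φ)_j + (B φ)_j‖ ≤ ε ‖(A φ)_j‖`.  It is the projection to `Z` of a closed subset of `Z × {φ | ‖φ y‖ ≤ R}` along a compact factor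
(`Set.pi univ (closedBall 0 R)`), so it is closed (`IsCompact.isClosedMap_...`, e.g. `isClosedMap_fst_of_compactSpace` on the
subtype).  `Hit` is the union of all `T_R` (finitely many nonzero numbers `(A φ)_j` are bounded below).  So `{(A,B,h) | Hit A B ε h}` is
measurable, and the set in the theorem is its preimage under the measurable map `ω ↦ (A ω, B ω, h ω)`.
-/

open Matrix Finset MeasureTheory

noncomputable section

namespace Pool.Agent.ANL

variable {κ β : Type} [Fintype κ] [DecidableEq κ] [Fintype β]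

/-- the compact pieces -/
private def TR (κ β : Type) [Fintype κ] [Fintype β] (ε : ℝ) (R : ℕ) :
    Set ((κ → β → ℂ) × (κ → β → ℂ) × (κ → ℝ)) :=
  {z | ∃ φ : β → ℂ, (∀ y, ‖φ y‖ ≤ R) ∧ ∀ j, 1 / ((R : ℝ) + 1) ≤ ‖∑ y, z.1 j y * φ y‖ ∧
    ‖(z.2.2 j : ℂ) * (∑ y, z.1 j y * φ y) + ∑ y, z.2.1 j y * φ y‖ ≤ ε * ‖∑ y, z.1 j y * φ y‖}

omit [DecidableEq κ] in
private theorem TR_closed (ε : ℝ) (R : ℕ) : IsClosed (TR κ β ε R) := by
  obtain ⟨K, hK⟩ : ∃ K : Set (β → ℂ), K = Set.pi Set.univ fun _ => Metric.closedBall 0 (R : ℝ) :=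
    ⟨_, rfl⟩
  have hKc : IsCompact K := by
    rw [hK]
    exact isCompact_univ_pi fun _ => isCompact_closedBall 0 _
  have hcs : CompactSpace K := isCompact_iff_compactSpace.1 hKc
  have hmem : ∀ φ : β → ℂ, φ ∈ K ↔ ∀ y, ‖φ y‖ ≤ R := by
    intro φ
    rw [hK]
    simp
  obtain ⟨C, hC⟩ : ∃ C : Set (K × ((κ → β → ℂ) × (κ → β → ℂ) × (κ → ℝ))),
      C = ⋂ j, ({z | 1 / ((R : ℝ) + 1) ≤ ‖∑ y, z.2.1 j y * z.1.1 y‖} ∩
        {z | ‖(z.2.2.2 j : ℂ) * (∑ y, z.2.1 j y * z.1.1 y) + ∑ y, z.2.2.1 j y * z.1.1 y‖ ≤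
          ε * ‖∑ y, z.2.1 j y * z.1.1 y‖}) := ⟨_, rfl⟩
  have hc1 : ∀ y, Continuous fun z : K × ((κ → β → ℂ) × (κ → β → ℂ) × (κ → ℝ)) => z.1.1 y :=
    fun y => (continuous_apply y).comp (continuous_subtype_val.comp continuous_fst)
  have hc2 : ∀ j y, Continuous fun z : K × ((κ → β → ℂ) × (κ → β → ℂ) × (κ → ℝ)) => z.2.1 j y :=
    fun j y => (continuous_apply_apply j y).comp (continuous_fst.comp continuous_snd)
  have hc3 : ∀ j y, Continuous fun z : K × ((κ → β → ℂ) × (κ → β → ℂ) × (κ → ℝ)) => z.2.2.1 j y :=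
    fun j y => (continuous_apply_apply j y).comp
      (continuous_fst.comp (continuous_snd.comp continuous_snd))
  have hc4 : ∀ j, Continuous fun z : K × ((κ → β → ℂ) × (κ → β → ℂ) × (κ → ℝ)) => z.2.2.2 j :=
    fun j => (continuous_apply j).comp (continuous_snd.comp (continuous_snd.comp continuous_snd))
  have hcA : ∀ j, Continuous fun z : K × ((κ → β → ℂ) × (κ → β → ℂ) × (κ → ℝ)) =>
      ∑ y, z.2.1 j y * z.1.1 y := fun j => continuous_finsetSum _ fun y _ => (hc2 j y).mul (hc1 y)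
  have hcB : ∀ j, Continuous fun z : K × ((κ → β → ℂ) × (κ → β → ℂ) × (κ → ℝ)) =>
      ∑ y, z.2.2.1 j y * z.1.1 y := fun j => continuous_finsetSum _ fun y _ => (hc3 j y).mul (hc1 y)
  have hCc : IsClosed C := by
    rw [hC]
    refine isClosed_iInter fun j => IsClosed.inter ?_ ?_
    · exact isClosed_le continuous_const (hcA j).norm
    · exact isClosed_le
        (((Complex.continuous_ofReal.comp (hc4 j)).mul (hcA j)).add (hcB j)).norm
        (continuous_const.mul (hcA j).norm)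
  have h1 := isClosedMap_snd_of_compactSpace (X := K)
    (Y := (κ → β → ℂ) × (κ → β → ℂ) × (κ → ℝ)) C hCc
  convert h1 using 1
  ext z
  constructor
  · rintro ⟨φ, hφ, hz⟩
    refine ⟨(⟨φ, (hmem φ).2 hφ⟩, z), ?_, rfl⟩
    rw [hC, Set.mem_iInter]
    intro j
    exact ⟨(hz j).1, (hz j).2⟩
  · rintro ⟨⟨φ, z'⟩, hz, rfl⟩
    rw [hC, Set.mem_iInter] at hz
    exact ⟨φ.1, (hmem φ.1).1 φ.2, fun j => ⟨(hz j).1, (hz j).2⟩⟩

omit [DecidableEq κ] in
private theorem hit_iff (A B : Matrix κ β ℂ) (h : κ → ℝ) (ε : ℝ) :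
    Hit A B ε h ↔ ∃ R : ℕ, ((A, B, h) : (κ → β → ℂ) × (κ → β → ℂ) × (κ → ℝ)) ∈ TR κ β ε R := by
  constructor
  · rintro ⟨φ, hφ⟩
    obtain ⟨R, hR⟩ := exists_nat_gt (∑ y, ‖φ y‖ + ∑ j, 1 / ‖(A *ᵥ φ) j‖)
    have h1 : 0 ≤ ∑ y, ‖φ y‖ := sum_nonneg fun y _ => norm_nonneg _
    have h2 : 0 ≤ ∑ j, 1 / ‖(A *ᵥ φ) j‖ := sum_nonneg fun j _ => by positivity
    refine ⟨R, φ, fun y => ?_, fun j => ⟨?_, (hφ j).2⟩⟩
    · have h3 : ‖φ y‖ ≤ ∑ y, ‖φ y‖ :=
        single_le_sum (f := fun y => ‖φ y‖) (fun y _ => norm_nonneg _) (mem_univ y)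
      linarith
    · have h3 : 1 / ‖(A *ᵥ φ) j‖ ≤ ∑ j, 1 / ‖(A *ᵥ φ) j‖ :=
        single_le_sum (f := fun j => 1 / ‖(A *ᵥ φ) j‖) (fun j _ => by positivity) (mem_univ j)
      have h4 : 0 < ‖(A *ᵥ φ) j‖ := norm_pos_iff.2 (hφ j).1
      have h5 : 1 / ‖(A *ᵥ φ) j‖ ≤ (R : ℝ) + 1 := by linarith
      change 1 / ((R : ℝ) + 1) ≤ ‖(A *ᵥ φ) j‖
      rw [div_le_iff₀ (by positivity)]
      rw [div_le_iff₀ h4] at h5
      linarith
  · rintro ⟨R, φ, -, hφ⟩
    refine ⟨φ, fun j => ⟨?_, (hφ j).2⟩⟩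
    intro h0
    have h1 := (hφ j).1
    change 1 / ((R : ℝ) + 1) ≤ ‖(A *ᵥ φ) j‖ at h1
    rw [h0, norm_zero] at h1
    have h2 : 0 < 1 / ((R : ℝ) + 1) := by positivity
    linarith

theorem measurable_hit {Ω : Type} [MeasurableSpace Ω] (A B : Ω → Matrix κ β ℂ) (h : Ω → κ → ℝ)
    (hA : ∀ j y, Measurable fun w => A w j y) (hB : ∀ j y, Measurable fun w => B w j y)
    (hh : ∀ j, Measurable fun w => h w j) (ε : ℝ) :
    MeasurableSet {w | Hit (A w) (B w) ε (h w)} := by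
  have h1 : MeasurableSet (⋃ R : ℕ, TR κ β ε R) :=
    MeasurableSet.iUnion fun R => (TR_closed ε R).measurableSet
  have h2 : Measurable fun w => (((A w, B w, h w)) : (κ → β → ℂ) × (κ → β → ℂ) × (κ → ℝ)) := by
    refine Measurable.prodMk ?_ (Measurable.prodMk ?_ ?_)
    · rw [measurable_pi_iff]
      intro j
      rw [measurable_pi_iff]
      exact fun y => hA j y
    · rw [measurable_pi_iff]
      intro j
      rw [measurable_pi_iff]
      exact fun y => hB j y
    · rw [measurable_pi_iff]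
      exact hh
  have h3 := h2 h1
  convert h3 using 1
  ext w
  rw [Set.mem_preimage, Set.mem_iUnion]
  exact hit_iff _ _ _ _

private theorem meas_det {ι 𝕜 : Type} [Fintype ι] [DecidableEq ι] [Field 𝕜] [MeasurableSpace 𝕜]
    [MeasurableAdd₂ 𝕜] [MeasurableMul₂ 𝕜] {Ω : Type} [MeasurableSpace Ω] (M : Ω → Matrix ι ι 𝕜)
    (hM : ∀ i j, Measurable fun w => M w i j) : Measurable fun w => (M w).det := by
  simp only [det_apply']
  refine Finset.measurable_sum _ fun σ _ => Measurable.const_mul ?_ _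
  exact Finset.measurable_prod _ fun i _ => hM _ _

private theorem meas_inv {ι 𝕜 : Type} [Fintype ι] [DecidableEq ι] [Field 𝕜] [MeasurableSpace 𝕜]
    [MeasurableAdd₂ 𝕜] [MeasurableMul₂ 𝕜] [MeasurableInv 𝕜] {Ω : Type} [MeasurableSpace Ω]
    (M : Ω → Matrix ι ι 𝕜) (hM : ∀ i j, Measurable fun w => M w i j) (i j : ι) :
    Measurable fun w => (M w)⁻¹ i j := by
  have h1 : ∀ w, (M w)⁻¹ i j = ((M w).det)⁻¹ * ((M w).updateRow j (Pi.single i 1)).det := by
    intro w
    rw [Matrix.inv_def, Matrix.smul_apply, adjugate_apply, Ring.inverse_eq_inv', smul_eq_mul]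
  simp only [h1]
  refine (meas_det M hM).inv.mul (meas_det _ fun a b => ?_)
  by_cases h : a = j
  · subst h
    simp only [updateRow_self]
    exact measurable_const
  · simp only [updateRow_ne h]
    exact hM a b

/-- the resolvent depends measurably on `b` -/
theorem measurable_rsc {ι : Type} [Fintype ι] [DecidableEq ι] (H : Matrix ι ι ℂ) {Ω : Type}
    [MeasurableSpace Ω] (b : Ω → ι → ℂ) (hb : ∀ x, Measurable fun w => b w x) (x y : ι) :
    Measurable fun w => APS.rsc H (b w) x y := by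
  unfold APS.rsc
  refine meas_inv _ (fun i j => ?_) x y
  simp only [Matrix.add_apply]
  refine Measurable.const_add ?_ _
  by_cases h : i = j
  · subst h
    simp only [diagonal_apply_eq]
    exact hb i
  · simp only [diagonal_apply_ne _ h]
    exact measurable_const

private theorem meas_bet {ι : Type} [Fintype ι] [DecidableEq ι] (H : Matrix ι ι ℂ) {Ω : Type}
    [MeasurableSpace Ω] (b : Ω → ι → ℂ) (hb : ∀ x, Measurable fun w => b w x) (W : κ → ι)
    (φ : ι → ℂ) (j : κ) : Measurable fun w => bet H (b w) W φ j := by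
  have hJ : ∀ x y, Measurable fun w => JM H (b w) x y := fun x y =>
    Complex.measurable_im.comp (measurable_rsc H b hb x y)
  unfold bet sst
  refine Measurable.neg (Finset.measurable_sum _ fun i _ => Measurable.mul ?_ ?_)
  · exact Complex.measurable_ofReal.comp (meas_inv _ (fun a c => hJ (W a) (W c)) j i)
  · exact Finset.measurable_sum _ fun y _ =>
      (Complex.measurable_ofReal.comp (hJ (W i) y)).mul_const _

theorem measurable_Amt {ι : Type} [Fintype ι] [DecidableEq ι] (H : Matrix ι ι ℂ) {Ω : Type}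
    [MeasurableSpace Ω] (b : Ω → ι → ℂ) (hb : ∀ x, Measurable fun w => b w x) (W : κ → ι)
    (S : Finset ι) (j : κ) (y : ↥S) : Measurable fun w => Amt H (b w) W S j y := by
  unfold Amt alp
  refine Measurable.add ?_ ?_
  · exact Finset.measurable_sum _ fun z _ => (measurable_rsc H b hb (W j) z).mul_const _
  · exact Finset.measurable_sum _ fun i _ =>
      (measurable_rsc H b hb (W j) (W i)).mul (meas_bet H b hb W _ i)

theorem measurable_Bmt {ι : Type} [Fintype ι] [DecidableEq ι] (H : Matrix ι ι ℂ) {Ω : Type}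
    [MeasurableSpace Ω] (b : Ω → ι → ℂ) (hb : ∀ x, Measurable fun w => b w x) (W : κ → ι)
    (S : Finset ι) (j : κ) (y : ↥S) : Measurable fun w => Bmt H (b w) W S j y := by
  exact meas_bet H b hb W _ j

end Pool.Agent.ANL
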