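import Pool.Agent.ANL.CoverProb
import Pool.Agent.ANL.MeasHit

/-! # ANL FUB: the exceptional set when the forms do not depend on the coordinates in `s`

Product space `Ω = ∀ x : ι, E x`, product measure, `s : Finset ι`; the index set of the forms is `↥s`.

Paper proof.  `f = indicator of the set`, measurable by `measurable_hit` (and measurability of `|X| ≤ B0`).
`∫⁻ f = ∫⁻ (∫⋯∫⁻_s f) ` (`MeasureTheory.lintegral_eq_lmarginal_univ`, `lmarginal` lemmas, or `measurePreserving_piEquivPiSubtypeProd` and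
`Measure.prod_apply`), and for every `w` the inner integral is the `Measure.pi (fun x : ↥s => ν x)` measure of
`{u | (∀ x, |X x (u x)| ≤ B0) ∧ Hit (A w') (B w') ε (fun x => X x (u x))}` with `w' = Function.updateFinset w s u`; `A w' = A w`, `B w' = B w`
by hypothesis, so `cover_prob'` applies.  The outer measure is a probability measure.
-/

open Matrix Finset MeasureTheory

noncomputable section

namespace Pool.Agent.ANL

variable {ι β : Type} [Fintype ι] [DecidableEq ι] [Fintype β]

theorem fub_hit {E : ι → Type} [∀ x, MeasurableSpace (E x)] (ν : ∀ x, Measure (E x))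
    [∀ x, IsProbabilityMeasure (ν x)] (X : ∀ x, E x → ℝ) (hX : ∀ x, Measurable (X x))
    (s : Finset ι) (A B : (∀ x, E x) → Matrix ↥s β ℂ)
    (hA : ∀ j y, Measurable fun w => A w j y) (hB : ∀ j y, Measurable fun w => B w j y)
    (hAs : ∀ w w', (∀ x, x ∉ s → w x = w' x) → A w = A w')
    (hBs : ∀ w w', (∀ x, x ∉ s → w x = w' x) → B w = B w')
    {ε B0 : ℝ} (hε : 0 < ε) (hB0 : 0 ≤ B0) {q : ℝ} (hq : 0 ≤ q)
    (hν : ∀ x ∈ s, ∀ t, ν x {e | |X x e - t| ≤ 3 * ε} ≤ ENNReal.ofReal q) :
    Measure.pi ν {w | (∀ j : ↥s, |X j (w j)| ≤ B0) ∧ Hit (A w) (B w) ε (fun j => X j (w j))} ≤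
      ENNReal.ofReal (2 ^ s.card * (8 * (s.card + 1) * (B0 / ε + 4)) ^ (2 * Fintype.card β) *
        q ^ s.card) := by
  classical
  set T : Set (∀ x, E x) :=
    {w | (∀ j : ↥s, |X j (w j)| ≤ B0) ∧ Hit (A w) (B w) ε (fun j => X j (w j))} with hTdef
  have hT : MeasurableSet T := by
    have h1 : MeasurableSet {w : ∀ x, E x | ∀ j : ↥s, |X j (w j)| ≤ B0} := by
      have h2 : {w : ∀ x, E x | ∀ j : ↥s, |X j (w j)| ≤ B0} =
          ⋂ j : ↥s, {w : ∀ x, E x | |X j (w j)| ≤ B0} := by
        ext w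
        simp only [Set.mem_ofPred_eq, Set.mem_iInter]
      rw [h2]
      refine MeasurableSet.iInter fun j => ?_
      exact measurableSet_le (((hX j).comp (measurable_pi_apply (j : ι))).abs) measurable_const
    have h3 : MeasurableSet {w : ∀ x, E x | Hit (A w) (B w) ε (fun j : ↥s => X j (w j))} :=
      measurable_hit A B (fun w j => X j (w j)) hA hB
        (fun j => (hX j).comp (measurable_pi_apply (j : ι))) ε
    exact h1.inter h3
  let e := MeasurableEquiv.piEquivPiSubtypeProd E (fun x => x ∈ s)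
  have he := measurePreserving_piEquivPiSubtypeProd ν (fun x => x ∈ s)
  have h1 : Measure.pi ν T = ((Measure.pi fun i : {x // x ∈ s} => ν i).prod
      (Measure.pi fun i : {x // x ∉ s} => ν i)) (e.symm ⁻¹' T) := by
    have h3 := he.measure_preimage (e.symm.measurable hT).nullMeasurableSet
    have h4 : (MeasurableEquiv.piEquivPiSubtypeProd E fun x => x ∈ s) ⁻¹' (e.symm ⁻¹' T) = T := by
      ext w
      show e.symm (e w) ∈ T ↔ w ∈ T
      rw [e.symm_apply_apply]
    rw [h4] at h3
    rw [h3]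
    congr 1
    refine congrArg₂ (fun a b => Measure.prod a b) ?_ ?_
    · congr 1
      exact Subsingleton.elim _ _
    · congr 1
  have hesymm : ∀ (u : ∀ i : {x // x ∈ s}, E i) (y : ∀ i : {x // x ∉ s}, E i) (j : {x // x ∈ s}),
      e.symm (u, y) j = u j := by
    intro u y j
    have h2 := congrArg (fun z => z.1 j) (e.apply_symm_apply (u, y))
    exact h2
  have hesymm' : ∀ (u : ∀ i : {x // x ∈ s}, E i) (y : ∀ i : {x // x ∉ s}, E i)
      (j : {x // x ∉ s}), e.symm (u, y) j = y j := by
    intro u y j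
    have h2 := congrArg (fun z => z.2 j) (e.apply_symm_apply (u, y))
    exact h2
  rw [h1, Measure.prod_apply_symm (e.symm.measurable hT)]
  have h2 : ∀ y : (∀ i : {x // x ∉ s}, E i), (Measure.pi fun i : {x // x ∈ s} => ν i)
      ((fun u => (u, y)) ⁻¹' (e.symm ⁻¹' T)) ≤
      ENNReal.ofReal (2 ^ s.card * (8 * (s.card + 1) * (B0 / ε + 4)) ^ (2 * Fintype.card β) *
        q ^ s.card) := by
    intro y
    rcases Set.eq_empty_or_nonempty ((fun u : (∀ i : {x // x ∈ s}, E i) => (u, y)) ⁻¹'
      (e.symm ⁻¹' T)) with h3 | ⟨u₀, hu₀⟩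
    · rw [h3, measure_empty]
      exact zero_le
    · have h4 := cover_prob' (κ := {x // x ∈ s}) (E := fun j => E j) (A (e.symm (u₀, y)))
        (B (e.symm (u₀, y))) hε hB0 (fun i : {x // x ∈ s} => ν i) (fun j => X j) hq
        (fun j t => hν j j.2 t)
      rw [Fintype.card_coe] at h4
      refine le_trans (measure_mono ?_) h4
      intro u hu
      have hu' : e.symm (u, y) ∈ T := hu
      obtain ⟨h5, h6⟩ := hu'
      have h7 : A (e.symm (u, y)) = A (e.symm (u₀, y)) := hAs _ _ fun x hx => by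
        rw [hesymm' u y ⟨x, hx⟩, hesymm' u₀ y ⟨x, hx⟩]
      have h8 : B (e.symm (u, y)) = B (e.symm (u₀, y)) := hBs _ _ fun x hx => by
        rw [hesymm' u y ⟨x, hx⟩, hesymm' u₀ y ⟨x, hx⟩]
      have h9 : (fun j : {x // x ∈ s} => X j (e.symm (u, y) j)) =
          fun j : {x // x ∈ s} => X j (u j) := by
        funext j
        rw [hesymm]
      refine ⟨fun j => ?_, ?_⟩
      · have := h5 j
        rwa [hesymm] at this
      · rw [h7, h8, h9] at h6
        exact h6
  refine (lintegral_mono h2).trans ?_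
  rw [lintegral_const, measure_univ, mul_one]

end Pool.Agent.ANL
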